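import Mathlib
import Pool.Agent.Helper390.CovarioA

/-!
Y509/LS (helper509, MP_dbfdb2_gt): radial functions and their Fourier transforms.
-/

set_option autoImplicit false

open MeasureTheory FourierTransform Metric

open scoped RealInnerProductSpace ENNReal

namespace Pool.Agent.Y509.LS

/-- Euclidean space -/
abbrev E (d : ℕ) := EuclideanSpace ℝ (Fin d)

variable {d : ℕ}

/-- radial functions -/
def Rad {α : Type} (f : E d → α) : Prop := ∀ x y, ‖x‖ = ‖y‖ → f x = f y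

lemma rad_fourier {f : E d → ℂ} (hf : Rad f) : Rad (𝓕 f) := by
  intro x y hxy
  obtain ⟨A, hA⟩ : ∃ A : E d ≃ₗᵢ[ℝ] E d, A x = y := ⟨_, Submodule.reflection_sub hxy⟩
  have h1 : f ∘ A = f := by
    funext z
    exact hf _ _ (A.norm_map z)
  rw [← hA, ← Real.fourier_comp_linearIsometry, h1]

lemma fourier_cont {f : E d → ℂ} (h1 : Integrable f) : Continuous (𝓕 f) :=
  VectorFourier.fourierIntegral_continuous Real.continuous_fourierChar continuous_inner h1

lemma fourier_bound (f : E d → ℂ) (ξ : E d) : ‖𝓕 f ξ‖ ≤ ∫ x, ‖f x‖ :=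
  VectorFourier.norm_fourierIntegral_le_integral_norm _ _ _ _ _

/-- the flip formula -/
lemma fourier_flip {f g : E d → ℂ} (hf : Integrable f) (hg : Integrable g) :
    ∫ x, 𝓕 f x * g x = ∫ x, f x * 𝓕 g x := by
  have := VectorFourier.integral_fourierIntegral_smul_eq_flip (L := innerₗ (E d))
      (μ := volume) (ν := volume) Real.continuous_fourierChar continuous_inner hf hg
  have hfl : (innerₗ (E d)).flip = innerₗ (E d) := by
    ext x y; simp
  rw [hfl] at this
  exact this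

/-- Parseval's formula -/
lemma parseval {f g : E d → ℂ} (f1 : Integrable f) (f2 : MemLp f 2) (g1 : Integrable g)
    (g2 : MemLp g 2) :
    ∫ x, (starRingEnd ℂ) (𝓕 f x) * 𝓕 g x = ∫ x, (starRingEnd ℂ) (f x) * g x := by
  have h1 := Pool.Agent.Helper390.Covario.fourier_toLp_ae f1 f2
  have h2 := Pool.Agent.Helper390.Covario.fourier_toLp_ae g1 g2
  have h3 := Lp.inner_fourier_eq (f2.toLp f) (g2.toLp g)
  rw [L2.inner_def, L2.inner_def] at h3
  have h4 : ∫ x, (starRingEnd ℂ) (𝓕 f x) * 𝓕 g x = ∫ x, inner ℂ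
      (((𝓕 (f2.toLp f) : Lp ℂ 2 (volume : Measure (E d))) : E d → ℂ) x)
      (((𝓕 (g2.toLp g) : Lp ℂ 2 (volume : Measure (E d))) : E d → ℂ) x) := by
    refine integral_congr_ae ?_
    filter_upwards [h1, h2] with x hx1 hx2
    rw [hx1, hx2]
    simp [mul_comm]
  have h5 : ∫ x, (starRingEnd ℂ) (f x) * g x = ∫ x, inner ℂ
      (((f2.toLp f) : E d → ℂ) x) (((g2.toLp g) : E d → ℂ) x) := by
    refine integral_congr_ae ?_
    filter_upwards [f2.coeFn_toLp, g2.coeFn_toLp] with x hx1 hx2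
    rw [hx1, hx2]
    simp [mul_comm]
  rw [h4, h5, h3]

/-- the square of the `L²` norm -/
noncomputable def N2 (f : E d → ℂ) : ℝ := ∫ x, ‖f x‖ ^ 2

lemma N2_nonneg (f : E d → ℂ) : 0 ≤ N2 f := integral_nonneg fun _ => by positivity

lemma N2_fourier {f : E d → ℂ} (f1 : Integrable f) (f2 : MemLp f 2) : N2 (𝓕 f) = N2 f :=
  (Pool.Agent.Helper390.Covario.plancherel f1 f2).2

lemma memLp_fourier {f : E d → ℂ} (f1 : Integrable f) (f2 : MemLp f 2) : MemLp (𝓕 f) 2 :=
  (Pool.Agent.Helper390.Covario.plancherel f1 f2).1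

/-- bounded radial functions supported in the ball of radius `R` -/
structure Adm (R : ℝ) (f : E d → ℂ) : Prop where
  meas : Measurable f
  bdd : ∃ C, ∀ x, ‖f x‖ ≤ C
  supp : ∀ x, R < ‖x‖ → f x = 0
  rad : Rad f

variable {R : ℝ} {f : E d → ℂ}

lemma Adm.integrable (h : Adm R f) : Integrable f := by
  obtain ⟨C, hC⟩ := h.bdd
  have h1 : IntegrableOn f (closedBall 0 R) volume := by
    refine Measure.integrableOn_of_bounded ?_ h.meas.aestronglyMeasurable
      (Filter.Eventually.of_forall hC)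
    exact (isCompact_closedBall (0 : E d) R).measure_lt_top.ne
  refine h1.integrable_of_forall_notMem_eq_zero ?_
  intro z hz
  apply h.supp
  simpa using hz

lemma Adm.memLp (h : Adm R f) : MemLp f 2 := by
  obtain ⟨C, hC⟩ := h.bdd
  have hC0 : 0 ≤ C := (norm_nonneg _).trans (hC 0)
  rw [memLp_two_iff_integrable_sq_norm h.meas.aestronglyMeasurable]
  refine (h.integrable.norm.const_mul C).mono' (h.meas.norm.pow_const 2).aestronglyMeasurable
    (Filter.Eventually.of_forall fun x => ?_)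
  rw [Real.norm_eq_abs, abs_of_nonneg (by positivity), sq]
  exact mul_le_mul_of_nonneg_right (hC x) (norm_nonneg _)

/-- the restriction to the ball of radius `R` -/
noncomputable def Pr (R : ℝ) (f : E d → ℂ) : E d → ℂ := (closedBall (0 : E d) R).indicator f

/-- the restriction of the frequencies to the ball of radius `R` -/
noncomputable def Qr (R : ℝ) (f : E d → ℂ) : E d → ℂ := 𝓕 (Pr R (𝓕 f))

lemma Pr_mem {x : E d} (h : ‖x‖ ≤ R) : Pr R f x = f x :=
  Set.indicator_of_mem (by simpa using h) _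

lemma Pr_notMem {x : E d} (h : R < ‖x‖) : Pr R f x = 0 :=
  Set.indicator_of_notMem (by simpa using h) _

lemma adm_Pr (hm : Measurable f) (hb : ∃ C, ∀ x, ‖f x‖ ≤ C) (hr : Rad f) : Adm R (Pr R f) := by
  obtain ⟨C, hC⟩ := hb
  refine ⟨hm.indicator isClosed_closedBall.measurableSet, ⟨C, fun x => ?_⟩, fun x hx => Pr_notMem hx,
    fun x y hxy => ?_⟩
  · have hC0 : 0 ≤ C := (norm_nonneg _).trans (hC 0)
    by_cases h : ‖x‖ ≤ R
    · rw [Pr_mem h]
      exact hC x
    · rw [Pr_notMem (not_le.1 h), norm_zero]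
      exact hC0
  · by_cases h : ‖x‖ ≤ R
    · rw [Pr_mem h, Pr_mem (hxy ▸ h)]
      exact hr x y hxy
    · rw [Pr_notMem (not_le.1 h), Pr_notMem (hxy ▸ not_le.1 h)]

lemma adm_Pr_fourier (h1 : Integrable f) (hr : Rad f) : Adm R (Pr R (𝓕 f)) :=
  adm_Pr (fourier_cont h1).measurable ⟨_, fourier_bound f⟩ (rad_fourier hr)

lemma Qr_cont (h : Adm R f) : Continuous (Qr R f) :=
  fourier_cont (adm_Pr_fourier h.integrable h.rad).integrable

lemma Qr_rad (h : Adm R f) : Rad (Qr R f) := rad_fourier (adm_Pr_fourier h.integrable h.rad).rad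

lemma Qr_bdd (R : ℝ) (f : E d → ℂ) : ∃ C, ∀ x, ‖Qr R f x‖ ≤ C := ⟨_, fourier_bound _⟩

lemma adm_PQ (h : Adm R f) : Adm R (Pr R (Qr R f)) :=
  adm_Pr (Qr_cont h).measurable (Qr_bdd R f) (Qr_rad h)

lemma N2_Qr (h : Adm R f) : N2 (Qr R f) = ∫ x in closedBall (0 : E d) R, ‖𝓕 f x‖ ^ 2 := by
  have h1 := adm_Pr_fourier (R := R) h.integrable h.rad
  unfold Qr
  rw [N2_fourier h1.integrable h1.memLp, ← integral_indicator isClosed_closedBall.measurableSet]
  unfold N2
  congr 1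
  funext x
  by_cases hx : ‖x‖ ≤ R
  · rw [Pr_mem hx, Set.indicator_of_mem (by simpa using hx)]
  · rw [Pr_notMem (not_le.1 hx), Set.indicator_of_notMem (by simpa using hx)]
    simp

lemma memLp_Qr (h : Adm R f) : MemLp (Qr R f) 2 := by
  have h1 := adm_Pr_fourier (R := R) h.integrable h.rad
  exact memLp_fourier h1.integrable h1.memLp

lemma N2_add_le {g : E d → ℂ} (hf : MemLp f 2) (hg : MemLp g 2) :
    N2 (f + g) ≤ 2 * N2 f + 2 * N2 g := by
  have i1 := (memLp_two_iff_integrable_sq_norm hf.1).1 hf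
  have i2 := (memLp_two_iff_integrable_sq_norm hg.1).1 hg
  have i3 := (memLp_two_iff_integrable_sq_norm (hf.add hg).1).1 (hf.add hg)
  unfold N2
  rw [← integral_const_mul, ← integral_const_mul, ← integral_add (i1.const_mul 2) (i2.const_mul 2)]
  refine integral_mono i3 ((i1.const_mul 2).add (i2.const_mul 2)) fun x => ?_
  simp only [Pi.add_apply]
  have h1 := norm_add_le (f x) (g x)
  have h2 : ‖f x + g x‖ ^ 2 ≤ (‖f x‖ + ‖g x‖) ^ 2 := pow_le_pow_left₀ (norm_nonneg _) h1 2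
  nlinarith [sq_nonneg (‖f x‖ - ‖g x‖)]

lemma cs_int {f g : E d → ℂ} (hf : MemLp f 2) (hg : MemLp g 2) :
    ∫ x, ‖f x‖ * ‖g x‖ ≤ √(N2 f) * √(N2 g) := by
  have h := integral_mul_le_Lp_mul_Lq_of_nonneg (μ := (volume : Measure (E d)))
    (Real.holderConjugate_iff.mpr ⟨by norm_num, by norm_num⟩ : (2 : ℝ).HolderConjugate 2)
    (f := fun x => ‖f x‖) (g := fun x => ‖g x‖)
    (Filter.Eventually.of_forall fun _ => norm_nonneg _)
    (Filter.Eventually.of_forall fun _ => norm_nonneg _)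
    (by simpa using hf.norm) (by simpa using hg.norm)
  simp only [Real.rpow_two] at h
  rw [Real.sqrt_eq_rpow, Real.sqrt_eq_rpow]
  exact h

/-- the norm of the composition of the two projections -/
lemma N2_PQ {q : ℝ} (hq : 0 ≤ q)
    (hKI : ∀ f : E d → ℂ, Adm R f → ∫ x in closedBall (0 : E d) R, ‖𝓕 f x‖ ^ 2 ≤ q * N2 f)
    (h : Adm R f) : N2 (Pr R (Qr R f)) ≤ q ^ 2 * N2 f := by
  obtain ⟨k, hk⟩ : ∃ k : E d → ℂ, k = Pr R (Qr R f) := ⟨_, rfl⟩
  have hkA : Adm R k := by rw [hk]; exact adm_PQ h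
  rw [← hk]
  obtain ⟨m, hm⟩ : ∃ m : E d → ℂ, m = Pr R (𝓕 f) := ⟨_, rfl⟩
  have hmA : Adm R m := by rw [hm]; exact adm_Pr_fourier h.integrable h.rad
  obtain ⟨k', hk'⟩ : ∃ k' : E d → ℂ, k' = fun x => (starRingEnd ℂ) (k x) := ⟨_, rfl⟩
  have hk'A : Adm R k' := by
    obtain ⟨C, hC⟩ := hkA.bdd
    refine ⟨?_, ⟨C, fun x => ?_⟩, fun x hx => ?_, fun x y hxy => ?_⟩
    · rw [hk']
      exact Complex.continuous_conj.measurable.comp hkA.meas
    · rw [hk']
      simpa using hC x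
    · rw [hk']
      simp [hkA.supp x hx]
    · rw [hk']
      simp [hkA.rad x y hxy]
  have h1 : (N2 k : ℂ) = ∫ x, 𝓕 m x * k' x := by
    unfold N2
    rw [← integral_complex_ofReal]
    congr 1
    funext x
    by_cases hx : ‖x‖ ≤ R
    · have e1 : 𝓕 m x = k x := by
        rw [hk, Pr_mem hx, hm]
        rfl
      rw [e1, hk']
      simp only
      rw [Complex.mul_conj, Complex.normSq_eq_norm_sq]
    · have e1 := hkA.supp x (not_le.1 hx)
      simp [hk', e1]
  rw [fourier_flip hmA.integrable hk'A.integrable] at h1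
  have h2 : N2 k ≤ ∫ x, ‖m x‖ * ‖Pr R (𝓕 k') x‖ := by
    have e1 : N2 k = ‖∫ x, m x * 𝓕 k' x‖ := by
      rw [← h1, Complex.norm_real, Real.norm_eq_abs, abs_of_nonneg (N2_nonneg k)]
    rw [e1]
    refine (norm_integral_le_integral_norm _).trans (le_of_eq ?_)
    congr 1
    funext x
    rw [norm_mul]
    by_cases hx : ‖x‖ ≤ R
    · rw [Pr_mem hx]
    · rw [hmA.supp x (not_le.1 hx), norm_zero, zero_mul, zero_mul]
  have hPA := adm_Pr_fourier (R := R) hk'A.integrable hk'A.rad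
  have h3 := h2.trans (cs_int hmA.memLp hPA.memLp)
  have h4 : N2 m ≤ q * N2 f := by
    have e1 : N2 m = ∫ x in closedBall (0 : E d) R, ‖𝓕 f x‖ ^ 2 := by
      rw [← N2_Qr h]
      unfold Qr
      rw [← hm, N2_fourier hmA.integrable hmA.memLp]
    rw [e1]
    exact hKI f h
  have h5 : N2 (Pr R (𝓕 k')) ≤ q * N2 k := by
    have e1 : N2 (Pr R (𝓕 k')) = ∫ x in closedBall (0 : E d) R, ‖𝓕 k' x‖ ^ 2 := by
      rw [← N2_Qr hk'A]
      unfold Qr
      rw [N2_fourier hPA.integrable hPA.memLp]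
    have e2 : N2 k' = N2 k := by
      unfold N2
      rw [hk']
      simp
    rw [e1, ← e2]
    exact hKI k' hk'A
  have h6 : √(N2 m) * √(N2 (Pr R (𝓕 k'))) ≤ √(q * N2 f) * √(q * N2 k) :=
    mul_le_mul (Real.sqrt_le_sqrt h4) (Real.sqrt_le_sqrt h5) (Real.sqrt_nonneg _)
      (Real.sqrt_nonneg _)
  have h7 := h3.trans h6
  have hk0 := N2_nonneg k
  have hf0 := N2_nonneg f
  rw [Real.sqrt_mul hq, Real.sqrt_mul hq] at h7
  have h8 : √q * √(N2 f) * (√q * √(N2 k)) = q * √(N2 f) * √(N2 k) := by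
    have := Real.mul_self_sqrt hq
    calc √q * √(N2 f) * (√q * √(N2 k)) = (√q * √q) * √(N2 f) * √(N2 k) := by ring
      _ = _ := by rw [this]
  rw [h8] at h7
  have h9 : √(N2 k) ≤ q * √(N2 f) := by
    rcases hk0.eq_or_lt with h | h
    · rw [← h, Real.sqrt_zero]
      positivity
    · have e1 : √(N2 k) * √(N2 k) = N2 k := Real.mul_self_sqrt hk0
      have e2 : 0 < √(N2 k) := Real.sqrt_pos.2 h
      have e3 : √(N2 k) * √(N2 k) ≤ q * √(N2 f) * √(N2 k) := by
        rw [e1]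
        exact h7
      exact le_of_mul_le_mul_right e3 e2
  calc N2 k = √(N2 k) ^ 2 := (Real.sq_sqrt hk0).symm
    _ ≤ (q * √(N2 f)) ^ 2 := pow_le_pow_left₀ (Real.sqrt_nonneg _) h9 2
    _ = q ^ 2 * N2 f := by rw [mul_pow, Real.sq_sqrt hf0]

end Pool.Agent.Y509.LS
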