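import Mathlib
import Pool.Agent.Y509.LS.K1

/-!
Y509/LS (helper509, MP_dbfdb2_gt): the norm of the composition of the projections to a ball in
space and to a ball of frequencies, by Schur's test with Gaussian functions.
-/

set_option autoImplicit false

open MeasureTheory FourierTransform Metric

open scoped RealInnerProductSpace ENNReal

namespace Pool.Agent.Y509.LS

variable {d : ℕ} {R : ℝ} {f : E d → ℂ}

/-- the Gaussian kernel -/
noncomputable def kk (d : ℕ) (c : ℝ) (x : E d) : ℝ :=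
  (Real.pi / c) ^ ((d : ℝ) / 2) * Real.exp (-(Real.pi ^ 2 / c) * ‖x‖ ^ 2)

lemma kk_nonneg {c : ℝ} (hc : 0 < c) (x : E d) : 0 ≤ kk d c x := by
  unfold kk
  positivity

lemma kk_cont (c : ℝ) : Continuous (kk d c) := by
  unfold kk
  fun_prop

lemma kk_le {c : ℝ} (hc : 0 < c) (x : E d) : kk d c x ≤ (Real.pi / c) ^ ((d : ℝ) / 2) := by
  unfold kk
  have h1 : Real.exp (-(Real.pi ^ 2 / c) * ‖x‖ ^ 2) ≤ 1 := by
    apply Real.exp_le_one_iff.2
    have : 0 ≤ Real.pi ^ 2 / c * ‖x‖ ^ 2 := by positivity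
    linarith
  have h2 : 0 ≤ (Real.pi / c) ^ ((d : ℝ) / 2) := by positivity
  nlinarith

lemma gauss_int {b : ℝ} (hb : 0 < b) : Integrable (fun x : E d => Real.exp (-b * ‖x‖ ^ 2)) := by
  have h1 := (GaussianFourier.integrable_cexp_neg_mul_sq_norm_add (V := E d)
    (b := (b : ℂ)) (by simpa using hb) 0 0).norm
  refine h1.congr (Filter.Eventually.of_forall fun x => ?_)
  simp only [zero_mul, add_zero, Complex.norm_exp]
  congr 1
  have : (-(b : ℂ) * (‖x‖ : ℂ) ^ 2) = ((-b * ‖x‖ ^ 2 : ℝ) : ℂ) := by push_cast; ring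
  rw [this, Complex.ofReal_re]

/-- the convolution of two Gaussian functions -/
lemma gauss_conv {c m : ℝ} (hc : 0 < c) (hm : 0 < m) (x : E d) :
    ∫ y, Real.exp (-m * ‖y‖ ^ 2) * kk d c (x + y) =
      (1 + m * c / Real.pi ^ 2) ^ (-((d : ℝ) / 2)) *
        Real.exp (-(m / (1 + m * c / Real.pi ^ 2)) * ‖x‖ ^ 2) := by
  have hpi := Real.pi_pos
  obtain ⟨A, hA⟩ : ∃ A : ℝ, A = Real.pi ^ 2 / c := ⟨_, rfl⟩
  have hA0 : 0 < A := by rw [hA]; positivity
  have hs : 0 < A + m := by linarith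
  have h1 : ∀ y : E d, Real.exp (-m * ‖y‖ ^ 2) * kk d c (x + y) =
      (Real.pi / c) ^ ((d : ℝ) / 2) * Real.exp (-(A * m / (A + m)) * ‖x‖ ^ 2) *
        Real.exp (-(A + m) * ‖y + (A / (A + m)) • x‖ ^ 2) := by
    intro y
    unfold kk
    rw [← hA]
    have e1 : -m * ‖y‖ ^ 2 + -A * ‖x + y‖ ^ 2 =
        -(A * m / (A + m)) * ‖x‖ ^ 2 + -(A + m) * ‖y + (A / (A + m)) • x‖ ^ 2 := by
      rw [norm_add_sq_real, norm_add_sq_real, inner_smul_right, norm_smul, mul_pow,
        Real.norm_eq_abs, sq_abs, real_inner_comm]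
      field_simp
      ring
    calc Real.exp (-m * ‖y‖ ^ 2) * ((Real.pi / c) ^ ((d : ℝ) / 2) *
          Real.exp (-A * ‖x + y‖ ^ 2))
        = (Real.pi / c) ^ ((d : ℝ) / 2) * Real.exp (-m * ‖y‖ ^ 2 + -A * ‖x + y‖ ^ 2) := by
          rw [Real.exp_add]
          ring
      _ = _ := by
          rw [e1, Real.exp_add]
          ring
  simp_rw [h1]
  rw [integral_const_mul, integral_add_right_eq_self
    (fun y : E d => Real.exp (-(A + m) * ‖y‖ ^ 2)),
    GaussianFourier.integral_rexp_neg_mul_sq_norm hs, finrank_euclideanSpace_fin]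
  have h2 : A * m / (A + m) = m / (1 + m * c / Real.pi ^ 2) := by
    rw [hA]
    field_simp
  have h3 : (Real.pi / c) ^ ((d : ℝ) / 2) * (Real.pi / (A + m)) ^ ((d : ℝ) / 2) =
      (1 + m * c / Real.pi ^ 2) ^ (-((d : ℝ) / 2)) := by
    rw [← Real.mul_rpow (by positivity) (by positivity), Real.rpow_neg (by positivity),
      ← Real.inv_rpow (by positivity)]
    congr 1
    rw [hA]
    field_simp
  rw [h2]
  calc (Real.pi / c) ^ ((d : ℝ) / 2) * Real.exp (-(m / (1 + m * c / Real.pi ^ 2)) * ‖x‖ ^ 2) *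
        (Real.pi / (A + m)) ^ ((d : ℝ) / 2)
      = ((Real.pi / c) ^ ((d : ℝ) / 2) * (Real.pi / (A + m)) ^ ((d : ℝ) / 2)) *
        Real.exp (-(m / (1 + m * c / Real.pi ^ 2)) * ‖x‖ ^ 2) := by ring
    _ = _ := by rw [h3]

lemma kk_fourier {c : ℝ} (hc : 0 < c) (x y : E d) :
    𝓕 (fun v : E d => Complex.exp (-(c : ℂ) * ‖v‖ ^ 2 + 2 * Real.pi * Complex.I * ⟪-x, v⟫)) y =
      ((kk d c (x + y) : ℝ) : ℂ) := by
  rw [fourier_gaussian_innerProductSpace' (by simpa using hc), finrank_euclideanSpace_fin]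
  unfold kk
  have h1 : -x - y = -(x + y) := by abel
  rw [h1, norm_neg]
  push_cast
  rw [Complex.ofReal_cpow (by positivity)]
  push_cast
  congr 2
  field_simp

/-- the Gaussian average of the square of the Fourier transform -/
lemma gauss_form {c : ℝ} (hc : 0 < c) (h : Adm R f) :
    ∫ ξ : E d, Real.exp (-c * ‖ξ‖ ^ 2) * ‖𝓕 f ξ‖ ^ 2 ≤
      ∫ x, ‖f x‖ * ∫ y, ‖f y‖ * kk d c (x + y) := by
  have hfi := h.integrable
  obtain ⟨C, hC⟩ : ∃ C : ℝ, ∀ ξ, ‖𝓕 f ξ‖ ≤ C := ⟨_, fourier_bound f⟩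
  have hG : Integrable (fun ξ : E d => ((Real.exp (-c * ‖ξ‖ ^ 2) : ℝ) : ℂ)) :=
    (gauss_int hc).ofReal
  obtain ⟨g, hg⟩ : ∃ g : E d → ℂ, g = fun ξ => 𝓕 f ξ * ((Real.exp (-c * ‖ξ‖ ^ 2) : ℝ) : ℂ) :=
    ⟨_, rfl⟩
  have hgi : Integrable g := by
    rw [hg]
    exact hG.bdd_mul (fourier_cont hfi).aestronglyMeasurable (Filter.Eventually.of_forall hC)
  obtain ⟨f', hf'⟩ : ∃ f' : E d → ℂ, f' = fun x => (starRingEnd ℂ) (f x) := ⟨_, rfl⟩
  have hf'i : Integrable f' := by
    rw [hf']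
    exact Complex.conjLIE.toContinuousLinearEquiv.toContinuousLinearMap.integrable_comp hfi
  have hf'r : Rad f' := by
    intro x y hxy
    rw [hf']
    simp only
    rw [h.rad x y hxy]
  have h1 : ∀ ξ, (starRingEnd ℂ) (𝓕 f ξ) = 𝓕 f' ξ := by
    intro ξ
    rw [rad_fourier hf'r ξ (-ξ) (norm_neg ξ).symm, Real.fourier_eq', Real.fourier_eq', ← integral_conj]
    congr 1
    funext v
    rw [hf']
    simp only [smul_eq_mul, map_mul, ← Complex.exp_conj, Complex.conj_ofReal, Complex.conj_I,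
      inner_neg_right]
    congr 2
    push_cast
    ring
  have h2 : ((∫ ξ : E d, Real.exp (-c * ‖ξ‖ ^ 2) * ‖𝓕 f ξ‖ ^ 2 : ℝ) : ℂ) =
      ∫ x, f' x * 𝓕 g x := by
    rw [← fourier_flip hf'i hgi, ← integral_complex_ofReal]
    congr 1
    funext ξ
    rw [← h1, hg]
    simp only
    rw [← mul_assoc, mul_comm ((starRingEnd ℂ) (𝓕 f ξ)), Complex.mul_conj,
      Complex.normSq_eq_norm_sq]
    push_cast
    ring
  have h3 : ∀ x, 𝓕 g x = ∫ y, f y * ((kk d c (x + y) : ℝ) : ℂ) := by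
    intro x
    obtain ⟨hx, hxd⟩ : ∃ hx : E d → ℂ, hx = fun v : E d =>
      Complex.exp (-(c : ℂ) * ‖v‖ ^ 2 + 2 * Real.pi * Complex.I * ⟪-x, v⟫) := ⟨_, rfl⟩
    have hxi : Integrable hx := by
      rw [hxd]
      exact GaussianFourier.integrable_cexp_neg_mul_sq_norm_add (V := E d)
        (b := (c : ℂ)) (by simpa using hc) _ _
    have e1 : ∫ y, f y * ((kk d c (x + y) : ℝ) : ℂ) = ∫ y, f y * 𝓕 hx y := by
      congr 1
      funext y
      rw [hxd, kk_fourier hc]
    rw [e1, ← fourier_flip hfi hxi, Real.fourier_eq']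
    congr 1
    funext ξ
    rw [hg, hxd, smul_eq_mul]
    simp only
    rw [mul_comm, mul_assoc]
    congr 1
    rw [Complex.ofReal_exp, ← Complex.exp_add]
    congr 1
    rw [inner_neg_left, real_inner_comm]
    push_cast
    ring
  have h4 : ∫ ξ : E d, Real.exp (-c * ‖ξ‖ ^ 2) * ‖𝓕 f ξ‖ ^ 2 = ‖∫ x, f' x * 𝓕 g x‖ := by
    rw [← h2, Complex.norm_real, Real.norm_eq_abs, abs_of_nonneg]
    exact integral_nonneg fun _ => by positivity
  rw [h4]
  have hkm : ∀ x, Integrable (fun y => ‖f y‖ * kk d c (x + y)) := by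
    intro x
    have := hfi.norm.bdd_mul (f := fun y : E d => kk d c (x + y)) (c := (Real.pi / c) ^ ((d : ℝ) / 2))
      ((kk_cont c).comp (by fun_prop)).aestronglyMeasurable
      (Filter.Eventually.of_forall fun y => by
        rw [Real.norm_eq_abs, abs_of_nonneg (kk_nonneg hc _)]
        exact kk_le hc _)
    refine this.congr (Filter.Eventually.of_forall fun y => ?_)
    simp only
    ring
  refine (norm_integral_le_integral_norm _).trans ?_
  obtain ⟨C', hC'⟩ : ∃ C' : ℝ, C' = (Real.pi / c) ^ ((d : ℝ) / 2) := ⟨_, rfl⟩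
  have hb : ∀ x, ‖∫ y, ‖f y‖ * kk d c (x + y)‖ ≤ (∫ y, ‖f y‖) * C' := by
    intro x
    rw [Real.norm_eq_abs, abs_of_nonneg (integral_nonneg fun y =>
      mul_nonneg (norm_nonneg _) (kk_nonneg hc _)), ← integral_mul_const]
    refine integral_mono (hkm x) (hfi.norm.mul_const _) fun y => ?_
    rw [hC']
    exact mul_le_mul_of_nonneg_left (kk_le hc _) (norm_nonneg _)
  have hmeas : AEStronglyMeasurable (fun x => ∫ y, ‖f y‖ * kk d c (x + y)) := by
    have : Measurable (Function.uncurry fun x y : E d => ‖f y‖ * kk d c (x + y)) := by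
      unfold Function.uncurry
      exact (h.meas.norm.comp measurable_snd).mul
        ((kk_cont c).measurable.comp (measurable_fst.add measurable_snd))
    exact this.stronglyMeasurable.integral_prod_right.aestronglyMeasurable
  refine integral_mono_of_nonneg (Filter.Eventually.of_forall fun _ => norm_nonneg _) ?_
    (Filter.Eventually.of_forall fun x => ?_)
  · have := hfi.norm.bdd_mul hmeas (Filter.Eventually.of_forall hb)
    refine this.congr (Filter.Eventually.of_forall fun y => ?_)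
    simp only
    ring
  · simp only
    rw [norm_mul]
    have e1 : ‖f' x‖ = ‖f x‖ := by
      rw [hf']
      simp
    rw [e1, h3]
    refine mul_le_mul_of_nonneg_left ((norm_integral_le_integral_norm _).trans (le_of_eq ?_))
      (norm_nonneg _)
    congr 1
    funext y
    rw [norm_mul, Complex.norm_real, Real.norm_eq_abs, abs_of_nonneg (kk_nonneg hc _)]

end Pool.Agent.Y509.LS
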