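import Mathlib
import Pool.Agent.Y509.LS.K2

/-!
Y509/LS (helper509, MP_dbfdb2_gt): Schur's test.
-/

set_option autoImplicit false

open MeasureTheory FourierTransform Metric

open scoped RealInnerProductSpace ENNReal

namespace Pool.Agent.Y509.LS

variable {d : ℕ} {R : ℝ} {f : E d → ℂ}

lemma Adm.sq_int (h : Adm R f) : Integrable (fun x => ‖f x‖ ^ 2) :=
  (memLp_two_iff_integrable_sq_norm h.meas.aestronglyMeasurable).1 h.memLp

/-- Schur's test with a Gaussian function -/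
lemma schur {c m : ℝ} (hc : 0 < c) (hm : 0 < m) (h : Adm R f) :
    ∫ x, ‖f x‖ * ∫ y, ‖f y‖ * kk d c (x + y) ≤
      (1 + m * c / Real.pi ^ 2) ^ (-((d : ℝ) / 2)) *
        Real.exp (m * R ^ 2 * (m * c / Real.pi ^ 2) / (1 + m * c / Real.pi ^ 2)) * N2 f := by
  have hpi := Real.pi_pos
  obtain ⟨a, ha⟩ : ∃ a : ℝ, a = m * c / Real.pi ^ 2 := ⟨_, rfl⟩
  have ha0 : 0 < a := by rw [ha]; positivity
  have hfi := h.integrable
  obtain ⟨C, hC⟩ := h.bdd
  have hC0 : 0 ≤ C := (norm_nonneg _).trans (hC 0)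
  obtain ⟨C', hC'⟩ : ∃ C' : ℝ, C' = (Real.pi / c) ^ ((d : ℝ) / 2) := ⟨_, rfl⟩
  have hC'0 : 0 ≤ C' := by rw [hC']; positivity
  have hkC : ∀ x : E d, kk d c x ≤ C' := fun x => by rw [hC']; exact kk_le hc x
  obtain ⟨A, hA⟩ : ∃ A : E d × E d → ℝ, A = fun p =>
    ‖f p.1‖ ^ 2 * Real.exp (m * ‖p.1‖ ^ 2) * Real.exp (-m * ‖p.2‖ ^ 2) * kk d c (p.1 + p.2) :=
    ⟨_, rfl⟩
  have hAm : Measurable A := by
    rw [hA]
    have h1 := kk_cont (d := d) c
    have h2 := h.meas
    fun_prop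
  have hw : Integrable (fun x : E d => ‖f x‖ ^ 2 * Real.exp (m * ‖x‖ ^ 2)) := by
    refine (h.sq_int.mul_const (Real.exp (m * R ^ 2))).mono' ?_ (Filter.Eventually.of_forall
      fun x => ?_)
    · have h2 := h.meas
      exact Measurable.aestronglyMeasurable (by fun_prop)
    · rw [Real.norm_eq_abs, abs_of_nonneg (by positivity)]
      by_cases hx : ‖x‖ ≤ R
      · have h3 : ‖x‖ ^ 2 ≤ R ^ 2 := pow_le_pow_left₀ (norm_nonneg _) hx 2
        have h4 := Real.exp_le_exp.2 (mul_le_mul_of_nonneg_left h3 hm.le)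
        exact mul_le_mul_of_nonneg_left h4 (by positivity)
      · rw [h.supp x (not_le.1 hx)]
        simp
  have hAi : Integrable A (volume.prod volume) := by
    refine ((hw.mul_prod (gauss_int hm)).mul_const C').mono' hAm.aestronglyMeasurable
      (Filter.Eventually.of_forall fun p => ?_)
    have h1 := kk_nonneg hc (p.1 + p.2)
    rw [hA, Real.norm_eq_abs, abs_of_nonneg (by positivity)]
    simp only
    exact mul_le_mul_of_nonneg_left (hkC _) (by positivity)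
  have hsw : Integrable (fun p : E d × E d => A p.swap) (volume.prod volume) := hAi.swap
  have hB : ∫ x, ‖f x‖ * ∫ y, ‖f y‖ * kk d c (x + y) =
      ∫ p : E d × E d, ‖f p.1‖ * ‖f p.2‖ * kk d c (p.1 + p.2) ∂(volume.prod volume) := by
    rw [integral_prod]
    · congr 1
      funext x
      rw [← integral_const_mul]
      congr 1
      funext y
      ring
    · refine ((hfi.norm.mul_prod hfi.norm).mul_const C').mono' ?_
        (Filter.Eventually.of_forall fun p => ?_)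
      · have h1 := kk_cont (d := d) c
        have h2 := h.meas
        exact Measurable.aestronglyMeasurable (by fun_prop)
      · have h1 := kk_nonneg hc (p.1 + p.2)
        rw [Real.norm_eq_abs, abs_of_nonneg (by positivity)]
        exact mul_le_mul_of_nonneg_left (hkC _) (by positivity)
  have h1 : ∫ p : E d × E d, ‖f p.1‖ * ‖f p.2‖ * kk d c (p.1 + p.2) ∂(volume.prod volume) ≤
      ∫ p : E d × E d, (1 / 2 * A p + 1 / 2 * A p.swap) ∂(volume.prod volume) := by
    refine integral_mono_of_nonneg (Filter.Eventually.of_forall fun p => ?_)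
      ((hAi.const_mul _).add (hsw.const_mul _)) (Filter.Eventually.of_forall fun p => ?_)
    · have h1 := kk_nonneg hc (p.1 + p.2)
      positivity
    · have h1 := kk_nonneg hc (p.1 + p.2)
      rw [hA]
      simp only [Prod.fst_swap, Prod.snd_swap]
      rw [add_comm p.2 p.1]
      obtain ⟨u, hu⟩ : ∃ u : ℝ, u = Real.exp (m * ‖p.1‖ ^ 2 / 2) * Real.exp (-m * ‖p.2‖ ^ 2 / 2) :=
        ⟨_, rfl⟩
      obtain ⟨v, hv⟩ : ∃ v : ℝ, v = Real.exp (m * ‖p.2‖ ^ 2 / 2) * Real.exp (-m * ‖p.1‖ ^ 2 / 2) :=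
        ⟨_, rfl⟩
      have huv : u * v = 1 := by
        rw [hu, hv, ← Real.exp_add, ← Real.exp_add, ← Real.exp_add]
        apply Real.exp_eq_one_iff _ |>.2
        ring
      have hu2 : Real.exp (m * ‖p.1‖ ^ 2) * Real.exp (-m * ‖p.2‖ ^ 2) = u ^ 2 := by
        rw [hu, ← Real.exp_add, ← Real.exp_add, ← Real.exp_nat_mul]
        congr 1
        push_cast
        ring
      have hv2 : Real.exp (m * ‖p.2‖ ^ 2) * Real.exp (-m * ‖p.1‖ ^ 2) = v ^ 2 := by
        rw [hv, ← Real.exp_add, ← Real.exp_add, ← Real.exp_nat_mul]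
        congr 1
        push_cast
        ring
      have h5 : ‖f p.1‖ * ‖f p.2‖ ≤ 1 / 2 * (‖f p.1‖ ^ 2 * u ^ 2) + 1 / 2 * (‖f p.2‖ ^ 2 * v ^ 2) := by
        have h6 := sq_nonneg (‖f p.1‖ * u - ‖f p.2‖ * v)
        have h7 : (‖f p.1‖ * u) * (‖f p.2‖ * v) = ‖f p.1‖ * ‖f p.2‖ := by
          calc (‖f p.1‖ * u) * (‖f p.2‖ * v) = ‖f p.1‖ * ‖f p.2‖ * (u * v) := by ring
            _ = _ := by rw [huv, mul_one]
        nlinarith
      calc ‖f p.1‖ * ‖f p.2‖ * kk d c (p.1 + p.2)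
          ≤ (1 / 2 * (‖f p.1‖ ^ 2 * u ^ 2) + 1 / 2 * (‖f p.2‖ ^ 2 * v ^ 2)) *
            kk d c (p.1 + p.2) := mul_le_mul_of_nonneg_right h5 h1
        _ = _ := by
            rw [← hu2, ← hv2]
            ring
  have h2 : ∫ p : E d × E d, (1 / 2 * A p + 1 / 2 * A p.swap) ∂(volume.prod volume) =
      ∫ p, A p ∂(volume.prod volume) := by
    have e1 : ∫ p : E d × E d, A p.swap ∂(volume.prod volume) =
        ∫ p, A p ∂(volume.prod volume) := integral_prod_swap A
    rw [integral_add (hAi.const_mul _) (hsw.const_mul _), integral_const_mul,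
      integral_const_mul, e1]
    ring
  have h3 : ∫ p, A p ∂(volume.prod volume) = ∫ x : E d, ‖f x‖ ^ 2 * Real.exp (m * ‖x‖ ^ 2) *
      ((1 + a) ^ (-((d : ℝ) / 2)) * Real.exp (-(m / (1 + a)) * ‖x‖ ^ 2)) := by
    rw [integral_prod _ hAi]
    congr 1
    funext x
    rw [ha, ← gauss_conv hc hm, ← integral_const_mul]
    congr 1
    funext y
    rw [hA]
    simp only
    ring
  rw [hB, ← ha]
  refine h1.trans (h2.le.trans (h3.le.trans ?_))
  unfold N2
  rw [← integral_const_mul]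
  refine integral_mono_of_nonneg (Filter.Eventually.of_forall fun p => by positivity)
    (h.sq_int.const_mul _) (Filter.Eventually.of_forall fun x => ?_)
  simp only
  by_cases hx : ‖x‖ ≤ R
  · have e1 : Real.exp (m * ‖x‖ ^ 2) * Real.exp (-(m / (1 + a)) * ‖x‖ ^ 2) ≤
        Real.exp (m * R ^ 2 * a / (1 + a)) := by
      rw [← Real.exp_add]
      apply Real.exp_le_exp.2
      have e2 : m * ‖x‖ ^ 2 + -(m / (1 + a)) * ‖x‖ ^ 2 = m * a / (1 + a) * ‖x‖ ^ 2 := by
        field_simp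
        ring
      have e3 : m * R ^ 2 * a / (1 + a) = m * a / (1 + a) * R ^ 2 := by ring
      rw [e2, e3]
      exact mul_le_mul_of_nonneg_left (pow_le_pow_left₀ (norm_nonneg _) hx 2) (by positivity)
    calc ‖f x‖ ^ 2 * Real.exp (m * ‖x‖ ^ 2) *
        ((1 + a) ^ (-((d : ℝ) / 2)) * Real.exp (-(m / (1 + a)) * ‖x‖ ^ 2))
        = (1 + a) ^ (-((d : ℝ) / 2)) *
          (Real.exp (m * ‖x‖ ^ 2) * Real.exp (-(m / (1 + a)) * ‖x‖ ^ 2)) * ‖f x‖ ^ 2 := by ring
      _ ≤ (1 + a) ^ (-((d : ℝ) / 2)) * Real.exp (m * R ^ 2 * a / (1 + a)) * ‖f x‖ ^ 2 := by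
          gcongr
  · rw [h.supp x (not_le.1 hx)]
    simp

/-- the key inequality -/
theorem key {a : ℝ} (ha : 0 < a) (h : Adm R f) :
    ∫ x in closedBall (0 : E d) R, ‖𝓕 f x‖ ^ 2 ≤
      Real.exp (2 * Real.pi * R ^ 2 * (a / √(1 + a)) - d / 2 * Real.log (1 + a)) * N2 f := by
  have hpi := Real.pi_pos
  obtain ⟨b, hb⟩ : ∃ b : ℝ, b = √(1 + a) := ⟨_, rfl⟩
  have hb0 : 0 < b := by rw [hb]; exact Real.sqrt_pos.2 (by linarith)
  have hb2 : b ^ 2 = 1 + a := by rw [hb]; exact Real.sq_sqrt (by linarith)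
  obtain ⟨c, hc⟩ : ∃ c : ℝ, c = Real.pi * a / b := ⟨_, rfl⟩
  have hc0 : 0 < c := by rw [hc]; positivity
  obtain ⟨m, hm⟩ : ∃ m : ℝ, m = Real.pi * b := ⟨_, rfl⟩
  have hm0 : 0 < m := by rw [hm]; positivity
  have hmc : m * c / Real.pi ^ 2 = a := by
    rw [hm, hc]
    field_simp
  have h1 := gauss_form hc0 h
  have h2 := schur hc0 hm0 h
  rw [hmc] at h2
  have hfi := h.integrable
  have h3 : ∫ x in closedBall (0 : E d) R, ‖𝓕 f x‖ ^ 2 ≤
      Real.exp (c * R ^ 2) * ∫ ξ : E d, Real.exp (-c * ‖ξ‖ ^ 2) * ‖𝓕 f ξ‖ ^ 2 := by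
    have hI : Integrable (fun ξ : E d => Real.exp (-c * ‖ξ‖ ^ 2) * ‖𝓕 f ξ‖ ^ 2) := by
      have := (gauss_int (d := d) hc0).bdd_mul (f := fun ξ => ‖𝓕 f ξ‖ ^ 2)
        (c := (∫ x, ‖f x‖) ^ 2) ((fourier_cont hfi).norm.pow 2).aestronglyMeasurable
        (Filter.Eventually.of_forall fun ξ => by
          rw [Real.norm_eq_abs, abs_of_nonneg (by positivity)]
          exact pow_le_pow_left₀ (norm_nonneg _) (fourier_bound f ξ) 2)
      refine this.congr (Filter.Eventually.of_forall fun ξ => ?_)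
      simp only
      ring
    rw [← integral_const_mul]
    refine le_trans ?_ (setIntegral_le_integral (s := closedBall (0 : E d) R) (hI.const_mul _)
      (Filter.Eventually.of_forall fun ξ => by positivity))
    refine setIntegral_mono_on ?_ (hI.const_mul _).integrableOn
      isClosed_closedBall.measurableSet fun ξ hξ => ?_
    · exact ((fourier_cont hfi).norm.pow 2).continuousOn.integrableOn_compact
        (isCompact_closedBall _ _)
    · have hx : ‖ξ‖ ≤ R := by simpa using hξ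
      have e1 : 1 ≤ Real.exp (c * R ^ 2) * Real.exp (-c * ‖ξ‖ ^ 2) := by
        rw [← Real.exp_add]
        apply Real.one_le_exp
        have := mul_le_mul_of_nonneg_left (pow_le_pow_left₀ (norm_nonneg _) hx 2) hc0.le
        linarith
      calc ‖𝓕 f ξ‖ ^ 2 = 1 * ‖𝓕 f ξ‖ ^ 2 := (one_mul _).symm
        _ ≤ (Real.exp (c * R ^ 2) * Real.exp (-c * ‖ξ‖ ^ 2)) * ‖𝓕 f ξ‖ ^ 2 :=
            mul_le_mul_of_nonneg_right e1 (by positivity)
        _ = _ := by ring
  refine h3.trans ((mul_le_mul_of_nonneg_left (h1.trans h2) (Real.exp_pos _).le).trans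
    (le_of_eq ?_))
  rw [Real.rpow_def_of_pos (by linarith), ← mul_assoc, ← mul_assoc, ← Real.exp_add,
    ← Real.exp_add, ← hb]
  congr 2
  have e1 : c * R ^ 2 = Real.pi * R ^ 2 * (a / b) := by
    rw [hc]
    ring
  have e2 : m * R ^ 2 * a / (1 + a) = Real.pi * R ^ 2 * (a / b) := by
    rw [hm, ← hb2]
    field_simp
  rw [e1, e2]
  ring

end Pool.Agent.Y509.LS
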