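import Mathlib
import Pool.Agent.Y509.LS.K3

/-!
Y509/LS (helper509, MP_dbfdb2_gt): a function with prescribed values on a ball in space, and with
almost no frequencies in a ball, by alternating projections.
-/

set_option autoImplicit false

open MeasureTheory FourierTransform Metric

open scoped RealInnerProductSpace ENNReal

namespace Pool.Agent.Y509.LS

variable {d : ℕ} {R : ℝ} {f g : E d → ℂ}

lemma fourier_add {f g : E d → ℂ} (hf : Integrable f) (hg : Integrable g) :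
    𝓕 (f + g) = 𝓕 f + 𝓕 g := by
  have := VectorFourier.fourierIntegral_add (L := innerₗ (E d)) (μ := volume)
    Real.continuous_fourierChar continuous_inner hf hg
  exact this

lemma Pr_add (R : ℝ) (f g : E d → ℂ) : Pr R (f + g) = Pr R f + Pr R g :=
  Set.indicator_add' _ _ _

lemma Qr_add (hf : Adm R f) (hg : Adm R g) : Qr R (f + g) = Qr R f + Qr R g := by
  unfold Qr
  rw [fourier_add hf.integrable hg.integrable, Pr_add,
    fourier_add (adm_Pr_fourier hf.integrable hf.rad).integrable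
      (adm_Pr_fourier hg.integrable hg.rad).integrable]

lemma Adm.add (hf : Adm R f) (hg : Adm R g) : Adm R (f + g) := by
  obtain ⟨C, hC⟩ := hf.bdd
  obtain ⟨C', hC'⟩ := hg.bdd
  refine ⟨hf.meas.add hg.meas, ⟨C + C', fun x => (norm_add_le _ _).trans (add_le_add (hC x) (hC' x))⟩,
    fun x hx => ?_, fun x y hxy => ?_⟩
  · rw [Pi.add_apply, hf.supp x hx, hg.supp x hx, add_zero]
  · rw [Pi.add_apply, Pi.add_apply, hf.rad x y hxy, hg.rad x y hxy]

/-- the indicator function of the ball of radius `R₂` -/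
noncomputable def ind (d : ℕ) (R₂ : ℝ) : E d → ℂ := (closedBall (0 : E d) R₂).indicator fun _ => 1

lemma ind_mem {R₂ : ℝ} {x : E d} (h : ‖x‖ ≤ R₂) : ind d R₂ x = 1 :=
  Set.indicator_of_mem (by simpa using h) _

lemma ind_notMem {R₂ : ℝ} {x : E d} (h : R₂ < ‖x‖) : ind d R₂ x = 0 :=
  Set.indicator_of_notMem (by simpa using h) _

lemma ind_adm {R₂ : ℝ} (h : R₂ ≤ R) : Adm R (ind d R₂) := by
  refine ⟨measurable_const.indicator isClosed_closedBall.measurableSet, ⟨1, fun x => ?_⟩,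
    fun x hx => ind_notMem (lt_of_le_of_lt h hx), fun x y hxy => ?_⟩
  · by_cases hx : ‖x‖ ≤ R₂
    · rw [ind_mem hx]
      simp
    · rw [ind_notMem (not_le.1 hx)]
      simp
  · by_cases hx : ‖x‖ ≤ R₂
    · rw [ind_mem hx, ind_mem (hxy ▸ hx)]
    · rw [ind_notMem (not_le.1 hx), ind_notMem (hxy ▸ not_le.1 hx)]

lemma N2_ind (R₂ : ℝ) : N2 (ind d R₂) = volume.real (closedBall (0 : E d) R₂) := by
  unfold N2
  have h1 : ∀ x : E d, ‖ind d R₂ x‖ ^ 2 =
      (closedBall (0 : E d) R₂).indicator (fun _ => (1 : ℝ)) x := by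
    intro x
    by_cases hx : ‖x‖ ≤ R₂
    · rw [ind_mem hx, Set.indicator_of_mem (by simpa using hx)]
      simp
    · rw [ind_notMem (not_le.1 hx), Set.indicator_of_notMem (by simpa using hx)]
      simp
  simp_rw [h1]
  rw [integral_indicator isClosed_closedBall.measurableSet, setIntegral_const, smul_eq_mul, mul_one]

/-- the terms of the series -/
noncomputable def rr (d : ℕ) (R R₂ : ℝ) : ℕ → E d → ℂ
  | 0 => ind d R₂
  | k + 1 => Pr R (Qr R (rr d R R₂ k))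

/-- the partial sums -/
noncomputable def zz (d : ℕ) (R R₂ : ℝ) : ℕ → E d → ℂ
  | 0 => ind d R₂
  | k + 1 => zz d R R₂ k + rr d R R₂ (k + 1)

lemma rr_adm {R₂ : ℝ} (h : R₂ ≤ R) (k : ℕ) : Adm R (rr d R R₂ k) := by
  induction k with
  | zero => exact ind_adm h
  | succ k ih => exact adm_PQ ih

lemma zz_adm {R₂ : ℝ} (h : R₂ ≤ R) (k : ℕ) : Adm R (zz d R R₂ k) := by
  induction k with
  | zero => exact ind_adm h
  | succ k ih => exact ih.add (rr_adm h (k + 1))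

lemma zz_rec {R₂ : ℝ} (h : R₂ ≤ R) (k : ℕ) :
    zz d R R₂ (k + 1) = ind d R₂ + Pr R (Qr R (zz d R R₂ k)) := by
  induction k with
  | zero => rfl
  | succ k ih =>
    have h1 : zz d R R₂ (k + 1 + 1) = zz d R R₂ (k + 1) + rr d R R₂ (k + 1 + 1) := rfl
    have h2 : rr d R R₂ (k + 1 + 1) = Pr R (Qr R (rr d R R₂ (k + 1))) := rfl
    have h3 : zz d R R₂ (k + 1) = zz d R R₂ k + rr d R R₂ (k + 1) := rfl
    rw [h1, ih, h2]
    conv_rhs => rw [← ih, h3, Qr_add (zz_adm h k) (rr_adm h (k + 1)), Pr_add]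
    rw [add_assoc]

lemma rr_norm {R₂ q : ℝ} (h : R₂ ≤ R) (hq : 0 ≤ q)
    (hKI : ∀ f : E d → ℂ, Adm R f → ∫ x in closedBall (0 : E d) R, ‖𝓕 f x‖ ^ 2 ≤ q * N2 f)
    (k : ℕ) : N2 (rr d R R₂ k) ≤ (q ^ 2) ^ k * volume.real (closedBall (0 : E d) R₂) := by
  induction k with
  | zero =>
    rw [pow_zero, one_mul, ← N2_ind]
    exact le_rfl
  | succ k ih =>
    have h1 : N2 (rr d R R₂ (k + 1)) ≤ q ^ 2 * N2 (rr d R R₂ k) := N2_PQ hq hKI (rr_adm h k)
    calc _ ≤ q ^ 2 * N2 (rr d R R₂ k) := h1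
      _ ≤ q ^ 2 * ((q ^ 2) ^ k * volume.real (closedBall (0 : E d) R₂)) :=
          mul_le_mul_of_nonneg_left ih (sq_nonneg q)
      _ = _ := by ring

lemma zz_norm {R₂ q : ℝ} (h : R₂ ≤ R) (hq : 0 ≤ q) (hq2 : q ≤ 1 / 2)
    (hKI : ∀ f : E d → ℂ, Adm R f → ∫ x in closedBall (0 : E d) R, ‖𝓕 f x‖ ^ 2 ≤ q * N2 f)
    (k : ℕ) : N2 (zz d R R₂ k) ≤ 4 * volume.real (closedBall (0 : E d) R₂) := by
  have hV : 0 ≤ volume.real (closedBall (0 : E d) R₂) := measureReal_nonneg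
  induction k with
  | zero =>
    have : N2 (zz d R R₂ 0) = volume.real (closedBall (0 : E d) R₂) := N2_ind R₂
    linarith
  | succ k ih =>
    rw [zz_rec h]
    have h1 := N2_add_le (ind_adm (d := d) h).memLp (adm_PQ (zz_adm (d := d) h k)).memLp
    have h2 := N2_PQ hq hKI (zz_adm (d := d) h k)
    rw [N2_ind] at h1
    have h3 : q ^ 2 ≤ 1 / 4 := by nlinarith
    have h4 := N2_nonneg (zz d R R₂ k)
    have h5 : q ^ 2 * N2 (zz d R R₂ k) ≤ 1 / 4 * N2 (zz d R R₂ k) :=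
      mul_le_mul_of_nonneg_right h3 h4
    linarith

/-- the approximate solution -/
theorem neumann {R₂ q : ℝ} (h : R₂ ≤ R) (hq : 0 ≤ q) (hq2 : q ≤ 1 / 2)
    (hKI : ∀ f : E d → ℂ, Adm R f → ∫ x in closedBall (0 : E d) R, ‖𝓕 f x‖ ^ 2 ≤ q * N2 f)
    (N : ℕ) : ∃ z r : E d → ℂ, Adm R z ∧ Adm R r ∧
      N2 z ≤ 4 * volume.real (closedBall (0 : E d) R₂) ∧
      N2 r ≤ (q ^ 2) ^ (N + 1) * volume.real (closedBall (0 : E d) R₂) ∧
      ∀ x, ‖x‖ ≤ R → z x - Qr R z x = ind d R₂ x - r x := by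
  refine ⟨zz d R R₂ N, rr d R R₂ (N + 1), zz_adm h N, rr_adm h _, zz_norm h hq hq2 hKI N,
    rr_norm h hq hKI (N + 1), fun x hx => ?_⟩
  have h1 := congrFun (zz_rec (d := d) h N) x
  have h2 : zz d R R₂ (N + 1) x = zz d R R₂ N x + rr d R R₂ (N + 1) x := rfl
  rw [h2, Pi.add_apply, Pr_mem hx] at h1
  linear_combination h1

end Pool.Agent.Y509.LS
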