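import Mathlib
import Pool.Agent.Y509.LS.K4

/-!
Y509/LS (helper509, MP_dbfdb2_gt): averages over dilations of radial functions.
-/

set_option autoImplicit false

open MeasureTheory FourierTransform Metric

open scoped RealInnerProductSpace ENNReal

namespace Pool.Agent.Y509.LS

variable {d : ℕ} {R : ℝ} {f g : E d → ℂ}

/-- the volume of the unit ball -/
noncomputable def V1 (d : ℕ) : ℝ := volume.real (ball (0 : E d) 1)

lemma V1_pos (d : ℕ) : 0 < V1 d := by
  unfold V1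
  rw [measureReal_def]
  exact ENNReal.toReal_pos (measure_ball_pos volume 0 one_pos).ne' measure_ball_lt_top.ne

lemma vol_cb {r : ℝ} (hr : 0 ≤ r) : volume.real (closedBall (0 : E d) r) = r ^ d * V1 d := by
  unfold V1
  rw [measureReal_def, measureReal_def, Measure.addHaar_closedBall volume 0 hr, ENNReal.toReal_mul,
    ENNReal.toReal_ofReal (by positivity), finrank_euclideanSpace_fin]

lemma rad_smul {α : Type} {F : E d → α} (hF : Rad F) {e : E d} (he : ‖e‖ = 1) (x : E d) :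
    F x = F (‖x‖ • e) := by
  apply hF
  rw [norm_smul, he, mul_one, norm_norm]

/-- the integral over a shell -/
lemma shell (hd : 0 < d) {F : E d → ℂ} (hF : Rad F) (hc : Continuous F) (hm : MemLp F 2) {e : E d}
    (he : ‖e‖ = 1) {a b : ℝ} (ha : 0 < a) (hab : a ≤ b) :
    ∫ r in a..b, ‖F (r • e)‖ ^ 2 * r ^ (d - 1) ≤ N2 F / (d * V1 d) := by
  have : Nonempty (Fin d) := ⟨⟨0, hd⟩⟩
  have : Nontrivial (E d) := inferInstance
  have hdR : (0 : ℝ) < d := by exact_mod_cast hd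
  have hV := V1_pos d
  have h0 : (fun x : E d => (fun r : ℝ => ‖F (r • e)‖ ^ 2) ‖x‖) = fun x => ‖F x‖ ^ 2 := by
    funext x
    simp only
    rw [← rad_smul hF he]
  have h1 := integral_fun_norm_addHaar (volume : Measure (E d)) (fun r : ℝ => ‖F (r • e)‖ ^ 2)
  have h2 := integrable_fun_norm_addHaar (volume : Measure (E d)) (f := fun r : ℝ => ‖F (r • e)‖ ^ 2)
  rw [h0] at h1 h2
  have h3 := h2.1 ((memLp_two_iff_integrable_sq_norm hm.1).1 hm)
  rw [finrank_euclideanSpace_fin] at h1 h3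
  have h4 : N2 F / (d * V1 d) = ∫ y in Set.Ioi (0 : ℝ), y ^ (d - 1) • ‖F (y • e)‖ ^ 2 := by
    unfold N2
    rw [h1]
    unfold V1
    rw [nsmul_eq_mul, smul_eq_mul]
    unfold V1 at hV
    field_simp
  rw [h4, intervalIntegral.integral_of_le hab]
  have h5 : ∀ r : ℝ, ‖F (r • e)‖ ^ 2 * r ^ (d - 1) = r ^ (d - 1) • ‖F (r • e)‖ ^ 2 := by
    intro r
    rw [smul_eq_mul]
    ring
  simp_rw [h5]
  refine setIntegral_mono_set h3 ?_ (HasSubset.Subset.eventuallyLE fun r hr => ha.trans hr.1)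
  filter_upwards [ae_restrict_mem measurableSet_Ioi] with r hr
  have hr' : (0 : ℝ) < r := hr
  simp only [Pi.zero_apply]
  positivity

lemma dil_up (hd : 0 < d) {φ : ℝ → ℝ} (hφ : Continuous φ) (ρ τ : ℝ) :
    ∫ s in (0 : ℝ)..τ, φ (Real.exp s * ρ) * (Real.exp s * ρ) ^ d =
      ∫ r in ρ..(Real.exp τ * ρ), φ r * r ^ (d - 1) := by
  obtain ⟨k, rfl⟩ : ∃ k, d = k + 1 := ⟨d - 1, by omega⟩
  have h1 := intervalIntegral.integral_comp_mul_deriv (a := 0) (b := τ)
    (f := fun s => Real.exp s * ρ) (f' := fun s => Real.exp s * ρ)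
    (g := fun r => φ r * r ^ (k + 1 - 1))
    (fun s _ => by simpa using (Real.hasDerivAt_exp s).mul_const ρ)
    (by fun_prop) (by fun_prop)
  simp only [Function.comp_def, Real.exp_zero, one_mul] at h1
  rw [← h1]
  congr 1
  funext s
  rw [Nat.add_sub_cancel]
  ring

lemma dil_down (hd : 0 < d) {φ : ℝ → ℝ} (hφ : Continuous φ) (ρ τ : ℝ) :
    ∫ s in (0 : ℝ)..τ, φ (Real.exp (-s) * ρ) * (Real.exp (-s) * ρ) ^ d =
      ∫ r in (Real.exp (-τ) * ρ)..ρ, φ r * r ^ (d - 1) := by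
  obtain ⟨k, rfl⟩ : ∃ k, d = k + 1 := ⟨d - 1, by omega⟩
  have h1 := intervalIntegral.integral_comp_mul_deriv (a := 0) (b := τ)
    (f := fun s => Real.exp (-s) * ρ) (f' := fun s => -(Real.exp (-s) * ρ))
    (g := fun r => φ r * r ^ (k + 1 - 1))
    (fun s _ => by
      have := ((hasDerivAt_neg s).exp).mul_const ρ
      refine this.congr_deriv ?_
      ring)
    (by fun_prop) (by fun_prop)
  simp only [Function.comp_def, neg_zero, Real.exp_zero, one_mul] at h1
  rw [intervalIntegral.integral_symm ρ (Real.exp (-τ) * ρ), ← h1, ← intervalIntegral.integral_neg]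
  congr 1
  funext s
  rw [Nat.add_sub_cancel]
  ring

/-- Cauchy's inequality -/
lemma am_gm {h φ : ℝ → ℝ} {τ lam β : ℝ} (hτ : 0 ≤ τ) (hlam : 0 < lam)
    (h1 : ∀ s, 0 ≤ s → s ≤ τ → h s ^ 2 ≤ φ s) (hhi : IntervalIntegrable h volume 0 τ)
    (hφi : IntervalIntegrable φ volume 0 τ) (hβ : ∫ s in (0 : ℝ)..τ, φ s ≤ β) :
    ∫ s in (0 : ℝ)..τ, h s ≤ 1 / 2 * (τ / lam + lam * β) := by
  have h2 : ∫ s in (0 : ℝ)..τ, h s ≤ ∫ s in (0 : ℝ)..τ, (1 / (2 * lam) + lam / 2 * φ s) := by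
    refine intervalIntegral.integral_mono_on hτ hhi
      ((intervalIntegrable_const).add (hφi.const_mul _)) fun s hs => ?_
    have h3 := h1 s hs.1 hs.2
    have h4 : h s ≤ 1 / (2 * lam) + lam / 2 * h s ^ 2 := by
      have h5 : 0 ≤ (lam * h s - 1) ^ 2 := sq_nonneg _
      have h6 : 1 / (2 * lam) + lam / 2 * h s ^ 2 - h s = (lam * h s - 1) ^ 2 / (2 * lam) := by
        field_simp
        ring
      have h7 : 0 ≤ (lam * h s - 1) ^ 2 / (2 * lam) := by positivity
      linarith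
    have h8 : lam / 2 * h s ^ 2 ≤ lam / 2 * φ s := mul_le_mul_of_nonneg_left h3 (by positivity)
    linarith
  rw [intervalIntegral.integral_add (by simp) (hφi.const_mul _),
    intervalIntegral.integral_const_mul, intervalIntegral.integral_const, smul_eq_mul,
    sub_zero] at h2
  have h3 : lam / 2 * ∫ s in (0 : ℝ)..τ, φ s ≤ lam / 2 * β :=
    mul_le_mul_of_nonneg_left hβ (by positivity)
  have h4 : τ * (1 / (2 * lam)) + lam / 2 * β = 1 / 2 * (τ / lam + lam * β) := by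
    field_simp
  linarith

end Pool.Agent.Y509.LS
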