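import Mathlib
import Pool.Agent.Y509.LS.K5

/-!
Y509/LS (helper509, MP_dbfdb2_gt): pointwise bounds for the averages over dilations.
-/

set_option autoImplicit false

open MeasureTheory FourierTransform Metric

open scoped RealInnerProductSpace ENNReal

namespace Pool.Agent.Y509.LS

variable {d : ℕ} {R : ℝ} {f g z w : E d → ℂ}

lemma exists_unit (hd : 0 < d) : ∃ e : E d, ‖e‖ = 1 :=
  ⟨EuclideanSpace.single ⟨0, hd⟩ 1, by simp⟩

/-- the kernel: `-1` on the small ball, `0` on the shell, `w` outside -/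
noncomputable def gc (R R₂ : ℝ) (w : E d → ℂ) (x : E d) : ℂ :=
  if ‖x‖ ≤ R then -ind d R₂ x else w x

/-- the spectrum -/
noncomputable def HH (R : ℝ) (z : E d → ℂ) (ξ : E d) : ℂ := if ‖ξ‖ ≤ R then 0 else 𝓕 z ξ

lemma gc_meas {R₂ : ℝ} (hw : Measurable w) : Measurable (gc R R₂ w) := by
  unfold gc
  refine Measurable.ite (measurableSet_le measurable_norm measurable_const) ?_ hw
  exact (measurable_const.indicator isClosed_closedBall.measurableSet).neg

lemma gc_bdd {R₂ : ℝ} (hw : ∃ C, ∀ x, ‖w x‖ ≤ C) : ∃ C, 0 ≤ C ∧ ∀ x, ‖gc R R₂ w x‖ ≤ C := by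
  obtain ⟨C, hC⟩ := hw
  refine ⟨max C 1, by positivity, fun x => ?_⟩
  unfold gc
  by_cases h : ‖x‖ ≤ R
  · rw [if_pos h, norm_neg]
    by_cases h2 : ‖x‖ ≤ R₂
    · rw [ind_mem h2, norm_one]
      exact le_max_right _ _
    · rw [ind_notMem (not_le.1 h2), norm_zero]
      positivity
  · rw [if_neg h]
    exact (hC x).trans (le_max_left _ _)

lemma gc_rad {R₂ : ℝ} (hw : Rad w) : Rad (gc R R₂ w) := by
  intro x y hxy
  unfold gc
  by_cases h : ‖x‖ ≤ R
  · rw [if_pos h, if_pos (hxy ▸ h), (ind_adm (d := d) (le_refl R₂)).rad x y hxy]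
  · rw [if_neg h, if_neg (hxy ▸ h), hw x y hxy]

lemma HH_meas (hz : Integrable z) : Measurable (HH R z) := by
  unfold HH
  exact Measurable.ite (measurableSet_le measurable_norm measurable_const) measurable_const
    (fourier_cont hz).measurable

lemma HH_bdd (R : ℝ) (z : E d → ℂ) (ξ : E d) : ‖HH R z ξ‖ ≤ ∫ x, ‖z x‖ := by
  unfold HH
  by_cases h : ‖ξ‖ ≤ R
  · rw [if_pos h, norm_zero]
    exact integral_nonneg fun _ => norm_nonneg _
  · rw [if_neg h]
    exact fourier_bound z ξ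

lemma exp_one_bound : Real.exp 1 ≤ 2.72 := by
  have := Real.exp_one_lt_d9
  linarith

/-- the average outside the ball -/
theorem space_avg (hd : 0 < d) (hR : 0 < R) {q : ℝ} (hq : 0 < q) (hwc : Continuous w)
    (hwr : Rad w) (hwb : ∃ C, ∀ x, ‖w x‖ ≤ C) (hwm : MemLp w 2)
    (hN : N2 w ≤ q * (4 * (R ^ d * V1 d))) {x : E d} (hx : R < ‖x‖) :
    ‖∫ s in (0 : ℝ)..(1 / d), gc R (R * Real.exp (-(1 / d))) w (Real.exp (-s) • x)‖ ≤
      2 * √q * (1 / d) := by
  obtain ⟨e, he⟩ := exists_unit hd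
  have hdR : (0 : ℝ) < d := by exact_mod_cast hd
  have hV := V1_pos d
  obtain ⟨τ, hτ⟩ : ∃ τ : ℝ, τ = 1 / d := ⟨_, rfl⟩
  have hτ0 : 0 < τ := by rw [hτ]; positivity
  obtain ⟨ρ, hρ⟩ : ∃ ρ : ℝ, ρ = ‖x‖ := ⟨_, rfl⟩
  rw [← hτ]
  rw [← hρ] at hx
  have hρ0 : 0 < ρ := hR.trans hx
  obtain ⟨b, hb⟩ : ∃ b : ℝ, b = √q := ⟨_, rfl⟩
  have hb0 : 0 < b := by rw [hb]; exact Real.sqrt_pos.2 hq
  have hb2 : b ^ 2 = q := by rw [hb]; exact Real.sq_sqrt hq.le
  rw [← hb]
  have hRd : 0 < R ^ d := by positivity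
  obtain ⟨φ, hφ⟩ : ∃ φ : ℝ → ℝ, φ = fun s => (R ^ d)⁻¹ *
    (‖w ((Real.exp (-s) * ρ) • e)‖ ^ 2 * (Real.exp (-s) * ρ) ^ d) := ⟨_, rfl⟩
  have hφc : Continuous φ := by rw [hφ]; fun_prop
  have h1 : ∫ s in (0 : ℝ)..τ, φ s ≤ 4 * q * τ := by
    rw [hφ, intervalIntegral.integral_const_mul, dil_down hd
      (φ := fun r => ‖w (r • e)‖ ^ 2) (by fun_prop)]
    have h2 := shell hd hwr hwc hwm he (a := Real.exp (-τ) * ρ) (b := ρ) (by positivity)
      (by
        have : Real.exp (-τ) ≤ 1 := Real.exp_le_one_iff.2 (by linarith)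
        nlinarith)
    calc _ ≤ (R ^ d)⁻¹ * (N2 w / (d * V1 d)) := mul_le_mul_of_nonneg_left h2 (by positivity)
      _ ≤ (R ^ d)⁻¹ * (q * (4 * (R ^ d * V1 d)) / (d * V1 d)) := by gcongr
      _ = 4 * q * τ := by
          rw [hτ]
          field_simp
  have hgm := gc_meas (R := R) (R₂ := R * Real.exp (-τ)) hwc.measurable
  obtain ⟨C, hC0, hC⟩ := gc_bdd (R := R) (R₂ := R * Real.exp (-τ)) hwb
  have h3 : IntervalIntegrable (fun s => ‖gc R (R * Real.exp (-τ)) w (Real.exp (-s) • x)‖)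
      volume 0 τ := by
    have hm : Measurable (fun s : ℝ => ‖gc R (R * Real.exp (-τ)) w (Real.exp (-s) • x)‖) := by
      exact (hgm.comp (by fun_prop : Measurable fun s : ℝ => Real.exp (-s) • x)).norm
    refine (intervalIntegrable_const (c := C)).mono_fun' hm.aestronglyMeasurable
      (Filter.Eventually.of_forall fun s => ?_)
    simp only [norm_norm]
    exact hC _
  have h4 := am_gm (h := fun s => ‖gc R (R * Real.exp (-τ)) w (Real.exp (-s) • x)‖) hτ0.le
    (lam := 1 / (2 * b)) (β := 4 * q * τ) (by positivity) (φ := φ) ?_ h3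
    (hφc.intervalIntegrable _ _) h1
  · refine (intervalIntegral.norm_integral_le_integral_norm hτ0.le).trans (h4.trans (le_of_eq ?_))
    rw [← hb2]
    field_simp
    ring
  · intro s hs0 hs
    have hn : ‖Real.exp (-s) • x‖ = Real.exp (-s) * ρ := by
      rw [norm_smul, Real.norm_eq_abs, abs_of_pos (Real.exp_pos _), hρ]
    have hφ0 : 0 ≤ φ s := by
      rw [hφ]
      positivity
    unfold gc
    by_cases h5 : ‖Real.exp (-s) • x‖ ≤ R
    · rw [if_pos h5, ind_notMem, neg_zero, norm_zero]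
      · simpa using hφ0
      · rw [hn]
        have h6 : Real.exp (-τ) ≤ Real.exp (-s) := Real.exp_le_exp.2 (by linarith)
        calc R * Real.exp (-τ) < ρ * Real.exp (-τ) :=
              mul_lt_mul_of_pos_right hx (Real.exp_pos _)
          _ ≤ ρ * Real.exp (-s) := mul_le_mul_of_nonneg_left h6 hρ0.le
          _ = _ := mul_comm _ _
    · rw [if_neg h5, rad_smul hwr he, hn, hφ]
      simp only
      have h6 : R ^ d ≤ (Real.exp (-s) * ρ) ^ d := by
        rw [hn] at h5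
        exact pow_le_pow_left₀ hR.le (not_le.1 h5).le d
      have h7 : 1 ≤ (R ^ d)⁻¹ * (Real.exp (-s) * ρ) ^ d := by
        rw [inv_mul_eq_div, le_div_iff₀ hRd, one_mul]
        exact h6
      calc ‖w ((Real.exp (-s) * ρ) • e)‖ ^ 2 = 1 * ‖w ((Real.exp (-s) * ρ) • e)‖ ^ 2 := by ring
        _ ≤ ((R ^ d)⁻¹ * (Real.exp (-s) * ρ) ^ d) * ‖w ((Real.exp (-s) * ρ) • e)‖ ^ 2 :=
            mul_le_mul_of_nonneg_right h7 (by positivity)
        _ = _ := by ring

/-- the average of the spectrum -/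
theorem freq_avg (hd : 0 < d) (hR : 0 < R) (hz : Adm R z)
    (hN : N2 z ≤ 4 * ((R * Real.exp (-(1 / d))) ^ d * V1 d)) (ξ : E d) :
    ‖∫ s in (0 : ℝ)..(1 / d), ((Real.exp (s * d) : ℝ) : ℂ) * HH R z (Real.exp s • ξ)‖ ≤
      4 * (1 / d) := by
  obtain ⟨e, he⟩ := exists_unit hd
  have hdR : (0 : ℝ) < d := by exact_mod_cast hd
  have hV := V1_pos d
  obtain ⟨τ, hτ⟩ : ∃ τ : ℝ, τ = 1 / d := ⟨_, rfl⟩
  have hτ0 : 0 < τ := by rw [hτ]; positivity
  have hτd : τ * d = 1 := by rw [hτ]; field_simp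
  obtain ⟨ρ, hρ⟩ : ∃ ρ : ℝ, ρ = ‖ξ‖ := ⟨_, rfl⟩
  have hρ0 : 0 ≤ ρ := by rw [hρ]; exact norm_nonneg _
  rw [← hτ] at hN ⊢
  have hRd : 0 < R ^ d := by positivity
  have hn : ∀ s : ℝ, ‖Real.exp s • ξ‖ = Real.exp s * ρ := by
    intro s
    rw [norm_smul, Real.norm_eq_abs, abs_of_pos (Real.exp_pos _), hρ]
  have hexp : Real.exp (-τ) ^ d = Real.exp (-1) := by
    rw [← Real.exp_nat_mul]
    congr 1
    linarith
  rw [mul_pow, hexp] at hN
  by_cases hcase : Real.exp τ * ρ ≤ R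
  · have h1 : ∀ s ∈ Set.uIcc (0 : ℝ) τ, ((Real.exp (s * d) : ℝ) : ℂ) * HH R z (Real.exp s • ξ) =
        (fun _ => (0 : ℂ)) s := by
      intro s hs
      rw [Set.uIcc_of_le hτ0.le] at hs
      unfold HH
      rw [if_pos, mul_zero]
      rw [hn]
      exact (mul_le_mul_of_nonneg_right (Real.exp_le_exp.2 hs.2) hρ0).trans hcase
    rw [intervalIntegral.integral_congr h1]
    simp
    positivity
  · have hcase' := not_le.1 hcase
    have hρp : 0 < ρ := by
      rcases hρ0.eq_or_lt with h | h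
      · rw [← h, mul_zero] at hcase'
        linarith
      · exact h
    have hzi := hz.integrable
    have hFc := fourier_cont hzi
    have hFr := rad_fourier hz.rad
    obtain ⟨φ, hφ⟩ : ∃ φ : ℝ → ℝ, φ = fun s => Real.exp 1 * (ρ ^ d)⁻¹ *
      (‖𝓕 z ((Real.exp s * ρ) • e)‖ ^ 2 * (Real.exp s * ρ) ^ d) := ⟨_, rfl⟩
    have hφc : Continuous φ := by rw [hφ]; fun_prop
    have hRρ : R ^ d ≤ Real.exp 1 * ρ ^ d := by
      calc R ^ d ≤ (Real.exp τ * ρ) ^ d := pow_le_pow_left₀ hR.le hcase'.le d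
        _ = _ := by
            rw [mul_pow, ← Real.exp_nat_mul, mul_comm (d : ℝ) τ, hτd]
    have hρd : 0 < ρ ^ d := by positivity
    have h1 : ∫ s in (0 : ℝ)..τ, φ s ≤ 4 * Real.exp 1 * τ := by
      rw [hφ, intervalIntegral.integral_const_mul, dil_up hd
        (φ := fun r => ‖𝓕 z (r • e)‖ ^ 2) (by fun_prop)]
      have h2 := shell hd hFr hFc (memLp_fourier hzi hz.memLp) he (a := ρ)
        (b := Real.exp τ * ρ) hρp (by
          have : 1 ≤ Real.exp τ := Real.one_le_exp hτ0.le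
          nlinarith)
      rw [N2_fourier hzi hz.memLp] at h2
      calc _ ≤ Real.exp 1 * (ρ ^ d)⁻¹ * (N2 z / (d * V1 d)) :=
            mul_le_mul_of_nonneg_left h2 (by positivity)
        _ ≤ Real.exp 1 * (ρ ^ d)⁻¹ * (4 * (R ^ d * Real.exp (-1) * V1 d) / (d * V1 d)) := by
            gcongr
        _ ≤ Real.exp 1 * (ρ ^ d)⁻¹ *
            (4 * (Real.exp 1 * ρ ^ d * Real.exp (-1) * V1 d) / (d * V1 d)) := by
            gcongr
        _ = 4 * Real.exp 1 * τ := by
            rw [hτ, Real.exp_neg]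
            field_simp
    have hHm := HH_meas (R := R) hzi
    obtain ⟨C, hC⟩ : ∃ C : ℝ, C = ∫ x, ‖z x‖ := ⟨_, rfl⟩
    have h3 : IntervalIntegrable (fun s => ‖((Real.exp (s * d) : ℝ) : ℂ) *
        HH R z (Real.exp s • ξ)‖) volume 0 τ := by
      have hm : Measurable (fun s : ℝ => ‖((Real.exp (s * d) : ℝ) : ℂ) *
          HH R z (Real.exp s • ξ)‖) := by
        have h5 := hHm.comp (by fun_prop : Measurable fun s : ℝ => Real.exp s • ξ)
        have h6 : Measurable fun s : ℝ => ((Real.exp (s * d) : ℝ) : ℂ) := by fun_prop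
        exact (h6.mul h5).norm
      have h7 : IntervalIntegrable (fun s : ℝ => Real.exp (s * d) * C) volume 0 τ :=
        (by fun_prop : Continuous fun s : ℝ => Real.exp (s * d) * C).intervalIntegrable _ _
      refine h7.mono_fun' hm.aestronglyMeasurable
        (Filter.Eventually.of_forall fun s => ?_)
      simp only [norm_norm]
      rw [norm_mul, Complex.norm_real, Real.norm_eq_abs, abs_of_pos (Real.exp_pos _), hC]
      exact mul_le_mul_of_nonneg_left (HH_bdd _ _ _) (Real.exp_pos _).le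
    have h4 := am_gm (h := fun s => ‖((Real.exp (s * d) : ℝ) : ℂ) * HH R z (Real.exp s • ξ)‖)
      hτ0.le (lam := 1 / 3) (β := 4 * Real.exp 1 * τ) (by positivity) (φ := φ) ?_ h3
      (hφc.intervalIntegrable _ _) h1
    · refine (intervalIntegral.norm_integral_le_integral_norm hτ0.le).trans (h4.trans ?_)
      have := exp_one_bound
      nlinarith
    · intro s hs0 hs
      have hφ0 : 0 ≤ φ s := by
        rw [hφ]
        positivity
      rw [norm_mul, Complex.norm_real, Real.norm_eq_abs, abs_of_pos (Real.exp_pos _)]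
      unfold HH
      by_cases h5 : ‖Real.exp s • ξ‖ ≤ R
      · rw [if_pos h5, norm_zero, mul_zero]
        simpa using hφ0
      · rw [if_neg h5, rad_smul hFr he, hn, hφ]
        simp only
        have h8 : Real.exp (s * d) ≤ Real.exp 1 := by
          apply Real.exp_le_exp.2
          rw [← hτd]
          exact mul_le_mul_of_nonneg_right hs hdR.le
        have h9 : Real.exp s ^ d = Real.exp (s * d) := by
          rw [← Real.exp_nat_mul, mul_comm]
        rw [mul_pow (Real.exp s) ρ d, h9]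
        obtain ⟨T, hT⟩ : ∃ T : ℝ, T = ‖𝓕 z ((Real.exp s * ρ) • e)‖ := ⟨_, rfl⟩
        rw [← hT]
        have h10 := Real.exp_pos (s * d)
        calc (Real.exp (s * d) * T) ^ 2 = Real.exp (s * d) * (Real.exp (s * d) * T ^ 2) := by ring
          _ ≤ Real.exp 1 * (Real.exp (s * d) * T ^ 2) :=
              mul_le_mul_of_nonneg_right h8 (by positivity)
          _ = _ := by
              field_simp

end Pool.Agent.Y509.LS
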