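import Mathlib
import Pool.Agent.Y509.LS.K6

/-!
Y509/LS (helper509, MP_dbfdb2_gt): the forms of convolution kernels.
-/

set_option autoImplicit false

open MeasureTheory FourierTransform Metric

open scoped RealInnerProductSpace ENNReal

namespace Pool.Agent.Y509.LS

variable {d : ℕ} {R : ℝ} {a b k m : E d → ℂ}

/-- bounded functions with bounded support -/
structure Bs (a : E d → ℂ) : Prop where
  meas : Measurable a
  bdd : ∃ C, ∀ x, ‖a x‖ ≤ C
  supp : ∃ B, ∀ x, B < ‖x‖ → a x = 0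

lemma Bs.integrable (h : Bs a) : Integrable a := by
  obtain ⟨C, hC⟩ := h.bdd
  obtain ⟨B, hB⟩ := h.supp
  have h1 : IntegrableOn a (closedBall 0 B) volume := by
    refine Measure.integrableOn_of_bounded ?_ h.meas.aestronglyMeasurable
      (Filter.Eventually.of_forall hC)
    exact (isCompact_closedBall (0 : E d) B).measure_lt_top.ne
  refine h1.integrable_of_forall_notMem_eq_zero ?_
  intro z hz
  apply hB
  simpa using hz

lemma memLp_of_bdd (hm : AEStronglyMeasurable a volume) (hi : Integrable a) {C : ℝ}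
    (hC : ∀ x, ‖a x‖ ≤ C) : MemLp a 2 := by
  have hC0 : 0 ≤ C := (norm_nonneg _).trans (hC 0)
  rw [memLp_two_iff_integrable_sq_norm hm]
  refine (hi.norm.const_mul C).mono' (hm.norm.pow 2)
    (Filter.Eventually.of_forall fun x => ?_)
  rw [Real.norm_eq_abs, abs_of_nonneg (by positivity), sq]
  exact mul_le_mul_of_nonneg_right (hC x) (norm_nonneg _)

lemma Bs.memLp (h : Bs a) : MemLp a 2 := by
  obtain ⟨C, hC⟩ := h.bdd
  exact memLp_of_bdd h.meas.aestronglyMeasurable h.integrable hC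

lemma Adm.bs (h : Adm R a) : Bs a := ⟨h.meas, h.bdd, R, h.supp⟩

/-- the form of a kernel -/
noncomputable def Form (a b k : E d → ℂ) : ℂ :=
  ∫ p : E d × E d, (starRingEnd ℂ) (a p.1) * (k (p.1 - p.2) * b p.2) ∂(volume.prod volume)

lemma form_int (ha : Bs a) (hb : Bs b) (hk : Measurable k) {C : ℝ} (hC : ∀ x, ‖k x‖ ≤ C) :
    Integrable (fun p : E d × E d => (starRingEnd ℂ) (a p.1) * (k (p.1 - p.2) * b p.2))
      (volume.prod volume) := by
  refine ((ha.integrable.norm.mul_prod hb.integrable.norm).const_mul C).mono' ?_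
    (Filter.Eventually.of_forall fun p => ?_)
  · have h1 := ha.meas
    have h2 := hb.meas
    have h3 : Measurable (fun p : E d × E d => (starRingEnd ℂ) (a p.1)) :=
      Complex.continuous_conj.measurable.comp (h1.comp measurable_fst)
    have h4 : Measurable (fun p : E d × E d => k (p.1 - p.2)) :=
      hk.comp (measurable_fst.sub measurable_snd)
    exact (h3.mul (h4.mul (h2.comp measurable_snd))).aestronglyMeasurable
  · rw [norm_mul, norm_mul, RCLike.norm_conj]
    calc ‖a p.1‖ * (‖k (p.1 - p.2)‖ * ‖b p.2‖) ≤ ‖a p.1‖ * (C * ‖b p.2‖) := by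
          gcongr
          exact hC _
      _ = _ := by ring

lemma form_iter (ha : Bs a) (hb : Bs b) (hk : Measurable k) {C : ℝ} (hC : ∀ x, ‖k x‖ ≤ C) :
    Form a b k = ∫ x, (starRingEnd ℂ) (a x) * ∫ y, b y * k (x - y) := by
  unfold Form
  rw [integral_prod _ (form_int ha hb hk hC)]
  congr 1
  funext x
  rw [← integral_const_mul]
  congr 1
  funext y
  ring

/-- the form of an integrable kernel -/
lemma form_L1 (ha : Bs a) (hb : Bs b) (hk : Bs k) :
    Form a b k = ∫ ξ, (starRingEnd ℂ) (𝓕 a ξ) * (𝓕 k ξ * 𝓕 b ξ) := by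
  obtain ⟨C, hC⟩ := hk.bdd
  rw [form_iter ha hb hk.meas hC]
  obtain ⟨h, hh⟩ : ∃ h : E d → ℂ, h = fun x => ∫ y, b y * k (x - y) := ⟨_, rfl⟩
  have h1 : h = convolution b k (ContinuousLinearMap.mul ℂ ℂ) volume := by
    rw [hh]
    rfl
  have hi : Integrable h := by
    rw [h1]
    exact hb.integrable.integrable_convolution (ContinuousLinearMap.mul ℂ ℂ) hk.integrable
  have hF : ∀ ξ, 𝓕 h ξ = 𝓕 b ξ * 𝓕 k ξ := by
    intro ξ
    rw [h1]
    exact Real.fourier_mul_convolution_eq hb.integrable hk.integrable ξ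
  have hC2 : ∀ x, ‖h x‖ ≤ (∫ y, ‖b y‖) * C := by
    intro x
    rw [hh, ← integral_mul_const]
    refine (norm_integral_le_integral_norm _).trans ?_
    refine integral_mono_of_nonneg (Filter.Eventually.of_forall fun _ => norm_nonneg _)
      (hb.integrable.norm.mul_const _) (Filter.Eventually.of_forall fun y => ?_)
    simp only
    rw [norm_mul]
    exact mul_le_mul_of_nonneg_left (hC _) (norm_nonneg _)
  have h2 := parseval ha.integrable ha.memLp hi (memLp_of_bdd hi.aestronglyMeasurable hi hC2)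
  have h3 : ∫ x, (starRingEnd ℂ) (a x) * ∫ y, b y * k (x - y) =
      ∫ x, (starRingEnd ℂ) (a x) * h x := by
    rw [hh]
  rw [h3, ← h2]
  congr 1
  funext ξ
  rw [hF]
  ring

/-- the form of the transform of an integrable function -/
lemma form_F (ha : Bs a) (hb : Bs b) (hm : Integrable m) (hr : ∀ ξ, m (-ξ) = m ξ) :
    Form a b (𝓕 m) = ∫ ξ, (starRingEnd ℂ) (𝓕 a ξ) * (m ξ * 𝓕 b ξ) := by
  rw [form_iter ha hb (fourier_cont hm).measurable (fourier_bound m)]
  obtain ⟨M, hM⟩ : ∃ M : E d → ℂ, M = fun ξ => m ξ * 𝓕 b ξ := ⟨_, rfl⟩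
  have hMi : Integrable M := by
    rw [hM]
    have := hm.bdd_mul (f := 𝓕 b) (c := ∫ x, ‖b x‖) (fourier_cont hb.integrable).aestronglyMeasurable
      (Filter.Eventually.of_forall (fourier_bound b))
    refine this.congr (Filter.Eventually.of_forall fun ξ => ?_)
    simp only
    ring
  have h1 : ∀ x, ∫ y, b y * 𝓕 m (x - y) = 𝓕⁻ M x := by
    intro x
    obtain ⟨m', hm'⟩ : ∃ m' : E d → ℂ, m' = fun ξ => Complex.exp
      ((↑(2 * Real.pi * ⟪ξ, x⟫) * Complex.I)) * m ξ := ⟨_, rfl⟩
    have hm'i : Integrable m' := by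
      rw [hm']
      have hc : Continuous fun ξ : E d => Complex.exp ((↑(2 * Real.pi * ⟪ξ, x⟫) * Complex.I)) := by
        fun_prop
      refine hm.bdd_mul (c := 1) hc.aestronglyMeasurable (Filter.Eventually.of_forall fun ξ => ?_)
      rw [Complex.norm_exp_ofReal_mul_I]
    have e1 : ∀ y, 𝓕 m (x - y) = 𝓕 m' y := by
      intro y
      rw [Real.fourier_eq', Real.fourier_eq', ← integral_neg_eq_self (fun v : E d =>
        Complex.exp ((↑(-2 * Real.pi * ⟪v, x - y⟫) * Complex.I)) • m v)]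
      congr 1
      funext ξ
      rw [hr, hm', smul_eq_mul, smul_eq_mul, ← mul_assoc, ← Complex.exp_add]
      congr 2
      rw [inner_neg_left, inner_sub_right]
      push_cast
      ring
    calc ∫ y, b y * 𝓕 m (x - y) = ∫ y, b y * 𝓕 m' y := by
          congr 1
          funext y
          rw [e1]
      _ = ∫ ξ, 𝓕 b ξ * m' ξ := (fourier_flip hb.integrable hm'i).symm
      _ = 𝓕⁻ M x := by
          rw [Real.fourierInv_eq']
          congr 1
          funext ξ
          rw [hm', hM, smul_eq_mul]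
          ring
  simp_rw [h1]
  have h2 := VectorFourier.integral_sesq_fourierIntegral_eq_neg_flip (innerSL ℂ)
    (L := innerₗ (E d)) (μ := volume) (ν := volume) Real.continuous_fourierChar continuous_inner
    ha.integrable hMi
  rw [flip_innerₗ] at h2
  have h3 : ∫ ξ, inner ℂ (𝓕 a ξ) (M ξ) = ∫ x, inner ℂ (a x) (𝓕⁻ M x) := h2
  have h4 : ∫ x, (starRingEnd ℂ) (a x) * 𝓕⁻ M x = ∫ x, inner ℂ (a x) (𝓕⁻ M x) := by
    congr 1
    funext x
    simp [mul_comm]
  rw [h4, ← h3]
  congr 1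
  funext ξ
  rw [hM]
  simp [mul_comm]

/-- scaling -/
lemma fourier_scale (f : E d → ℂ) {c : ℝ} (hc : 0 < c) (ξ : E d) :
    𝓕 (fun x => f (c • x)) ξ = (((c ^ d)⁻¹ : ℝ) : ℂ) * 𝓕 f (c⁻¹ • ξ) := by
  rw [Real.fourier_eq', Real.fourier_eq']
  have h1 := Measure.integral_comp_smul (volume : Measure (E d))
    (fun v : E d => Complex.exp ((↑(-2 * Real.pi * ⟪v, c⁻¹ • ξ⟫) * Complex.I)) • f v) c
  rw [finrank_euclideanSpace_fin, abs_of_pos (by positivity)] at h1
  rw [← Complex.real_smul, ← h1]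
  have e : ∀ v : E d, (⟪c • v, c⁻¹ • ξ⟫ : ℝ) = ⟪v, ξ⟫ := by
    intro v
    rw [real_inner_smul_left, real_inner_smul_right]
    field_simp
  simp_rw [e]

end Pool.Agent.Y509.LS
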