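import Mathlib
import Pool.Agent.Y509.LS.K7

/-!
Y509/LS (helper509, MP_dbfdb2_gt): the averaged kernel.
-/

set_option autoImplicit false

open MeasureTheory FourierTransform Metric

open scoped RealInnerProductSpace ENNReal

namespace Pool.Agent.Y509.LS

variable {d : ℕ} {R : ℝ} {a b k m w z r : E d → ℂ}

/-- the averaged kernel -/
noncomputable def ga (R : ℝ) (w : E d → ℂ) (x : E d) : ℂ :=
  (d : ℂ) * ∫ s in (0 : ℝ)..(1 / d), gc R (R * Real.exp (-(1 / d))) w (Real.exp (-s) • x)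

lemma gs_meas {R₂ : ℝ} (hw : Measurable w) :
    Measurable (fun p : E d × ℝ => gc R R₂ w (Real.exp (-p.2) • p.1)) := by
  refine (gc_meas (R := R) (R₂ := R₂) hw).comp ?_
  fun_prop

lemma gs_intble {R₂ : ℝ} (hw : Measurable w) (hb : ∃ C, ∀ x, ‖w x‖ ≤ C) (x : E d) (τ : ℝ) :
    IntervalIntegrable (fun s => gc R R₂ w (Real.exp (-s) • x)) volume 0 τ := by
  obtain ⟨C, _, hC⟩ := gc_bdd (R := R) (R₂ := R₂) hb
  refine (intervalIntegrable_const (c := C)).mono_fun'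
    ((gs_meas hw).comp (by fun_prop : Measurable fun s : ℝ => (x, s))).aestronglyMeasurable
    (Filter.Eventually.of_forall fun s => ?_)
  exact hC _

lemma ga_meas (hw : Measurable w) : Measurable (ga R w) := by
  unfold ga
  refine measurable_const.mul ?_
  have h1 : ∀ x : E d, ∫ s in (0 : ℝ)..(1 / d), gc R (R * Real.exp (-(1 / d))) w
      (Real.exp (-s) • x) = ∫ s in Set.Ioc (0 : ℝ) (1 / d), gc R (R * Real.exp (-(1 / d))) w
      (Real.exp (-s) • x) := fun x =>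
    intervalIntegral.integral_of_le (by positivity)
  simp_rw [h1]
  exact (gs_meas (R := R) (R₂ := R * Real.exp (-(1 / d))) hw).stronglyMeasurable.integral_prod_right.measurable

lemma ga_rad (hw : Rad w) : Rad (ga R w) := by
  intro x y hxy
  unfold ga
  congr 1
  refine intervalIntegral.integral_congr fun s _ => ?_
  refine gc_rad hw _ _ ?_
  rw [norm_smul, norm_smul, hxy]

lemma ga_core (hd : 0 < d) (hR : 0 < R) {x : E d} (hx : ‖x‖ ≤ R * Real.exp (-(1 / d))) :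
    ga R w x = -1 := by
  have hdR : (0 : ℝ) < d := by exact_mod_cast hd
  have h0 : Real.exp (-(1 / (d : ℝ))) ≤ 1 := Real.exp_le_one_iff.2 (by
    have : 0 < 1 / (d : ℝ) := by positivity
    linarith)
  have h1 : ∀ s ∈ Set.uIcc (0 : ℝ) (1 / d), gc R (R * Real.exp (-(1 / d))) w
      (Real.exp (-s) • x) = (fun _ => (-1 : ℂ)) s := by
    intro s hs
    rw [Set.uIcc_of_le (by positivity)] at hs
    have e1 : ‖Real.exp (-s) • x‖ ≤ R * Real.exp (-(1 / d)) := by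
      rw [norm_smul, Real.norm_eq_abs, abs_of_pos (Real.exp_pos _)]
      have e2 : Real.exp (-s) ≤ 1 := Real.exp_le_one_iff.2 (by linarith [hs.1])
      calc Real.exp (-s) * ‖x‖ ≤ 1 * ‖x‖ := mul_le_mul_of_nonneg_right e2 (norm_nonneg _)
        _ ≤ _ := by rw [one_mul]; exact hx
    unfold gc
    rw [if_pos (e1.trans (by nlinarith)), ind_mem e1]
  unfold ga
  rw [intervalIntegral.integral_congr h1, intervalIntegral.integral_const]
  have h2 : (d : ℂ) ≠ 0 := by exact_mod_cast hd.ne'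
  simp [h2]

lemma ga_re (hd : 0 < d) (hw : Measurable w) (hb : ∃ C, ∀ x, ‖w x‖ ≤ C) (x : E d) :
    (ga R w x).re = d * ∫ s in (0 : ℝ)..(1 / d), (gc R (R * Real.exp (-(1 / d))) w
      (Real.exp (-s) • x)).re := by
  unfold ga
  have h1 := Complex.reCLM.intervalIntegral_comp_comm
    (gs_intble (R := R) (R₂ := R * Real.exp (-(1 / d))) hw hb x (1 / d))
  simp only [Complex.reCLM_apply] at h1
  rw [h1, ← Complex.ofReal_natCast, Complex.re_ofReal_mul]

lemma ga_mid (hd : 0 < d) (hw : Measurable w) (hb : ∃ C, ∀ x, ‖w x‖ ≤ C) {x : E d}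
    (hx : ‖x‖ ≤ R) : -1 ≤ (ga R w x).re ∧ (ga R w x).re ≤ 0 := by
  have hdR : (0 : ℝ) < d := by exact_mod_cast hd
  rw [ga_re hd hw hb]
  have hi : IntervalIntegrable (fun s => (gc R (R * Real.exp (-(1 / d))) w
      (Real.exp (-s) • x)).re) volume 0 (1 / d) := by
    have := gs_intble (R := R) (R₂ := R * Real.exp (-(1 / d))) hw hb x (1 / d)
    exact ⟨this.1.re, this.2.re⟩
  have h1 : ∀ s ∈ Set.Icc (0 : ℝ) (1 / d), -1 ≤ (gc R (R * Real.exp (-(1 / d))) w
      (Real.exp (-s) • x)).re ∧ (gc R (R * Real.exp (-(1 / d))) w (Real.exp (-s) • x)).re ≤ 0 := by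
    intro s hs
    have e1 : ‖Real.exp (-s) • x‖ ≤ R := by
      rw [norm_smul, Real.norm_eq_abs, abs_of_pos (Real.exp_pos _)]
      have e2 : Real.exp (-s) ≤ 1 := Real.exp_le_one_iff.2 (by linarith [hs.1])
      calc Real.exp (-s) * ‖x‖ ≤ 1 * ‖x‖ := mul_le_mul_of_nonneg_right e2 (norm_nonneg _)
        _ ≤ _ := by rw [one_mul]; exact hx
    unfold gc
    rw [if_pos e1]
    by_cases e2 : ‖Real.exp (-s) • x‖ ≤ R * Real.exp (-(1 / d))
    · rw [ind_mem e2]
      simp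
    · rw [ind_notMem (not_le.1 e2)]
      simp
  have hτ : (0 : ℝ) ≤ 1 / d := by positivity
  constructor
  · have h2 := intervalIntegral.integral_mono_on (f := fun _ : ℝ => (-1 : ℝ)) hτ
      intervalIntegrable_const hi fun s hs => (h1 s hs).1
    rw [intervalIntegral.integral_const, smul_eq_mul, sub_zero] at h2
    have h3 := mul_le_mul_of_nonneg_left h2 hdR.le
    have h4 : (d : ℝ) * (1 / d * -1) = -1 := by field_simp
    linarith
  · have h2 := intervalIntegral.integral_mono_on (g := fun _ : ℝ => (0 : ℝ)) hτ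
      hi intervalIntegrable_const fun s hs => (h1 s hs).2
    rw [intervalIntegral.integral_const, smul_zero] at h2
    exact mul_nonpos_of_nonneg_of_nonpos hdR.le h2

lemma ga_out (hd : 0 < d) (hR : 0 < R) {q : ℝ} (hq : 0 < q) (hwc : Continuous w)
    (hwr : Rad w) (hwb : ∃ C, ∀ x, ‖w x‖ ≤ C) (hwm : MemLp w 2)
    (hN : N2 w ≤ q * (4 * (R ^ d * V1 d))) {x : E d} (hx : R < ‖x‖) :
    ‖ga R w x‖ ≤ 2 * √q := by
  have hdR : (0 : ℝ) < d := by exact_mod_cast hd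
  have h1 := space_avg hd hR hq hwc hwr hwb hwm hN hx
  unfold ga
  rw [norm_mul, Complex.norm_natCast]
  have h2 := mul_le_mul_of_nonneg_left h1 hdR.le
  refine h2.trans (le_of_eq ?_)
  field_simp

/-- Jensen's inequality -/
lemma jensen {h : ℝ → ℂ} {τ : ℝ} (hτ : 0 < τ) (hi : IntervalIntegrable h volume 0 τ)
    (hi2 : IntervalIntegrable (fun s => ‖h s‖ ^ 2) volume 0 τ) :
    ‖∫ s in (0 : ℝ)..τ, h s‖ ^ 2 ≤ τ * ∫ s in (0 : ℝ)..τ, ‖h s‖ ^ 2 := by
  obtain ⟨I, hI⟩ : ∃ I : ℝ, I = ∫ s in (0 : ℝ)..τ, ‖h s‖ := ⟨_, rfl⟩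
  obtain ⟨J, hJ⟩ : ∃ J : ℝ, J = ∫ s in (0 : ℝ)..τ, ‖h s‖ ^ 2 := ⟨_, rfl⟩
  have h1 : ‖∫ s in (0 : ℝ)..τ, h s‖ ≤ I := by
    rw [hI]
    exact intervalIntegral.norm_integral_le_integral_norm hτ.le
  have h2 : 0 ≤ ∫ s in (0 : ℝ)..τ, (‖h s‖ - I / τ) ^ 2 :=
    intervalIntegral.integral_nonneg hτ.le fun s _ => sq_nonneg _
  have h3 : ∫ s in (0 : ℝ)..τ, (‖h s‖ - I / τ) ^ 2 = J - 2 * (I / τ) * I + τ * (I / τ) ^ 2 := by
    have e1 : ∀ s, (‖h s‖ - I / τ) ^ 2 = ‖h s‖ ^ 2 - 2 * (I / τ) * ‖h s‖ + (I / τ) ^ 2 := by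
      intro s
      ring
    simp_rw [e1]
    rw [intervalIntegral.integral_add (hi2.sub (hi.norm.const_mul _)) (by simp),
      intervalIntegral.integral_sub hi2 (hi.norm.const_mul _), intervalIntegral.integral_const_mul,
      intervalIntegral.integral_const, smul_eq_mul, sub_zero, ← hI, ← hJ]
  rw [h3] at h2
  rw [← hJ]
  have h4 : J - 2 * (I / τ) * I + τ * (I / τ) ^ 2 = J - I ^ 2 / τ := by
    field_simp
    ring
  rw [h4] at h2
  have h5 : I ^ 2 ≤ τ * J := by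
    have : I ^ 2 / τ ≤ J := by linarith
    rwa [div_le_iff₀ hτ, mul_comm] at this
  exact (pow_le_pow_left₀ (norm_nonneg _) h1 2).trans h5

lemma gc_memLp {R₂ : ℝ} (hR : R₂ ≤ R) (hw : Measurable w) (hwm : MemLp w 2) :
    MemLp (gc R R₂ w) 2 := by
  have h1 := (ind_adm (d := d) hR).memLp.norm.add hwm.norm
  refine h1.mono (gc_meas hw).aestronglyMeasurable (Filter.Eventually.of_forall fun x => ?_)
  simp only [Pi.add_apply]
  rw [Real.norm_eq_abs, abs_of_nonneg (by positivity)]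
  unfold gc
  by_cases h : ‖x‖ ≤ R
  · rw [if_pos h, norm_neg]
    linarith [norm_nonneg (w x)]
  · rw [if_neg h]
    linarith [norm_nonneg (ind d R₂ x)]

lemma N2_gc {R₂ : ℝ} (hR : R₂ ≤ R) (hw : Measurable w) (hwm : MemLp w 2) :
    N2 (gc R R₂ w) ≤ volume.real (closedBall (0 : E d) R₂) + N2 w := by
  have i1 := (memLp_two_iff_integrable_sq_norm (gc_memLp hR hw hwm).1).1 (gc_memLp hR hw hwm)
  have i2 := (memLp_two_iff_integrable_sq_norm hwm.1).1 hwm
  have i3 := (ind_adm (d := d) hR).sq_int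
  rw [← N2_ind]
  unfold N2
  rw [← integral_add i3 i2]
  refine integral_mono i1 (i3.add i2) fun x => ?_
  simp only
  unfold gc
  by_cases h : ‖x‖ ≤ R
  · rw [if_pos h, norm_neg]
    have : 0 ≤ ‖w x‖ ^ 2 := by positivity
    linarith
  · rw [if_neg h]
    have : 0 ≤ ‖ind d R₂ x‖ ^ 2 := by positivity
    linarith

lemma N2_scale (f : E d → ℂ) {c : ℝ} (hc : 0 < c) :
    ∫ x, ‖f (c • x)‖ ^ 2 = (c ^ d)⁻¹ * N2 f := by
  have h1 := Measure.integral_comp_smul (volume : Measure (E d)) (fun v : E d => ‖f v‖ ^ 2) c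
  rw [finrank_euclideanSpace_fin, abs_of_pos (by positivity)] at h1
  exact h1

/-- the norm of the averaged kernel -/
theorem N2_ga (hd : 0 < d) (hR : 0 < R) (hw : Measurable w) (hb : ∃ C, ∀ x, ‖w x‖ ≤ C)
    (hwm : MemLp w 2) :
    Integrable (fun x => ‖ga R w x‖ ^ 2) ∧
    N2 (ga R w) ≤ Real.exp 1 * N2 (gc R (R * Real.exp (-(1 / d))) w) := by
  have hdR : (0 : ℝ) < d := by exact_mod_cast hd
  obtain ⟨τ, hτ⟩ : ∃ τ : ℝ, τ = 1 / d := ⟨_, rfl⟩
  have hτ0 : 0 < τ := by rw [hτ]; positivity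
  obtain ⟨R₂, hR₂⟩ : ∃ R₂ : ℝ, R₂ = R * Real.exp (-τ) := ⟨_, rfl⟩
  have hRR : R₂ ≤ R := by
    have : Real.exp (-τ) ≤ 1 := Real.exp_le_one_iff.2 (by linarith)
    rw [hR₂]
    nlinarith
  obtain ⟨C, hC0, hC⟩ := gc_bdd (R := R) (R₂ := R₂) hb
  have hm2 := gc_memLp hRR hw hwm
  have hi2 := (memLp_two_iff_integrable_sq_norm hm2.1).1 hm2
  have hsq : ∀ x, IntervalIntegrable (fun s => ‖gc R R₂ w (Real.exp (-s) • x)‖ ^ 2) volume 0 τ := by
    intro x
    have hmm : Measurable (fun s : ℝ => ‖gc R R₂ w (Real.exp (-s) • x)‖ ^ 2) :=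
      (((gs_meas hw).comp (by fun_prop : Measurable fun s : ℝ => (x, s))).norm).pow_const 2
    refine (intervalIntegrable_const (c := C ^ 2)).mono_fun' hmm.aestronglyMeasurable
      (Filter.Eventually.of_forall fun s => ?_)
    simp only
    rw [Real.norm_eq_abs, abs_of_nonneg (by positivity)]
    exact pow_le_pow_left₀ (norm_nonneg _) (hC _) 2
  have hpt : ∀ x, ‖ga R w x‖ ^ 2 ≤ d * ∫ s in (0 : ℝ)..τ, ‖gc R R₂ w (Real.exp (-s) • x)‖ ^ 2 := by
    intro x
    have h1 := jensen hτ0 (gs_intble (R := R) (R₂ := R₂) hw hb x τ) (hsq x)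
    unfold ga
    rw [norm_mul, Complex.norm_natCast, mul_pow, ← hτ, ← hR₂]
    calc (d : ℝ) ^ 2 * ‖∫ s in (0 : ℝ)..τ, gc R R₂ w (Real.exp (-s) • x)‖ ^ 2
        ≤ (d : ℝ) ^ 2 * (τ * ∫ s in (0 : ℝ)..τ, ‖gc R R₂ w (Real.exp (-s) • x)‖ ^ 2) :=
          mul_le_mul_of_nonneg_left h1 (by positivity)
      _ = _ := by
          rw [hτ]
          field_simp
  obtain ⟨ν, hν⟩ : ∃ ν : Measure ℝ, ν = volume.restrict (Set.Ioc 0 τ) := ⟨_, rfl⟩
  have hνf : IsFiniteMeasure ν := by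
    rw [hν]
    exact ⟨by simp⟩
  have hPi : Integrable (fun p : ℝ × E d => ‖gc R R₂ w (Real.exp (-p.1) • p.2)‖ ^ 2)
      (ν.prod volume) := by
    have hgm : Measurable (fun p : ℝ × E d => gc R R₂ w (Real.exp (-p.1) • p.2)) :=
      (gc_meas (R := R) (R₂ := R₂) hw).comp (by fun_prop)
    have hm' : Measurable (fun p : ℝ × E d => ‖gc R R₂ w (Real.exp (-p.1) • p.2)‖ ^ 2) :=
      hgm.norm.pow_const 2
    rw [integrable_prod_iff hm'.aestronglyMeasurable]
    have e1 : ∀ s : ℝ, Integrable (fun x : E d => ‖gc R R₂ w (Real.exp (-s) • x)‖ ^ 2) := by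
      intro s
      exact (integrable_comp_smul_iff (volume : Measure (E d))
        (fun v : E d => ‖gc R R₂ w v‖ ^ 2) (Real.exp_pos (-s)).ne').2 hi2
    refine ⟨Filter.Eventually.of_forall fun s => e1 s, ?_⟩
    have e2 : ∀ s : ℝ, ∫ y : E d, ‖(fun p : ℝ × E d => ‖gc R R₂ w (Real.exp (-p.1) • p.2)‖ ^ 2)
        (s, y)‖ = (Real.exp (-s) ^ d)⁻¹ * N2 (gc R R₂ w) := by
      intro s
      rw [← N2_scale _ (Real.exp_pos _)]
      congr 1
      funext y
      simp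
    simp_rw [e2]
    rw [hν]
    have e3 : Continuous fun s : ℝ => (Real.exp (-s) ^ d)⁻¹ * N2 (gc R R₂ w) := by
      refine Continuous.mul (Continuous.inv₀ (by fun_prop) fun s => by positivity) continuous_const
    exact e3.integrableOn_Ioc
  have hsw := integral_integral_swap (μ := ν) (ν := (volume : Measure (E d)))
    (f := fun (s : ℝ) (x : E d) => ‖gc R R₂ w (Real.exp (-s) • x)‖ ^ 2) hPi
  have hIi : Integrable (fun x : E d => ∫ s in (0 : ℝ)..τ, ‖gc R R₂ w (Real.exp (-s) • x)‖ ^ 2) := by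
    have := hPi.integral_prod_right
    refine this.congr (Filter.Eventually.of_forall fun x => ?_)
    simp only
    rw [intervalIntegral.integral_of_le hτ0.le, hν]
  have hint : Integrable (fun x => ‖ga R w x‖ ^ 2) := by
    refine (hIi.const_mul (d : ℝ)).mono' ((ga_meas hw).norm.pow_const 2).aestronglyMeasurable
      (Filter.Eventually.of_forall fun x => ?_)
    rw [Real.norm_eq_abs, abs_of_nonneg (by positivity)]
    exact hpt x
  refine ⟨hint, ?_⟩
  rw [← hτ, ← hR₂]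
  have h1 : N2 (ga R w) ≤ d * ∫ x : E d, ∫ s in (0 : ℝ)..τ, ‖gc R R₂ w (Real.exp (-s) • x)‖ ^ 2 := by
    unfold N2
    rw [← integral_const_mul]
    exact integral_mono hint (hIi.const_mul _) hpt
  have h2 : ∫ x : E d, ∫ s in (0 : ℝ)..τ, ‖gc R R₂ w (Real.exp (-s) • x)‖ ^ 2 =
      ∫ s in (0 : ℝ)..τ, (Real.exp (-s) ^ d)⁻¹ * N2 (gc R R₂ w) := by
    have e1 : ∀ x : E d, ∫ s in (0 : ℝ)..τ, ‖gc R R₂ w (Real.exp (-s) • x)‖ ^ 2 =
        ∫ s, ‖gc R R₂ w (Real.exp (-s) • x)‖ ^ 2 ∂ν := by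
      intro x
      rw [intervalIntegral.integral_of_le hτ0.le, hν]
    simp_rw [e1]
    rw [← hsw, intervalIntegral.integral_of_le hτ0.le, hν]
    congr 1
    funext s
    exact N2_scale _ (Real.exp_pos _)
  have h3 : ∫ s in (0 : ℝ)..τ, (Real.exp (-s) ^ d)⁻¹ * N2 (gc R R₂ w) ≤
      ∫ _s in (0 : ℝ)..τ, Real.exp 1 * N2 (gc R R₂ w) := by
    have e3 : Continuous fun s : ℝ => (Real.exp (-s) ^ d)⁻¹ * N2 (gc R R₂ w) := by
      refine Continuous.mul (Continuous.inv₀ (by fun_prop) fun s => by positivity) continuous_const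
    refine intervalIntegral.integral_mono_on hτ0.le (e3.intervalIntegrable _ _) (by simp)
      fun s hs => ?_
    refine mul_le_mul_of_nonneg_right ?_ (N2_nonneg _)
    rw [← Real.exp_nat_mul, ← Real.exp_neg]
    apply Real.exp_le_exp.2
    have := mul_le_mul_of_nonneg_left hs.2 hdR.le
    rw [hτ] at this
    have e4 : (d : ℝ) * (1 / d) = 1 := by field_simp
    linarith
  rw [intervalIntegral.integral_const, smul_eq_mul, sub_zero] at h3
  rw [h2] at h1
  refine h1.trans ((mul_le_mul_of_nonneg_left h3 hdR.le).trans (le_of_eq ?_))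
  rw [hτ]
  field_simp

end Pool.Agent.Y509.LS
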