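import Mathlib
import Pool.Agent.Y509.LS.K8

/-!
Y509/LS (helper509, MP_dbfdb2_gt): the form of the averaged kernel.
-/

set_option autoImplicit false

open MeasureTheory FourierTransform Metric

open scoped RealInnerProductSpace ENNReal

namespace Pool.Agent.Y509.LS

variable {d : ℕ} {R : ℝ} {a b k m w z r : E d → ℂ}

/-- the spectral density of two functions -/
noncomputable def PP (a b : E d → ℂ) (ξ : E d) : ℂ := (starRingEnd ℂ) (𝓕 a ξ) * 𝓕 b ξ

lemma PP_int (ha : Bs a) (hb : Bs b) : Integrable (PP a b) := by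
  have h1 := memLp_fourier ha.integrable ha.memLp
  have h2 := memLp_fourier hb.integrable hb.memLp
  have h3 : Integrable (fun ξ => ‖𝓕 a ξ‖ * ‖𝓕 b ξ‖) := h1.norm.integrable_mul h2.norm
  refine h3.mono' ?_ (Filter.Eventually.of_forall fun ξ => ?_)
  · exact ((Complex.continuous_conj.comp (fourier_cont ha.integrable)).mul
      (fourier_cont hb.integrable)).aestronglyMeasurable
  · unfold PP
    rw [norm_mul, RCLike.norm_conj]

lemma PP_norm (ha : Bs a) (hb : Bs b) : ∫ ξ, ‖PP a b ξ‖ ≤ √(N2 a) * √(N2 b) := by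
  have h1 := cs_int (memLp_fourier ha.integrable ha.memLp) (memLp_fourier hb.integrable hb.memLp)
  rw [N2_fourier ha.integrable ha.memLp, N2_fourier hb.integrable hb.memLp] at h1
  refine le_trans (le_of_eq ?_) h1
  congr 1
  funext ξ
  unfold PP
  rw [norm_mul, RCLike.norm_conj]

lemma int3 {α : Type*} [MeasurableSpace α] {μ : Measure α} {f g h : α → ℂ} (hf : Integrable f μ)
    (hg : Integrable g μ) (hh : Integrable h μ) :
    -(∫ x, f x ∂μ) + (∫ x, g x ∂μ) - ∫ x, h x ∂μ = ∫ x, (-f x + g x - h x) ∂μ := by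
  have e1 : ∫ x, (-f x + g x - h x) ∂μ = (∫ x, (-f x + g x) ∂μ) - ∫ x, h x ∂μ :=
    integral_sub (hf.neg.add hg) hh
  have e2 : ∫ x, (-f x + g x) ∂μ = (∫ x, -f x ∂μ) + ∫ x, g x ∂μ := integral_add hf.neg hg
  rw [e1, e2, integral_neg]

lemma bs_scale {c : ℝ} (hc : 0 < c) (hk : Bs k) : Bs (fun x => k (c • x)) := by
  obtain ⟨C, hC⟩ := hk.bdd
  obtain ⟨B, hB⟩ := hk.supp
  refine ⟨hk.meas.comp (measurable_const_smul c), ⟨C, fun x => hC _⟩, ⟨c⁻¹ * B, fun x hx => hB _ ?_⟩⟩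
  rw [norm_smul, Real.norm_eq_abs, abs_of_pos hc]
  have := mul_lt_mul_of_pos_left hx hc
  rwa [mul_inv_cancel_left₀ hc.ne'] at this

/-- the form of a dilate of the kernel -/
lemma form_gs (ha : Bs a) (hb : Bs b) {R₂ : ℝ} (hz : Adm R z) (hr : Adm R r)
    (hw : w = Qr R z) (hgc : ∀ x, gc R R₂ w x = -z x + w x - r x) (s : ℝ) :
    Form a b (fun x => gc R R₂ w (Real.exp (-s) • x)) =
      ∫ ξ, -(((Real.exp (s * d) : ℝ) : ℂ) * (HH R z (Real.exp s • ξ) + 𝓕 r (Real.exp s • ξ))) *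
        PP a b ξ := by
  obtain ⟨mm, hmm⟩ : ∃ mm : E d → ℂ, mm = Pr R (𝓕 z) := ⟨_, rfl⟩
  have hmA : Adm R mm := by rw [hmm]; exact adm_Pr_fourier hz.integrable hz.rad
  have he : ((Real.exp (-s) ^ d)⁻¹ : ℝ) = Real.exp (s * d) := by
    rw [← Real.exp_nat_mul, ← Real.exp_neg]
    congr 1
    ring
  have he' : (Real.exp (-s))⁻¹ = Real.exp s := by rw [Real.exp_neg, inv_inv]
  have hF : ∀ (f : E d → ℂ) (ξ : E d), 𝓕 (fun x => f (Real.exp (-s) • x)) ξ =
      ((Real.exp (s * d) : ℝ) : ℂ) * 𝓕 f (Real.exp s • ξ) := by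
    intro f ξ
    rw [fourier_scale f (Real.exp_pos _), he, he']
  obtain ⟨ms, hms⟩ : ∃ ms : E d → ℂ, ms = fun ξ => ((Real.exp (s * d) : ℝ) : ℂ) *
    mm (Real.exp s • ξ) := ⟨_, rfl⟩
  have hmsB : Bs ms := by
    have h1 := bs_scale (Real.exp_pos s) hmA.bs
    obtain ⟨C, hC⟩ := h1.bdd
    obtain ⟨B, hB⟩ := h1.supp
    rw [hms]
    refine ⟨measurable_const.mul h1.meas, ⟨‖((Real.exp (s * d) : ℝ) : ℂ)‖ * C, fun x => ?_⟩,
      ⟨B, fun x hx => ?_⟩⟩
    · rw [norm_mul]
      exact mul_le_mul_of_nonneg_left (hC x) (norm_nonneg _)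
    · rw [hB x hx, mul_zero]
  have hws : (fun x => w (Real.exp (-s) • x)) = 𝓕 ms := by
    funext x
    rw [hw, hms]
    have h1 : 𝓕 (fun ξ => ((Real.exp (s * d) : ℝ) : ℂ) * mm (Real.exp s • ξ)) x =
        ((Real.exp (s * d) : ℝ) : ℂ) * 𝓕 (fun ξ => mm (Real.exp s • ξ)) x := by
      rw [Real.fourier_eq', Real.fourier_eq', ← integral_const_mul]
      congr 1
      funext v
      simp only [smul_eq_mul]
      ring
    rw [h1, fourier_scale mm (Real.exp_pos s), ← mul_assoc, ← Real.exp_neg]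
    have h2 : ((Real.exp (s * d) : ℝ) : ℂ) * (((Real.exp s ^ d)⁻¹ : ℝ) : ℂ) = 1 := by
      rw [← Complex.ofReal_mul]
      have : Real.exp (s * d) * (Real.exp s ^ d)⁻¹ = 1 := by
        rw [← Real.exp_nat_mul, mul_comm (d : ℝ) s]
        exact mul_inv_cancel₀ (Real.exp_pos _).ne'
      rw [this, Complex.ofReal_one]
    rw [h2, one_mul, hmm]
    rfl
  have hzB := bs_scale (Real.exp_pos (-s)) hz.bs
  have hrB := bs_scale (Real.exp_pos (-s)) hr.bs
  have hmsr : ∀ ξ, ms (-ξ) = ms ξ := by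
    intro ξ
    rw [hms]
    simp only
    congr 1
    apply hmA.rad
    rw [smul_neg, norm_neg]
  obtain ⟨C1, hC1⟩ := hzB.bdd
  obtain ⟨C3, hC3⟩ := hrB.bdd
  have i1 := form_int ha hb hzB.meas hC1
  have i2 := form_int ha hb (fourier_cont hmsB.integrable).measurable (fourier_bound ms)
  have i3 := form_int ha hb hrB.meas hC3
  have h1 : Form a b (fun x => gc R R₂ w (Real.exp (-s) • x)) =
      -Form a b (fun x => z (Real.exp (-s) • x)) + Form a b (𝓕 ms) -
        Form a b (fun x => r (Real.exp (-s) • x)) := by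
    unfold Form
    rw [int3 i1 i2 i3]
    congr 1
    funext p
    rw [← hws]
    simp only
    rw [hgc]
    ring
  rw [h1, form_L1 ha hb hzB, form_F ha hb hmsB.integrable hmsr, form_L1 ha hb hrB]
  have hP := PP_int ha hb
  have j1 : Integrable (fun ξ => 𝓕 (fun x => z (Real.exp (-s) • x)) ξ * PP a b ξ) :=
    hP.bdd_mul (fourier_cont hzB.integrable).aestronglyMeasurable
      (Filter.Eventually.of_forall (fourier_bound _))
  have j2 : Integrable (fun ξ => ms ξ * PP a b ξ) := by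
    obtain ⟨C, hC⟩ := hmsB.bdd
    exact hP.bdd_mul hmsB.meas.aestronglyMeasurable (Filter.Eventually.of_forall hC)
  have j3 : Integrable (fun ξ => 𝓕 (fun x => r (Real.exp (-s) • x)) ξ * PP a b ξ) :=
    hP.bdd_mul (fourier_cont hrB.integrable).aestronglyMeasurable
      (Filter.Eventually.of_forall (fourier_bound _))
  have e1 : ∀ K : E d → ℂ, (fun ξ => (starRingEnd ℂ) (𝓕 a ξ) * (K ξ * 𝓕 b ξ)) =
      fun ξ => K ξ * PP a b ξ := by
    intro K
    funext ξ
    unfold PP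
    ring
  rw [e1, e1, e1, int3 j1 j2 j3]
  congr 1
  funext ξ
  rw [hF, hF, hms]
  simp only
  have h5 : HH R z (Real.exp s • ξ) = 𝓕 z (Real.exp s • ξ) - mm (Real.exp s • ξ) := by
    unfold HH
    by_cases h : ‖Real.exp s • ξ‖ ≤ R
    · rw [if_pos h, hmm, Pr_mem h, sub_self]
    · rw [if_neg h, hmm, Pr_notMem (not_le.1 h), sub_zero]
  rw [h5]
  ring

/-- the form of the averaged kernel -/
theorem form_ga (hd : 0 < d) (hR : 0 < R) (ha : Bs a) (hb : Bs b) (hz : Adm R z) (hr : Adm R r)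
    (hw : w = Qr R z)
    (hgc : ∀ x, gc R (R * Real.exp (-(1 / d))) w x = -z x + w x - r x)
    (hN : N2 z ≤ 4 * ((R * Real.exp (-(1 / d))) ^ d * V1 d)) :
    ‖Form a b (ga R w)‖ ≤ (4 + Real.exp 1 * ∫ x, ‖r x‖) * (√(N2 a) * √(N2 b)) := by
  have hdR : (0 : ℝ) < d := by exact_mod_cast hd
  obtain ⟨τ, hτ⟩ : ∃ τ : ℝ, τ = 1 / d := ⟨_, rfl⟩
  have hτ0 : 0 < τ := by rw [hτ]; positivity
  have hτd : (d : ℝ) * τ = 1 := by rw [hτ]; field_simp
  obtain ⟨R₂, hR₂⟩ : ∃ R₂ : ℝ, R₂ = R * Real.exp (-τ) := ⟨_, rfl⟩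
  have hwm : Measurable w := by rw [hw]; exact (Qr_cont hz).measurable
  have hwb : ∃ C, ∀ x, ‖w x‖ ≤ C := by rw [hw]; exact Qr_bdd R z
  rw [← hτ, ← hR₂] at hgc
  obtain ⟨C, hC0, hC⟩ := gc_bdd (R := R) (R₂ := R₂) hwb
  obtain ⟨ν, hν⟩ : ∃ ν : Measure ℝ, ν = volume.restrict (Set.Ioc 0 τ) := ⟨_, rfl⟩
  have hνf : IsFiniteMeasure ν := by
    rw [hν]
    exact ⟨by simp⟩
  have hga : ∀ x, ga R w x = (d : ℂ) * ∫ s, gc R R₂ w (Real.exp (-s) • x) ∂ν := by
    intro x
    unfold ga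
    rw [← hτ, ← hR₂, intervalIntegral.integral_of_le hτ0.le, hν]
  -- the first exchange
  have hGm : Measurable (fun p : ℝ × (E d × E d) => gc R R₂ w (Real.exp (-p.1) •
      (p.2.1 - p.2.2))) :=
    (gc_meas (R := R) (R₂ := R₂) hwm).comp (by fun_prop)
  have hF1 : Integrable (fun p : ℝ × (E d × E d) => (starRingEnd ℂ) (a p.2.1) *
      (gc R R₂ w (Real.exp (-p.1) • (p.2.1 - p.2.2)) * b p.2.2))
      (ν.prod ((volume : Measure (E d)).prod volume)) := by
    have e1 : Integrable (fun p : ℝ × (E d × E d) => C * (‖a p.2.1‖ * ‖b p.2.2‖))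
        (ν.prod ((volume : Measure (E d)).prod volume)) := by
      have := (integrable_const (1 : ℝ) (μ := ν)).mul_prod
        (ha.integrable.norm.mul_prod hb.integrable.norm)
      refine (this.const_mul C).congr (Filter.Eventually.of_forall fun p => ?_)
      simp only
      ring
    refine e1.mono' ?_ (Filter.Eventually.of_forall fun p => ?_)
    · have h1 : Measurable (fun p : ℝ × (E d × E d) => (starRingEnd ℂ) (a p.2.1)) :=
        Complex.continuous_conj.measurable.comp (ha.meas.comp (by fun_prop))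
      have h2 : Measurable (fun p : ℝ × (E d × E d) => b p.2.2) := hb.meas.comp (by fun_prop)
      exact (h1.mul (hGm.mul h2)).aestronglyMeasurable
    · rw [norm_mul, norm_mul, RCLike.norm_conj]
      calc ‖a p.2.1‖ * (‖gc R R₂ w (Real.exp (-p.1) • (p.2.1 - p.2.2))‖ * ‖b p.2.2‖)
          ≤ ‖a p.2.1‖ * (C * ‖b p.2.2‖) := by
            gcongr
            exact hC _
        _ = _ := by ring
  have h1 : Form a b (ga R w) = (d : ℂ) * ∫ s, Form a b
      (fun x => gc R R₂ w (Real.exp (-s) • x)) ∂ν := by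
    unfold Form
    rw [integral_integral_swap (μ := ν) (ν := ((volume : Measure (E d)).prod volume))
      (f := fun (s : ℝ) (p : E d × E d) => (starRingEnd ℂ) (a p.1) *
      (gc R R₂ w (Real.exp (-s) • (p.1 - p.2)) * b p.2)) hF1, ← integral_const_mul]
    congr 1
    funext p
    rw [hga, integral_const_mul, integral_mul_const]
    ring
  have h2 : ∀ s, Form a b (fun x => gc R R₂ w (Real.exp (-s) • x)) =
      ∫ ξ, -(((Real.exp (s * d) : ℝ) : ℂ) * (HH R z (Real.exp s • ξ) + 𝓕 r (Real.exp s • ξ))) *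
        PP a b ξ := form_gs ha hb hz hr hw hgc
  simp_rw [h2] at h1
  -- the second exchange
  have hP := PP_int ha hb
  obtain ⟨C1, hC1⟩ : ∃ C1 : ℝ, C1 = (∫ x, ‖z x‖) + ∫ x, ‖r x‖ := ⟨_, rfl⟩
  have hC10 : 0 ≤ C1 := by
    rw [hC1]
    exact add_nonneg (integral_nonneg fun _ => norm_nonneg _)
      (integral_nonneg fun _ => norm_nonneg _)
  have hκm : Measurable (fun p : ℝ × E d => HH R z (Real.exp p.1 • p.2) +
      𝓕 r (Real.exp p.1 • p.2)) :=
    ((HH_meas (R := R) hz.integrable).comp (by fun_prop)).add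
      ((fourier_cont hr.integrable).measurable.comp (by fun_prop))
  have hκb : ∀ x : E d, ‖HH R z x + 𝓕 r x‖ ≤ C1 := by
    intro x
    rw [hC1]
    exact (norm_add_le _ _).trans (add_le_add (HH_bdd R z x) (fourier_bound r x))
  have hF2 : Integrable (fun p : ℝ × E d => -(((Real.exp (p.1 * d) : ℝ) : ℂ) *
      (HH R z (Real.exp p.1 • p.2) + 𝓕 r (Real.exp p.1 • p.2))) * PP a b p.2)
      (ν.prod volume) := by
    have e1 : Integrable (fun s : ℝ => Real.exp (s * d)) ν := by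
      rw [hν]
      exact (by fun_prop : Continuous fun s : ℝ => Real.exp (s * d)).integrableOn_Ioc
    refine ((e1.mul_prod hP.norm).const_mul C1).mono' ?_ (Filter.Eventually.of_forall fun p => ?_)
    · have e2 : Measurable (fun p : ℝ × E d => ((Real.exp (p.1 * d) : ℝ) : ℂ)) := by fun_prop
      have e3 : AEStronglyMeasurable (fun p : ℝ × E d => PP a b p.2) (ν.prod volume) :=
        hP.aestronglyMeasurable.comp_snd
      exact ((e2.mul hκm).neg.aestronglyMeasurable).mul e3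
    · rw [norm_mul, norm_neg, norm_mul, Complex.norm_real, Real.norm_eq_abs,
        abs_of_pos (Real.exp_pos _)]
      calc Real.exp (p.1 * d) * ‖HH R z (Real.exp p.1 • p.2) + 𝓕 r (Real.exp p.1 • p.2)‖ *
            ‖PP a b p.2‖ ≤ Real.exp (p.1 * d) * C1 * ‖PP a b p.2‖ := by
            gcongr
            exact hκb _
        _ = _ := by ring
  rw [integral_integral_swap (μ := ν) (ν := (volume : Measure (E d)))
    (f := fun (s : ℝ) (ξ : E d) => -(((Real.exp (s * d) : ℝ) : ℂ) *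
      (HH R z (Real.exp s • ξ) + 𝓕 r (Real.exp s • ξ))) * PP a b ξ) hF2,
    ← integral_const_mul] at h1
  rw [h1]
  refine (norm_integral_le_integral_norm _).trans ?_
  have hr0 : 0 ≤ ∫ x, ‖r x‖ := integral_nonneg fun _ => norm_nonneg _
  have h3 : ∀ ξ, ‖(d : ℂ) * ∫ s, -(((Real.exp (s * d) : ℝ) : ℂ) *
      (HH R z (Real.exp s • ξ) + 𝓕 r (Real.exp s • ξ))) * PP a b ξ ∂ν‖ ≤
      (4 + Real.exp 1 * ∫ x, ‖r x‖) * ‖PP a b ξ‖ := by
    intro ξ
    rw [integral_mul_const, integral_neg, norm_mul, norm_mul, norm_neg, Complex.norm_natCast,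
      ← mul_assoc]
    refine mul_le_mul_of_nonneg_right ?_ (norm_nonneg _)
    have e1 : IntegrableOn (fun s : ℝ => Real.exp (s * d)) (Set.Ioc 0 τ) :=
      (by fun_prop : Continuous fun s : ℝ => Real.exp (s * d)).integrableOn_Ioc
    have i1 : Integrable (fun s : ℝ => ((Real.exp (s * d) : ℝ) : ℂ) * HH R z (Real.exp s • ξ))
        ν := by
      rw [hν]
      refine (e1.mul_const C1).mono' ?_ (Filter.Eventually.of_forall fun s => ?_)
      · have e2 : Measurable (fun s : ℝ => ((Real.exp (s * d) : ℝ) : ℂ)) := by fun_prop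
        exact (e2.mul ((HH_meas (R := R) hz.integrable).comp
          (by fun_prop : Measurable fun s : ℝ => Real.exp s • ξ))).aestronglyMeasurable
      · rw [norm_mul, Complex.norm_real, Real.norm_eq_abs, abs_of_pos (Real.exp_pos _)]
        refine mul_le_mul_of_nonneg_left ((HH_bdd _ _ _).trans ?_) (Real.exp_pos _).le
        rw [hC1]
        linarith
    have i2 : Integrable (fun s : ℝ => ((Real.exp (s * d) : ℝ) : ℂ) * 𝓕 r (Real.exp s • ξ))
        ν := by
      rw [hν]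
      have hc := fourier_cont hr.integrable
      exact (by fun_prop : Continuous fun s : ℝ => ((Real.exp (s * d) : ℝ) : ℂ) *
        𝓕 r (Real.exp s • ξ)).integrableOn_Ioc
    have e2 : ∫ s, ((Real.exp (s * d) : ℝ) : ℂ) *
        (HH R z (Real.exp s • ξ) + 𝓕 r (Real.exp s • ξ)) ∂ν =
        (∫ s, ((Real.exp (s * d) : ℝ) : ℂ) * HH R z (Real.exp s • ξ) ∂ν) +
        ∫ s, ((Real.exp (s * d) : ℝ) : ℂ) * 𝓕 r (Real.exp s • ξ) ∂ν := by
      rw [← integral_add i1 i2]
      congr 1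
      funext s
      ring
    have e3 : ‖∫ s, ((Real.exp (s * d) : ℝ) : ℂ) * HH R z (Real.exp s • ξ) ∂ν‖ ≤ 4 * τ := by
      have := freq_avg hd hR hz hN ξ
      rwa [← hτ, intervalIntegral.integral_of_le hτ0.le, ← hν] at this
    have e4 : ‖∫ s, ((Real.exp (s * d) : ℝ) : ℂ) * 𝓕 r (Real.exp s • ξ) ∂ν‖ ≤
        (Real.exp 1 * ∫ x, ‖r x‖) * τ := by
      have h5 := norm_setIntegral_le_of_norm_le_const (μ := (volume : Measure ℝ))
        (s := Set.Ioc (0 : ℝ) τ) (f := fun s : ℝ => ((Real.exp (s * d) : ℝ) : ℂ) *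
        𝓕 r (Real.exp s • ξ)) (C := Real.exp 1 * ∫ x, ‖r x‖) (by simp) ?_
      · rw [hν]
        refine h5.trans (le_of_eq ?_)
        rw [measureReal_def, Real.volume_Ioc, sub_zero, ENNReal.toReal_ofReal hτ0.le]
      · intro s hs
        rw [norm_mul, Complex.norm_real, Real.norm_eq_abs, abs_of_pos (Real.exp_pos _)]
        refine mul_le_mul ?_ (fourier_bound r _) (norm_nonneg _) (Real.exp_pos _).le
        apply Real.exp_le_exp.2
        have := mul_le_mul_of_nonneg_right hs.2 hdR.le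
        linarith
    rw [e2]
    calc (d : ℝ) * ‖(∫ s, ((Real.exp (s * d) : ℝ) : ℂ) * HH R z (Real.exp s • ξ) ∂ν) +
        ∫ s, ((Real.exp (s * d) : ℝ) : ℂ) * 𝓕 r (Real.exp s • ξ) ∂ν‖
        ≤ d * (4 * τ + (Real.exp 1 * ∫ x, ‖r x‖) * τ) :=
          mul_le_mul_of_nonneg_left ((norm_add_le _ _).trans (add_le_add e3 e4)) hdR.le
      _ = (4 + Real.exp 1 * ∫ x, ‖r x‖) * (d * τ) := by ring
      _ = _ := by rw [hτd, mul_one]
  calc _ ≤ ∫ ξ, (4 + Real.exp 1 * ∫ x, ‖r x‖) * ‖PP a b ξ‖ :=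
        integral_mono_of_nonneg (Filter.Eventually.of_forall fun _ => norm_nonneg _)
          (hP.norm.const_mul _) (Filter.Eventually.of_forall h3)
    _ = (4 + Real.exp 1 * ∫ x, ‖r x‖) * ∫ ξ, ‖PP a b ξ‖ := integral_const_mul _ _
    _ ≤ _ := mul_le_mul_of_nonneg_left (PP_norm ha hb) (by positivity)

end Pool.Agent.Y509.LS
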