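import Mathlib
import Pool.Agent.Y509.LS.K9

/-!
Y509/LS (helper509, MP_dbfdb2_gt): the kernel.
-/

set_option autoImplicit false

open MeasureTheory FourierTransform Metric

open scoped RealInnerProductSpace ENNReal

namespace Pool.Agent.Y509.LS

variable {d : ℕ}

/-- good kernels with core radius `r` and constant `K` -/
structure GK (d : ℕ) (r K : ℝ) (g : E d → ℝ) : Prop where
  meas : Measurable g
  rad : Rad g
  core : ∀ x, ‖x‖ ≤ r → g x = -1
  low : ∀ x, -1 ≤ g x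
  up : ∀ x, 1 + g x ≤ K
  int : Integrable fun x => g x ^ 2
  sq : ∫ x, g x ^ 2 ≤ 17 * (r ^ d * V1 d)
  form : ∀ a b : E d → ℝ, Measurable a → Measurable b → (∃ C, ∀ x, |a x| ≤ C) →
    (∃ C, ∀ x, |b x| ≤ C) → (∃ B, ∀ x, B < ‖x‖ → a x = 0) → (∃ B, ∀ x, B < ‖x‖ → b x = 0) →
    |∫ p : E d × E d, a p.1 * (g (p.1 - p.2) * b p.2) ∂(volume.prod volume)| ≤
      7 * (√(∫ x, a x ^ 2) * √(∫ x, b x ^ 2))

lemma log_low {a : ℝ} (ha : 0 < a) : a - a ^ 2 / 2 ≤ Real.log (1 + a) := by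
  have h1 := Real.le_log_one_add_of_nonneg ha.le
  have h2 : a - a ^ 2 / 2 ≤ 2 * a / (a + 2) := by
    rw [le_div_iff₀ (by linarith)]
    nlinarith [pow_pos ha 3]
  linarith

/-- the norm of the composition of the projections -/
lemma key2 (hd : 0 < d) {ε : ℝ} (hε : 0 < ε) (hε1 : ε ≤ 1 / 2) {f : E d → ℂ}
    (h : Adm (√(d / (4 * Real.pi)) * Real.exp (-ε)) f) :
    ∫ x in closedBall (0 : E d) (√(d / (4 * Real.pi)) * Real.exp (-ε)), ‖𝓕 f x‖ ^ 2 ≤
      Real.exp (-(ε ^ 2 / 4 * d)) * N2 f := by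
  have hpi := Real.pi_pos
  have hdR : (0 : ℝ) < d := by exact_mod_cast hd
  obtain ⟨κ, hκ⟩ : ∃ κ : ℝ, κ = Real.exp (-(2 * ε)) := ⟨_, rfl⟩
  have hκ0 : 0 < κ := by rw [hκ]; exact Real.exp_pos _
  have hκ1 : κ ≤ 1 - ε := by
    have h1 := Real.exp_bound_div_one_sub_of_interval (x := 2 * ε)
    have h2 : Real.exp (-(2 * ε)) ≤ 1 / (1 + 2 * ε) := by
      rw [Real.exp_neg, ← one_div]
      apply one_div_le_one_div_of_le (by linarith)
      have := Real.add_one_le_exp (2 * ε)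
      linarith
    have h3 : 1 / (1 + 2 * ε) ≤ 1 - ε := by
      rw [div_le_iff₀ (by linarith)]
      nlinarith
    rw [hκ]
    exact h2.trans h3
  obtain ⟨a, ha⟩ : ∃ a : ℝ, a = 1 - κ := ⟨_, rfl⟩
  have ha0 : 0 < a := by rw [ha]; linarith
  have hR2 : (√(d / (4 * Real.pi)) * Real.exp (-ε)) ^ 2 = d / (4 * Real.pi) * κ := by
    rw [mul_pow, Real.sq_sqrt (by positivity), ← Real.exp_nat_mul, hκ]
    congr 2
    push_cast
    ring
  refine (key ha0 h).trans (mul_le_mul_of_nonneg_right (Real.exp_le_exp.2 ?_) (N2_nonneg f))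
  rw [hR2]
  have h1 : 2 * Real.pi * (d / (4 * Real.pi) * κ) * (a / √(1 + a)) = d / 2 * (κ * (a / √(1 + a))) := by
    field_simp
    ring
  rw [h1]
  have h2 : 1 ≤ √(1 + a) := by
    rw [Real.one_le_sqrt]
    linarith
  have h3 : a / √(1 + a) ≤ a := div_le_self ha0.le h2
  have h4 := log_low ha0
  have h5 : κ * (a / √(1 + a)) ≤ κ * a := mul_le_mul_of_nonneg_left h3 hκ0.le
  have h6 : κ * a - (a - a ^ 2 / 2) ≤ -(ε ^ 2 / 2) := by
    have e1 : κ = 1 - a := by rw [ha]; ring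
    have e2 : ε ≤ a := by linarith
    rw [e1]
    nlinarith
  have h7 : d / 2 * (κ * (a / √(1 + a))) - d / 2 * Real.log (1 + a) =
      d / 2 * (κ * (a / √(1 + a)) - Real.log (1 + a)) := by ring
  rw [h7]
  have h8 : κ * (a / √(1 + a)) - Real.log (1 + a) ≤ -(ε ^ 2 / 2) := by linarith
  have h9 := mul_le_mul_of_nonneg_left h8 (show (0 : ℝ) ≤ d / 2 by positivity)
  linarith

theorem kern (hd : 0 < d) {ε : ℝ} (hε : 0 < ε) (hε1 : ε ≤ 1 / 2)
    (hq4 : Real.exp (-(ε ^ 2 / 4 * d)) ≤ 1 / 4) :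
    ∃ g : E d → ℝ, GK d (√(d / (4 * Real.pi)) * Real.exp (-ε) * Real.exp (-(1 / d)))
      (1 + 2 * Real.exp (-(ε ^ 2 / 8 * d))) g := by
  have hpi := Real.pi_pos
  have hdR : (0 : ℝ) < d := by exact_mod_cast hd
  obtain ⟨R, hRdef⟩ : ∃ R : ℝ, R = √(d / (4 * Real.pi)) * Real.exp (-ε) := ⟨_, rfl⟩
  have hR : 0 < R := by rw [hRdef]; positivity
  obtain ⟨q, hq⟩ : ∃ q : ℝ, q = Real.exp (-(ε ^ 2 / 4 * d)) := ⟨_, rfl⟩
  have hq0 : 0 < q := by rw [hq]; exact Real.exp_pos _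
  rw [← hq] at hq4
  have hKI : ∀ f : E d → ℂ, Adm R f →
      ∫ x in closedBall (0 : E d) R, ‖𝓕 f x‖ ^ 2 ≤ q * N2 f := by
    intro f hf
    rw [hRdef] at hf ⊢
    rw [hq]
    exact key2 hd hε hε1 hf
  have hsq : √q = Real.exp (-(ε ^ 2 / 8 * d)) := by
    rw [Real.sqrt_eq_iff_mul_self_eq hq0.le (Real.exp_pos _).le, hq, ← Real.exp_add]
    congr 1
    ring
  rw [← hRdef, ← hsq]
  obtain ⟨R₂, hR₂⟩ : ∃ R₂ : ℝ, R₂ = R * Real.exp (-(1 / d)) := ⟨_, rfl⟩
  rw [← hR₂]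
  have hR₂0 : 0 < R₂ := by rw [hR₂]; positivity
  have hRR : R₂ ≤ R := by
    have : Real.exp (-(1 / (d : ℝ))) ≤ 1 := Real.exp_le_one_iff.2 (by
      have : 0 < 1 / (d : ℝ) := by positivity
      linarith)
    rw [hR₂]
    nlinarith
  have hV := V1_pos d
  have hpow : R₂ ^ d = R ^ d * Real.exp (-1) := by
    rw [hR₂, mul_pow, ← Real.exp_nat_mul]
    congr 2
    field_simp
  have hRd : 0 < R ^ d := by positivity
  -- the number of steps
  obtain ⟨N, hN⟩ : ∃ N : ℕ, q ^ N < 1 / (R ^ d * V1 d) :=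
    exists_pow_lt_of_lt_one (by positivity) (by linarith)
  obtain ⟨z, r, hz, hr, hz2, hr2, hzr⟩ := neumann (d := d) hRR hq0.le (by linarith) hKI N
  rw [vol_cb hR₂0.le] at hz2 hr2
  obtain ⟨w, hw⟩ : ∃ w : E d → ℂ, w = Qr R z := ⟨_, rfl⟩
  have hwc : Continuous w := by rw [hw]; exact Qr_cont hz
  have hwr : Rad w := by rw [hw]; exact Qr_rad hz
  have hwb : ∃ C, ∀ x, ‖w x‖ ≤ C := by rw [hw]; exact Qr_bdd R z
  have hwm : MemLp w 2 := by rw [hw]; exact memLp_Qr hz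
  have hN2w : N2 w ≤ q * (4 * (R ^ d * V1 d)) := by
    rw [hw, N2_Qr hz]
    refine (hKI z hz).trans (mul_le_mul_of_nonneg_left (hz2.trans ?_) hq0.le)
    have : R₂ ^ d ≤ R ^ d := pow_le_pow_left₀ hR₂0.le hRR d
    nlinarith
  have hgc : ∀ x, gc R R₂ w x = -z x + w x - r x := by
    intro x
    unfold gc
    by_cases h : ‖x‖ ≤ R
    · rw [if_pos h]
      have := hzr x h
      rw [hw]
      linear_combination this
    · rw [if_neg h, hz.supp x (not_le.1 h), hr.supp x (not_le.1 h)]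
      ring
  have hr1 : ∫ x, ‖r x‖ ≤ 1 := by
    have h1 := cs_int hr.memLp (ind_adm (d := d) (le_refl R)).memLp
    have h2 : ∀ x, ‖r x‖ * ‖ind d R x‖ = ‖r x‖ := by
      intro x
      by_cases h : ‖x‖ ≤ R
      · rw [ind_mem h, norm_one, mul_one]
      · rw [hr.supp x (not_le.1 h), norm_zero, zero_mul]
    simp_rw [h2] at h1
    rw [N2_ind, vol_cb hR.le] at h1
    refine h1.trans ?_
    rw [← Real.sqrt_mul (N2_nonneg r), Real.sqrt_le_one]
    have h3 : R₂ ^ d ≤ R ^ d := pow_le_pow_left₀ hR₂0.le hRR d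
    have h4 : q ^ N * (R ^ d * V1 d) ≤ 1 := by
      have := (lt_div_iff₀ (by positivity : 0 < R ^ d * V1 d)).1 hN
      exact this.le
    have h5 : q ^ (N + 1) ≤ q ^ N := pow_le_pow_of_le_one hq0.le (by linarith) (Nat.le_succ N)
    have h6 : q ^ (N + 1) * (R ^ d * V1 d) ≤ 1 :=
      (mul_le_mul_of_nonneg_right h5 (by positivity)).trans h4
    calc N2 r * (R ^ d * V1 d) ≤ (q ^ 2) ^ (N + 1) * (R ^ d * V1 d) * (R ^ d * V1 d) := by
          refine mul_le_mul_of_nonneg_right (hr2.trans ?_) (by positivity)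
          gcongr
      _ = (q ^ (N + 1) * (R ^ d * V1 d)) ^ 2 := by ring
      _ ≤ 1 := pow_le_one₀ (by positivity) h6
  have hsq1 : √q ≤ 1 / 2 := by
    rw [Real.sqrt_le_left (by norm_num)]
    linarith
  have hsq0 : 0 < √q := Real.sqrt_pos.2 hq0
  have hgm := ga_meas (R := R) hwc.measurable
  obtain ⟨hgi, hg2⟩ := N2_ga hd hR hwc.measurable hwb hwm
  have hpt : ∀ x, (ga R w x).re ^ 2 ≤ ‖ga R w x‖ ^ 2 := by
    intro x
    rw [← sq_abs]
    exact pow_le_pow_left₀ (abs_nonneg _) (Complex.abs_re_le_norm _) 2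
  have hrem : Measurable (fun x => (ga R w x).re) := Complex.measurable_re.comp hgm
  have hi2 : Integrable (fun x => (ga R w x).re ^ 2) := by
    refine hgi.mono' (hrem.pow_const 2).aestronglyMeasurable (Filter.Eventually.of_forall fun x => ?_)
    rw [Real.norm_eq_abs, abs_of_nonneg (sq_nonneg _)]
    exact hpt x
  have hbd : ∀ x, -1 ≤ (ga R w x).re ∧ (ga R w x).re ≤ 2 * √q := by
    intro x
    by_cases h : ‖x‖ ≤ R
    · obtain ⟨h1, h2⟩ := ga_mid hd hwc.measurable hwb h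
      exact ⟨h1, h2.trans (by positivity)⟩
    · have h1 := ga_out hd hR hq0 hwc hwr hwb hwm hN2w (not_le.1 h)
      have h2 := abs_le.1 ((Complex.abs_re_le_norm _).trans h1)
      exact ⟨by linarith [h2.1], h2.2⟩
  refine ⟨fun x => (ga R w x).re, hrem, fun x y hxy => ?_, fun x hx => ?_, fun x => (hbd x).1,
    fun x => by linarith [(hbd x).2], hi2, ?_, ?_⟩
  · rw [ga_rad hwr x y hxy]
  · rw [hR₂] at hx
    rw [ga_core hd hR hx]
    simp
  · have h1 : ∫ x, (ga R w x).re ^ 2 ≤ N2 (ga R w) := integral_mono hi2 hgi hpt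
    have h2 := N2_gc hRR hwc.measurable hwm
    rw [vol_cb hR₂0.le] at h2
    rw [← hR₂] at hg2
    have h3 : N2 (ga R w) ≤ Real.exp 1 * (R₂ ^ d * V1 d + R ^ d * V1 d) := by
      refine hg2.trans (mul_le_mul_of_nonneg_left (h2.trans ?_) (Real.exp_pos _).le)
      have : q * (4 * (R ^ d * V1 d)) ≤ R ^ d * V1 d := by
        have h5 : 0 < R ^ d * V1 d := by positivity
        nlinarith
      linarith
    have h4 : R ^ d = Real.exp 1 * R₂ ^ d := by
      rw [hpow, Real.exp_neg]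
      field_simp
    have h5 : 0 < R₂ ^ d * V1 d := by positivity
    have h6 := exp_one_bound
    have h7 : Real.exp 1 * (R₂ ^ d * V1 d + R ^ d * V1 d) =
        (Real.exp 1 + Real.exp 1 ^ 2) * (R₂ ^ d * V1 d) := by
      rw [h4]
      ring
    rw [h7] at h3
    refine h1.trans (h3.trans (mul_le_mul_of_nonneg_right ?_ h5.le))
    have h8 := Real.exp_pos 1
    nlinarith
  · intro a b ham hbm haC hbC haB hbB
    have hA : Bs (fun x => (a x : ℂ)) := by
      obtain ⟨C, hC⟩ := haC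
      obtain ⟨B, hB⟩ := haB
      refine ⟨Complex.measurable_ofReal.comp ham, ⟨C, fun x => ?_⟩, ⟨B, fun x hx => ?_⟩⟩
      · rw [Complex.norm_real]
        exact hC x
      · rw [hB x hx, Complex.ofReal_zero]
    have hB' : Bs (fun x => (b x : ℂ)) := by
      obtain ⟨C, hC⟩ := hbC
      obtain ⟨B, hB⟩ := hbB
      refine ⟨Complex.measurable_ofReal.comp hbm, ⟨C, fun x => ?_⟩, ⟨B, fun x hx => ?_⟩⟩
      · rw [Complex.norm_real]
        exact hC x
      · rw [hB x hx, Complex.ofReal_zero]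
    have h1 := form_ga hd hR hA hB' hz hr hw (by rw [← hR₂]; exact hgc) (by rw [← hR₂]; exact hz2)
    obtain ⟨C, hC⟩ : ∃ C, ∀ x, ‖ga R w x‖ ≤ C := by
      obtain ⟨C, hC0, hC⟩ := gc_bdd (R := R) (R₂ := R * Real.exp (-(1 / d))) hwb
      refine ⟨C, fun x => ?_⟩
      unfold ga
      rw [norm_mul, Complex.norm_natCast]
      have h2 := intervalIntegral.norm_integral_le_of_norm_le_const (a := (0 : ℝ))
        (b := 1 / (d : ℝ)) (f := fun s => gc R (R * Real.exp (-(1 / d))) w (Real.exp (-s) • x))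
        (C := C) fun s _ => hC _
      rw [sub_zero, abs_of_pos (by positivity)] at h2
      calc (d : ℝ) * ‖∫ s in (0 : ℝ)..(1 / d), gc R (R * Real.exp (-(1 / d))) w
            (Real.exp (-s) • x)‖ ≤ d * (C * (1 / d)) := mul_le_mul_of_nonneg_left h2 hdR.le
        _ = C := by field_simp
    have h2 := form_int hA hB' hgm hC
    have h3 : (∫ p : E d × E d, a p.1 * ((ga R w (p.1 - p.2)).re * b p.2)
        ∂(volume.prod volume)) = (Form (fun x => (a x : ℂ)) (fun x => (b x : ℂ)) (ga R w)).re := by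
      unfold Form
      have h4 := integral_re h2
      have h5 : ∀ u : ℂ, RCLike.re u = u.re := fun u => rfl
      simp only [h5] at h4
      rw [← h4]
      congr 1
      funext p
      rw [Complex.conj_ofReal, Complex.re_ofReal_mul, mul_comm (ga R w (p.1 - p.2)),
        Complex.re_ofReal_mul]
      ring
    rw [h3]
    refine (Complex.abs_re_le_norm _).trans (h1.trans ?_)
    have h4 : ∀ c : E d → ℝ, N2 (fun x => (c x : ℂ)) = ∫ x, c x ^ 2 := by
      intro c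
      unfold N2
      congr 1
      funext x
      rw [Complex.norm_real, Real.norm_eq_abs, sq_abs]
    rw [h4, h4]
    refine mul_le_mul_of_nonneg_right ?_ (by positivity)
    have h5 := exp_one_bound
    have h6 := Real.exp_pos 1
    nlinarith

end Pool.Agent.Y509.LS
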