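import Mathlib
import Pool.Agent.Y509.LS.K10
import Pool.Agent.Y570.LS.Step

/-!
Y509/LS (helper509, MP_dbfdb2_gt): scaling and discretization of the kernel.
-/

set_option autoImplicit false

open MeasureTheory FourierTransform Metric

open scoped RealInnerProductSpace ENNReal

namespace Pool.Agent.Y509.LS

variable {d : ℕ}

/-- good kernels, after scaling -/
structure GS (d : ℕ) (r K L M : ℝ) (g : E d → ℝ) : Prop where
  meas : Measurable g
  even : ∀ x, g (-x) = g x
  core : ∀ x, ‖x‖ ≤ r → g x = -1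
  low : ∀ x, -1 ≤ g x
  up : ∀ x, 1 + g x ≤ K
  int : Integrable fun x => g x ^ 2
  sq : ∫ x, g x ^ 2 ≤ M
  form : ∀ a b : E d → ℝ, Measurable a → Measurable b → (∃ C, ∀ x, |a x| ≤ C) →
    (∃ C, ∀ x, |b x| ≤ C) → (∃ B, ∀ x, B < ‖x‖ → a x = 0) → (∃ B, ∀ x, B < ‖x‖ → b x = 0) →
    |∫ p : E d × E d, a p.1 * (g (p.1 - p.2) * b p.2) ∂(volume.prod volume)| ≤
      L * (√(∫ x, a x ^ 2) * √(∫ x, b x ^ 2))

lemma int_scale (f : E d → ℝ) {c : ℝ} (hc : 0 < c) :
    ∫ x, f (c • x) = (c ^ d)⁻¹ * ∫ x, f x := by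
  have h1 := Measure.integral_comp_smul (volume : Measure (E d)) f c
  rw [finrank_euclideanSpace_fin, abs_of_pos (by positivity)] at h1
  exact h1

lemma int_scale2 (f : E d × E d → ℝ) {c : ℝ} (hc : 0 < c) :
    ∫ p : E d × E d, f (c • p.1, c • p.2) ∂(volume.prod volume) =
      ((c ^ d)⁻¹) ^ 2 * ∫ p, f p ∂(volume.prod volume) := by
  have h1 := Measure.integral_comp_smul ((volume : Measure (E d)).prod volume) f c
  rw [Module.finrank_prod, finrank_euclideanSpace_fin, abs_of_pos (by positivity)] at h1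
  have h2 : ∀ p : E d × E d, c • p = (c • p.1, c • p.2) := fun p => rfl
  simp_rw [h2] at h1
  rw [h1, smul_eq_mul]
  congr 1
  rw [← inv_pow, ← inv_pow, ← pow_mul]
  congr 1
  ring

/-- scaling of the kernels -/
theorem GK.scale {r K : ℝ} {g : E d → ℝ} (h : GK d r K g) {c : ℝ} (hc : 0 < c) :
    GS d (r / c) K (7 * (c ^ d)⁻¹) (17 * (r ^ d * V1 d) * (c ^ d)⁻¹) (fun x => g (c • x)) := by
  have hcd : 0 < c ^ d := by positivity
  refine ⟨h.meas.comp (measurable_const_smul c), fun x => ?_, fun x hx => ?_, fun x => h.low _,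
    fun x => h.up _, ?_, ?_, ?_⟩
  · rw [smul_neg]
    exact h.rad _ _ (norm_neg _)
  · apply h.core
    rw [norm_smul, Real.norm_eq_abs, abs_of_pos hc]
    rw [le_div_iff₀ hc] at hx
    linarith
  · exact (integrable_comp_smul_iff (volume : Measure (E d)) (fun v : E d => g v ^ 2) hc.ne').2 h.int
  · rw [int_scale (fun v : E d => g v ^ 2) hc, mul_comm]
    exact mul_le_mul_of_nonneg_right h.sq (by positivity)
  · intro a b ham hbm haC hbC haB hbB
    obtain ⟨C, hC⟩ := haC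
    obtain ⟨C', hC'⟩ := hbC
    obtain ⟨B, hB⟩ := haB
    obtain ⟨B', hB'⟩ := hbB
    have hci : 0 < c⁻¹ := inv_pos.2 hc
    have key := h.form (fun x => a (c⁻¹ • x)) (fun x => b (c⁻¹ • x))
      (ham.comp (measurable_const_smul _)) (hbm.comp (measurable_const_smul _))
      ⟨C, fun x => hC _⟩ ⟨C', fun x => hC' _⟩
      ⟨c * B, fun x hx => hB _ (by
        rw [norm_smul, Real.norm_eq_abs, abs_of_pos hci]
        rwa [inv_mul_eq_div, lt_div_iff₀ hc, mul_comm])⟩
      ⟨c * B', fun x hx => hB' _ (by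
        rw [norm_smul, Real.norm_eq_abs, abs_of_pos hci]
        rwa [inv_mul_eq_div, lt_div_iff₀ hc, mul_comm])⟩
    have e1 := int_scale2 (fun p : E d × E d => a (c⁻¹ • p.1) * (g (p.1 - p.2) * b (c⁻¹ • p.2))) hc
    have e2 : ∀ p : E d × E d, (fun p : E d × E d => a (c⁻¹ • p.1) *
        (g (p.1 - p.2) * b (c⁻¹ • p.2))) (c • p.1, c • p.2) =
        a p.1 * (g (c • (p.1 - p.2)) * b p.2) := by
      intro p
      simp only
      rw [inv_smul_smul₀ hc.ne', inv_smul_smul₀ hc.ne', smul_sub]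
    simp_rw [e2] at e1
    rw [e1, abs_mul, abs_of_pos (by positivity)]
    have e3 : ∀ f : E d → ℝ, ∫ x, f (c⁻¹ • x) ^ 2 = c ^ d * ∫ x, f x ^ 2 := by
      intro f
      rw [int_scale (fun x => f x ^ 2) hci, inv_pow, inv_inv]
    rw [e3, e3, Real.sqrt_mul hcd.le, Real.sqrt_mul hcd.le] at key
    have e4 := Real.mul_self_sqrt hcd.le
    calc ((c ^ d)⁻¹) ^ 2 * |∫ p : E d × E d, a (c⁻¹ • p.1) * (g (p.1 - p.2) * b (c⁻¹ • p.2))
          ∂(volume.prod volume)|
        ≤ ((c ^ d)⁻¹) ^ 2 * (7 * (√(c ^ d) * √(∫ x, a x ^ 2) * (√(c ^ d) * √(∫ x, b x ^ 2)))) :=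
          mul_le_mul_of_nonneg_left key (by positivity)
      _ = ((c ^ d)⁻¹) ^ 2 * (7 * ((√(c ^ d) * √(c ^ d)) * (√(∫ x, a x ^ 2) * √(∫ x, b x ^ 2)))) := by
          ring
      _ = _ := by
          rw [e4]
          field_simp

/-- the indicator function of a cell -/
noncomputable def ce (F : Set (E d)) (x : E d) (u : E d) : ℝ :=
  F.indicator (fun _ => (1 : ℝ)) (u - x)

/-- the discretized kernel -/
noncomputable def gX (F : Set (E d)) (g : E d → ℝ) (x y : E d) : ℝ :=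
  (volume.real F)⁻¹ ^ 2 *
    ∫ p : E d × E d, ce F x p.1 * (g (p.1 - p.2) * ce F y p.2) ∂(volume.prod volume)

variable {F : Set (E d)} {g : E d → ℝ} {r K L M δ : ℝ}

lemma ce_meas (hF : MeasurableSet F) (x : E d) : Measurable (ce F x) := by
  unfold ce
  exact (measurable_const.indicator hF).comp (measurable_id.sub_const x)

lemma ce_nonneg (F : Set (E d)) (x u : E d) : 0 ≤ ce F x u :=
  Set.indicator_nonneg (fun _ _ => zero_le_one) _

lemma ce_le (F : Set (E d)) (x u : E d) : ce F x u ≤ 1 := by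
  unfold ce
  by_cases h : u - x ∈ F
  · rw [Set.indicator_of_mem h]
  · rw [Set.indicator_of_notMem h]
    exact zero_le_one

lemma ce_mem {x u : E d} (h : ce F x u ≠ 0) : u - x ∈ F := by
  by_contra h1
  exact h (Set.indicator_of_notMem h1 _)

lemma ce_sq (F : Set (E d)) (x u : E d) : ce F x u ^ 2 = ce F x u := by
  unfold ce
  by_cases h : u - x ∈ F
  · rw [Set.indicator_of_mem h]
    norm_num
  · rw [Set.indicator_of_notMem h]
    norm_num

lemma ce_supp (hFδ : F ⊆ closedBall 0 δ) (x : E d) : ∃ B, ∀ u, B < ‖u‖ → ce F x u = 0 := by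
  refine ⟨δ + ‖x‖, fun u hu => ?_⟩
  by_contra h
  have h1 := hFδ (ce_mem h)
  rw [mem_closedBall_zero_iff] at h1
  have h2 : ‖u‖ ≤ ‖u - x‖ + ‖x‖ := by
    calc ‖u‖ = ‖(u - x) + x‖ := by rw [sub_add_cancel]
      _ ≤ _ := norm_add_le _ _
  linarith

lemma ce_int (hF : MeasurableSet F) (hFt : volume F ≠ ⊤) (x : E d) : Integrable (ce F x) := by
  have h1 : Integrable (F.indicator (fun _ => (1 : ℝ))) :=
    (integrable_indicator_iff hF).2 (integrableOn_const hFt)
  exact h1.comp_sub_right x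

lemma ce_integral (hF : MeasurableSet F) (x : E d) : ∫ u, ce F x u = volume.real F := by
  unfold ce
  rw [integral_sub_right_eq_self (fun u => F.indicator (fun _ => (1 : ℝ)) u) x,
    integral_indicator hF, setIntegral_const, smul_eq_mul, mul_one]

lemma ce_prod_int (hF : MeasurableSet F) (hFt : volume F ≠ ⊤) (x y : E d) {h : E d → ℝ}
    (hm : Measurable h) {C : ℝ} (hC : ∀ u, |h u| ≤ C) :
    Integrable (fun p : E d × E d => ce F x p.1 * (h (p.1 - p.2) * ce F y p.2))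
      (volume.prod volume) := by
  refine (((ce_int hF hFt x).mul_prod (ce_int hF hFt y)).const_mul C).mono' ?_
    (Filter.Eventually.of_forall fun p => ?_)
  · exact (((ce_meas hF x).comp measurable_fst).mul ((hm.comp (measurable_fst.sub
      measurable_snd)).mul ((ce_meas hF y).comp measurable_snd))).aestronglyMeasurable
  · rw [norm_mul, norm_mul, Real.norm_eq_abs, Real.norm_eq_abs, Real.norm_eq_abs,
      abs_of_nonneg (ce_nonneg F x _), abs_of_nonneg (ce_nonneg F y _)]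
    calc ce F x p.1 * (|h (p.1 - p.2)| * ce F y p.2) ≤ ce F x p.1 * (C * ce F y p.2) := by
          refine mul_le_mul_of_nonneg_left ?_ (ce_nonneg F x _)
          exact mul_le_mul_of_nonneg_right (hC _) (ce_nonneg F y _)
      _ = _ := by ring

lemma ce_prod (hF : MeasurableSet F) (x y : E d) (c : ℝ) :
    ∫ p : E d × E d, ce F x p.1 * (c * ce F y p.2) ∂(volume.prod volume) =
      c * volume.real F ^ 2 := by
  have h1 : ∀ p : E d × E d, ce F x p.1 * (c * ce F y p.2) = c * (ce F x p.1 * ce F y p.2) := by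
    intro p
    ring
  simp_rw [h1]
  rw [integral_const_mul, integral_prod_mul, ce_integral hF, ce_integral hF]
  ring

lemma g_bdd (h : GS d r K L M g) (x : E d) : |g x| ≤ max 1 K := by
  rw [abs_le]
  have h1 := h.low x
  have h2 := h.up x
  exact ⟨by linarith [le_max_left 1 K], by linarith [le_max_right 1 K]⟩

lemma gX_core (h : GS d r K L M g) (hF : MeasurableSet F) (hF0 : 0 < volume.real F)
    (hFδ : F ⊆ closedBall 0 δ) {x y : E d} (hxy : dist x y + 2 * δ ≤ r) : gX F g x y = -1 := by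
  have h1 : ∀ p : E d × E d, ce F x p.1 * (g (p.1 - p.2) * ce F y p.2) =
      ce F x p.1 * (-1 * ce F y p.2) := by
    intro p
    by_cases h2 : ce F x p.1 = 0
    · rw [h2]
      ring
    by_cases h3 : ce F y p.2 = 0
    · rw [h3]
      ring
    rw [h.core]
    have h4 := hFδ (ce_mem h2)
    have h5 := hFδ (ce_mem h3)
    rw [mem_closedBall_zero_iff] at h4 h5
    have h6 : p.1 - p.2 = (x - y) + ((p.1 - x) - (p.2 - y)) := by abel
    rw [h6]
    rw [dist_eq_norm] at hxy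
    have h7 := norm_add_le (x - y) ((p.1 - x) - (p.2 - y))
    have h8 := norm_sub_le (p.1 - x) (p.2 - y)
    linarith
  unfold gX
  simp_rw [h1]
  rw [ce_prod hF]
  field_simp

lemma gX_low (h : GS d r K L M g) (hF : MeasurableSet F) (hFt : volume F ≠ ⊤)
    (hF0 : 0 < volume.real F) (x y : E d) : -1 ≤ gX F g x y := by
  have h1 : ∫ p : E d × E d, ce F x p.1 * (-1 * ce F y p.2) ∂(volume.prod volume) ≤
      ∫ p : E d × E d, ce F x p.1 * (g (p.1 - p.2) * ce F y p.2) ∂(volume.prod volume) := by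
    refine integral_mono ?_ (ce_prod_int hF hFt x y h.meas (g_bdd h)) fun p => ?_
    · exact ce_prod_int hF hFt x y (h := fun _ => -1) measurable_const (C := 1) (by simp)
    · exact mul_le_mul_of_nonneg_left (mul_le_mul_of_nonneg_right (h.low _) (ce_nonneg _ _ _))
        (ce_nonneg _ _ _)
  rw [ce_prod hF] at h1
  unfold gX
  have h2 := mul_le_mul_of_nonneg_left h1 (show 0 ≤ (volume.real F)⁻¹ ^ 2 by positivity)
  refine le_trans (le_of_eq ?_) h2
  field_simp

lemma gX_up (h : GS d r K L M g) (hF : MeasurableSet F) (hFt : volume F ≠ ⊤)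
    (hF0 : 0 < volume.real F) (x y : E d) : 1 + gX F g x y ≤ K := by
  have h1 : ∫ p : E d × E d, ce F x p.1 * (g (p.1 - p.2) * ce F y p.2) ∂(volume.prod volume) ≤
      ∫ p : E d × E d, ce F x p.1 * ((K - 1) * ce F y p.2) ∂(volume.prod volume) := by
    refine integral_mono (ce_prod_int hF hFt x y h.meas (g_bdd h)) ?_ fun p => ?_
    · exact ce_prod_int hF hFt x y (h := fun _ => K - 1) measurable_const (C := |K - 1|)
        (fun _ => le_rfl)
    · exact mul_le_mul_of_nonneg_left (mul_le_mul_of_nonneg_right (by linarith [h.up (p.1 - p.2)])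
        (ce_nonneg _ _ _)) (ce_nonneg _ _ _)
  rw [ce_prod hF] at h1
  unfold gX
  have h2 := mul_le_mul_of_nonneg_left h1 (show 0 ≤ (volume.real F)⁻¹ ^ 2 by positivity)
  have h3 : (volume.real F)⁻¹ ^ 2 * ((K - 1) * volume.real F ^ 2) = K - 1 := by
    field_simp
  linarith

lemma gX_symm (h : GS d r K L M g) (x y : E d) : gX F g x y = gX F g y x := by
  unfold gX
  congr 1
  rw [← integral_prod_swap]
  congr 1
  funext p
  simp only [Prod.fst_swap, Prod.snd_swap]
  rw [← neg_sub p.1 p.2, h.even]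
  ring

lemma int3r {α : Type*} [MeasurableSpace α] {μ : Measure α} {f g h : α → ℝ} (c : ℝ)
    (hf : Integrable f μ) (hg : Integrable g μ) (hh : Integrable h μ) :
    ∫ x, (f x - c * g x + h x) ∂μ = (∫ x, f x ∂μ) - c * (∫ x, g x ∂μ) + ∫ x, h x ∂μ := by
  have e1 : ∫ x, (f x - c * g x + h x) ∂μ = (∫ x, (f x - c * g x) ∂μ) + ∫ x, h x ∂μ :=
    integral_add (hf.sub (hg.const_mul c)) hh
  have e2 : ∫ x, (f x - c * g x) ∂μ = (∫ x, f x ∂μ) - ∫ x, c * g x ∂μ :=
    integral_sub hf (hg.const_mul c)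
  rw [e1, e2, integral_const_mul]

/-- Jensen's inequality for a cell -/
lemma gX_sq (h : GS d r K L M g) (hF : MeasurableSet F) (hFt : volume F ≠ ⊤)
    (hF0 : 0 < volume.real F) (x y : E d) : gX F g x y ^ 2 ≤ (volume.real F)⁻¹ ^ 2 *
      ∫ p : E d × E d, ce F x p.1 * (g (p.1 - p.2) ^ 2 * ce F y p.2) ∂(volume.prod volume) := by
  obtain ⟨f, hf⟩ : ∃ f : ℝ, f = volume.real F := ⟨_, rfl⟩
  obtain ⟨I, hI⟩ : ∃ I : ℝ, I = ∫ p : E d × E d, ce F x p.1 * (g (p.1 - p.2) * ce F y p.2)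
    ∂(volume.prod volume) := ⟨_, rfl⟩
  obtain ⟨J, hJ⟩ : ∃ J : ℝ, J = ∫ p : E d × E d, ce F x p.1 * (g (p.1 - p.2) ^ 2 * ce F y p.2)
    ∂(volume.prod volume) := ⟨_, rfl⟩
  obtain ⟨m, hm⟩ : ∃ m : ℝ, m = I / f ^ 2 := ⟨_, rfl⟩
  have hf0 : 0 < f := by rw [hf]; exact hF0
  have i1 := ce_prod_int hF hFt x y h.meas (g_bdd h)
  have i2 : Integrable (fun p : E d × E d => ce F x p.1 * (g (p.1 - p.2) ^ 2 * ce F y p.2))
      (volume.prod volume) :=
    ce_prod_int hF hFt x y (h := fun u => g u ^ 2) (h.meas.pow_const 2) (C := (max 1 K) ^ 2)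
      (fun u => by
        rw [abs_pow]
        exact pow_le_pow_left₀ (abs_nonneg _) (g_bdd h u) 2)
  have i3 : Integrable (fun p : E d × E d => ce F x p.1 * (m ^ 2 * ce F y p.2))
      (volume.prod volume) :=
    ce_prod_int hF hFt x y (h := fun _ => m ^ 2) measurable_const (C := |m ^ 2|) (fun _ => le_rfl)
  have h1 : 0 ≤ ∫ p : E d × E d, ce F x p.1 * ((g (p.1 - p.2) - m) ^ 2 * ce F y p.2)
      ∂(volume.prod volume) :=
    integral_nonneg fun p => mul_nonneg (ce_nonneg _ _ _) (mul_nonneg (sq_nonneg _)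
      (ce_nonneg _ _ _))
  have h2 : ∫ p : E d × E d, ce F x p.1 * ((g (p.1 - p.2) - m) ^ 2 * ce F y p.2)
      ∂(volume.prod volume) = J - 2 * m * I + m ^ 2 * f ^ 2 := by
    have e1 : ∀ p : E d × E d, ce F x p.1 * ((g (p.1 - p.2) - m) ^ 2 * ce F y p.2) =
        ce F x p.1 * (g (p.1 - p.2) ^ 2 * ce F y p.2) -
        2 * m * (ce F x p.1 * (g (p.1 - p.2) * ce F y p.2)) +
        ce F x p.1 * (m ^ 2 * ce F y p.2) := by
      intro p
      ring
    simp_rw [e1]
    rw [int3r (2 * m) i2 i1 i3, ce_prod hF, ← hI, ← hJ, ← hf]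
  rw [h2] at h1
  unfold gX
  rw [← hI, ← hJ, ← hf]
  have h3 : J - 2 * m * I + m ^ 2 * f ^ 2 = J - I ^ 2 / f ^ 2 := by
    rw [hm]
    field_simp
    ring
  rw [h3] at h1
  have h4 : I ^ 2 / f ^ 2 ≤ J := by linarith
  calc (f⁻¹ ^ 2 * I) ^ 2 = f⁻¹ ^ 2 * (I ^ 2 / f ^ 2) := by
        field_simp
    _ ≤ _ := mul_le_mul_of_nonneg_left h4 (by positivity)

end Pool.Agent.Y509.LS
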