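import Mathlib
import Pool.Agent.Y509.LS.K11

/-!
Y509/LS (helper509, MP_dbfdb2_gt): the discretized kernel.
-/

set_option autoImplicit false

open MeasureTheory FourierTransform Metric

open scoped RealInnerProductSpace ENNReal

namespace Pool.Agent.Y509.LS

variable {d : ℕ} {F : Set (E d)} {g : E d → ℝ} {r K L M δ : ℝ}

/-- the cells are disjoint -/
def Dis (F : Set (E d)) (X : Finset (E d)) : Prop :=
  ∀ x ∈ X, ∀ y ∈ X, x ≠ y → ∀ a ∈ F, ∀ b ∈ F, x + a ≠ y + b

variable {X : Finset (E d)}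

lemma ce_dis (h : Dis F X) {x y : X} (hxy : x ≠ y) (u : E d) :
    ce F (x : E d) u * ce F (y : E d) u = 0 := by
  by_contra h1
  have h2 := ce_mem (left_ne_zero_of_mul h1)
  have h3 := ce_mem (right_ne_zero_of_mul h1)
  refine h x x.2 y y.2 (fun h4 => hxy (Subtype.ext h4)) _ h2 _ h3 ?_
  abel

lemma ce_sum (h : Dis F X) (u : E d) : ∑ x : X, ce F (x : E d) u ≤ 1 := by
  by_cases h1 : ∃ x : X, ce F (x : E d) u ≠ 0
  · obtain ⟨x, hx⟩ := h1
    rw [Finset.sum_eq_single_of_mem x (Finset.mem_univ x)]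
    · exact ce_le F _ u
    · intro y _ hy
      have := ce_dis h hy u
      rcases mul_eq_zero.1 this with h2 | h2
      · exact h2
      · exact absurd h2 hx
  · push Not at h1
    rw [Finset.sum_eq_zero fun x _ => h1 x]
    exact zero_le_one

lemma gX_row (h : GS d r K L M g) (hF : MeasurableSet F) (hFt : volume F ≠ ⊤)
    (hF0 : 0 < volume.real F) (hD : Dis F X) (x : E d) :
    ∑ y : X, gX F g x (y : E d) ^ 2 ≤ M / volume.real F := by
  obtain ⟨f, hf⟩ : ∃ f : ℝ, f = volume.real F := ⟨_, rfl⟩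
  have hf0 : 0 < f := by rw [hf]; exact hF0
  have hC : ∀ u, |g u ^ 2| ≤ (max 1 K) ^ 2 := fun u => by
    rw [abs_pow]
    exact pow_le_pow_left₀ (abs_nonneg _) (g_bdd h u) 2
  have i2 : ∀ y : E d, Integrable (fun p : E d × E d => ce F x p.1 *
      (g (p.1 - p.2) ^ 2 * ce F y p.2)) (volume.prod volume) := fun y =>
    ce_prod_int hF hFt x y (h := fun u => g u ^ 2) (h.meas.pow_const 2) hC
  have h1 : ∑ y : X, gX F g x (y : E d) ^ 2 ≤ f⁻¹ ^ 2 * ∑ y : X, ∫ p : E d × E d,
      ce F x p.1 * (g (p.1 - p.2) ^ 2 * ce F y p.2) ∂(volume.prod volume) := by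
    rw [Finset.mul_sum, hf]
    exact Finset.sum_le_sum fun y _ => gX_sq h hF hFt hF0 x y
  have h2 : ∑ y : X, ∫ p : E d × E d,
      ce F x p.1 * (g (p.1 - p.2) ^ 2 * ce F y p.2) ∂(volume.prod volume) =
      ∫ u, ce F x u * ∑ y : X, ∫ v, g (u - v) ^ 2 * ce F (y : E d) v := by
    have e1 : ∀ y : X, ∫ p : E d × E d,
        ce F x p.1 * (g (p.1 - p.2) ^ 2 * ce F y p.2) ∂(volume.prod volume) =
        ∫ u, ce F x u * ∫ v, g (u - v) ^ 2 * ce F (y : E d) v := by
      intro y
      rw [integral_prod _ (i2 y)]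
      congr 1
      funext u
      rw [← integral_const_mul]
    simp_rw [e1]
    rw [← integral_finsetSum]
    · congr 1
      funext u
      rw [Finset.mul_sum]
    · intro y _
      have := (i2 y).integral_prod_left
      refine this.congr (Filter.Eventually.of_forall fun u => ?_)
      simp only
      rw [← integral_const_mul]
  have h3 : ∀ u, ∑ y : X, ∫ v, g (u - v) ^ 2 * ce F (y : E d) v ≤ M := by
    intro u
    have hi : Integrable (fun v => g (u - v) ^ 2) := h.int.comp_sub_left u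
    have hi2 : ∀ y : X, Integrable (fun v => g (u - v) ^ 2 * ce F (y : E d) v) := by
      intro y
      refine hi.mono' (hi.aestronglyMeasurable.mul (ce_meas hF _).aestronglyMeasurable)
        (Filter.Eventually.of_forall fun v => ?_)
      rw [Real.norm_eq_abs, abs_of_nonneg (mul_nonneg (sq_nonneg _) (ce_nonneg _ _ _))]
      exact mul_le_of_le_one_right (sq_nonneg _) (ce_le _ _ _)
    rw [← integral_finsetSum _ fun y _ => hi2 y]
    calc ∫ v, ∑ y : X, g (u - v) ^ 2 * ce F (y : E d) v ≤ ∫ v, g (u - v) ^ 2 := by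
          refine integral_mono (integrable_finsetSum _ fun y _ => hi2 y) hi fun v => ?_
          simp only
          rw [← Finset.mul_sum]
          exact mul_le_of_le_one_right (sq_nonneg _) (ce_sum hD v)
      _ = ∫ v, g v ^ 2 := integral_sub_left_eq_self (fun v => g v ^ 2) volume u
      _ ≤ M := h.sq
  have h4 : ∫ u, ce F x u * ∑ y : X, ∫ v, g (u - v) ^ 2 * ce F (y : E d) v ≤ f * M := by
    calc ∫ u, ce F x u * ∑ y : X, ∫ v, g (u - v) ^ 2 * ce F (y : E d) v ≤
          ∫ u, ce F x u * M := by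
          refine integral_mono_of_nonneg (Filter.Eventually.of_forall fun u => ?_)
            ((ce_int hF hFt x).mul_const M) (Filter.Eventually.of_forall fun u =>
              mul_le_mul_of_nonneg_left (h3 u) (ce_nonneg _ _ _))
          exact mul_nonneg (ce_nonneg _ _ _) (Finset.sum_nonneg fun y _ =>
            integral_nonneg fun v => mul_nonneg (sq_nonneg _) (ce_nonneg _ _ _))
      _ = f * M := by rw [integral_mul_const, ce_integral hF, hf]
  rw [h2] at h1
  refine h1.trans ((mul_le_mul_of_nonneg_left h4 (by positivity)).trans (le_of_eq ?_))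
  rw [← hf]
  field_simp

/-- the step function of a vector -/
noncomputable def st (F : Set (E d)) (k : X → ℝ) (u : E d) : ℝ := ∑ x : X, k x * ce F (x : E d) u

lemma st_meas (hF : MeasurableSet F) (k : X → ℝ) : Measurable (st F k) :=
  Finset.measurable_fun_sum _ fun x _ => (ce_meas hF _).const_mul _

lemma st_sq (hD : Dis F X) (k : X → ℝ) (u : E d) :
    st F k u ^ 2 = ∑ x : X, k x ^ 2 * ce F (x : E d) u := by
  unfold st
  rw [sq, Finset.sum_mul_sum]
  refine Finset.sum_congr rfl fun x _ => ?_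
  rw [Finset.sum_eq_single_of_mem x (Finset.mem_univ x)]
  · have := ce_sq F (x : E d) u
    calc k x * ce F (x : E d) u * (k x * ce F (x : E d) u) =
        k x ^ 2 * ce F (x : E d) u ^ 2 := by ring
      _ = _ := by rw [this]
  · intro y _ hy
    have := ce_dis hD hy.symm u
    calc k x * ce F (x : E d) u * (k y * ce F (y : E d) u) =
        k x * k y * (ce F (x : E d) u * ce F (y : E d) u) := by ring
      _ = 0 := by rw [this, mul_zero]

lemma st_int (hF : MeasurableSet F) (hFt : volume F ≠ ⊤) (hD : Dis F X) (k : X → ℝ) :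
    ∫ u, st F k u ^ 2 = volume.real F * ∑ x : X, k x ^ 2 := by
  simp_rw [st_sq hD]
  rw [integral_finsetSum _ fun x _ => (ce_int hF hFt _).const_mul _, Finset.mul_sum]
  refine Finset.sum_congr rfl fun x _ => ?_
  rw [integral_const_mul, ce_integral hF]
  ring

lemma st_bdd (F : Set (E d)) (k : X → ℝ) : ∃ C, ∀ u, |st F k u| ≤ C := by
  refine ⟨∑ x : X, |k x|, fun u => ?_⟩
  unfold st
  refine (Finset.abs_sum_le_sum_abs _ _).trans (Finset.sum_le_sum fun x _ => ?_)
  rw [abs_mul, abs_of_nonneg (ce_nonneg _ _ _)]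
  exact mul_le_of_le_one_right (abs_nonneg _) (ce_le _ _ _)

lemma st_supp (hFδ : F ⊆ closedBall 0 δ) (k : X → ℝ) : ∃ B, ∀ u, B < ‖u‖ → st F k u = 0 := by
  choose B hB using fun x : X => ce_supp hFδ (x : E d)
  refine ⟨∑ x : X, |B x|, fun u hu => ?_⟩
  unfold st
  refine Finset.sum_eq_zero fun x _ => ?_
  rw [hB x u, mul_zero]
  refine lt_of_le_of_lt ?_ hu
  exact (le_abs_self _).trans (Finset.single_le_sum (f := fun x : X => |B x|)
    (fun y _ => abs_nonneg _) (Finset.mem_univ x))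

lemma gX_form (h : GS d r K L M g) (hF : MeasurableSet F) (hFt : volume F ≠ ⊤)
    (hF0 : 0 < volume.real F) (hFδ : F ⊆ closedBall 0 δ) (hD : Dis F X) (k l : X → ℝ) :
    |∑ x : X, ∑ y : X, k x * l y * gX F g (x : E d) (y : E d)| ≤
      L / volume.real F * (√(∑ x : X, k x ^ 2) * √(∑ x : X, l x ^ 2)) := by
  obtain ⟨f, hf⟩ : ∃ f : ℝ, f = volume.real F := ⟨_, rfl⟩
  have hf0 : 0 < f := by rw [hf]; exact hF0
  have h1 := h.form (st F k) (st F l) (st_meas hF k) (st_meas hF l) (st_bdd F k) (st_bdd F l)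
    (st_supp hFδ k) (st_supp hFδ l)
  rw [st_int hF hFt hD, st_int hF hFt hD, ← hf, Real.sqrt_mul hf0.le, Real.sqrt_mul hf0.le] at h1
  have h2 : ∫ p : E d × E d, st F k p.1 * (g (p.1 - p.2) * st F l p.2) ∂(volume.prod volume) =
      f ^ 2 * ∑ x : X, ∑ y : X, k x * l y * gX F g (x : E d) (y : E d) := by
    have e1 : ∀ p : E d × E d, st F k p.1 * (g (p.1 - p.2) * st F l p.2) =
        ∑ x : X, ∑ y : X, k x * l y * (ce F (x : E d) p.1 * (g (p.1 - p.2) *
          ce F (y : E d) p.2)) := by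
      intro p
      unfold st
      rw [Finset.mul_sum, Finset.sum_mul_sum]
      refine Finset.sum_congr rfl fun x _ => Finset.sum_congr rfl fun y _ => ?_
      ring
    simp_rw [e1]
    have i1 : ∀ x y : X, Integrable (fun p : E d × E d => k x * l y * (ce F (x : E d) p.1 *
        (g (p.1 - p.2) * ce F (y : E d) p.2))) (volume.prod volume) := fun x y =>
      (ce_prod_int hF hFt _ _ h.meas (g_bdd h)).const_mul _
    rw [integral_finsetSum _ fun x _ => integrable_finsetSum _ fun y _ => i1 x y, Finset.mul_sum]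
    refine Finset.sum_congr rfl fun x _ => ?_
    rw [integral_finsetSum _ fun y _ => i1 x y, Finset.mul_sum]
    refine Finset.sum_congr rfl fun y _ => ?_
    rw [integral_const_mul]
    unfold gX
    rw [← hf]
    field_simp
  rw [h2, abs_mul, abs_of_pos (by positivity)] at h1
  have h3 : √f * √f = f := Real.mul_self_sqrt hf0.le
  have h4 : f ^ 2 * |∑ x : X, ∑ y : X, k x * l y * gX F g (x : E d) (y : E d)| ≤
      f ^ 2 * (L / f * (√(∑ x : X, k x ^ 2) * √(∑ x : X, l x ^ 2))) := by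
    refine h1.trans (le_of_eq ?_)
    calc L * (√f * √(∑ x : X, k x ^ 2) * (√f * √(∑ x : X, l x ^ 2))) =
        L * (√f * √f) * (√(∑ x : X, k x ^ 2) * √(∑ x : X, l x ^ 2)) := by ring
      _ = _ := by
          rw [h3]
          field_simp
  rw [← hf]
  exact le_of_mul_le_mul_left h4 (by positivity)

/-- the discretized kernel is good -/
theorem kk_of (h : GS d r K L M g) (hF : MeasurableSet F) (hFt : volume F ≠ ⊤)
    (hF0 : 0 < volume.real F) (hFδ : F ⊆ closedBall 0 δ) (hD : Dis F X) (hK : 1 ≤ K)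
    (hL : 0 ≤ L) (hM : 0 ≤ M) :
    Pool.Agent.Y570.LS.KK (fun x y : X => 1 + gX F g (x : E d) (y : E d)) K
      (L / volume.real F) √(M / volume.real F) := by
  have hMf : 0 ≤ M / volume.real F := by positivity
  refine ⟨hK, by positivity, Real.sqrt_nonneg _, fun x y => ?_, fun x y => ?_, fun x => ?_,
    fun y => ?_, fun l => ?_⟩
  · linarith [gX_low h hF hFt hF0 (x : E d) (y : E d)]
  · exact gX_up h hF hFt hF0 _ _
  · rw [Real.sq_sqrt hMf]
    refine le_trans (le_of_eq ?_) (gX_row h hF hFt hF0 hD (x : E d))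
    refine Finset.sum_congr rfl fun y _ => ?_
    ring
  · rw [Real.sq_sqrt hMf]
    refine le_trans (le_of_eq ?_) (gX_row h hF hFt hF0 hD (y : E d))
    refine Finset.sum_congr rfl fun x _ => ?_
    rw [gX_symm h]
    ring
  · obtain ⟨k, hk⟩ : ∃ k : X → ℝ, k = fun x : X => ∑ y : X, gX F g (x : E d) (y : E d) * l y :=
      ⟨_, rfl⟩
    have h1 := gX_form h hF hFt hF0 hFδ hD k l
    have h2 : ∑ x : X, ∑ y : X, k x * l y * gX F g (x : E d) (y : E d) = ∑ x : X, k x ^ 2 := by
      refine Finset.sum_congr rfl fun x _ => ?_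
      rw [sq]
      conv_rhs => rw [hk]
      rw [hk]
      simp only
      rw [Finset.mul_sum]
      refine Finset.sum_congr rfl fun y _ => ?_
      ring
    have h3 : ∀ x : X, ∑ y : X, (1 + gX F g (x : E d) (y : E d) - 1) * l y = k x := by
      intro x
      rw [hk]
      refine Finset.sum_congr rfl fun y _ => ?_
      ring
    simp_rw [h3]
    obtain ⟨S, hS⟩ : ∃ S : ℝ, S = ∑ x : X, k x ^ 2 := ⟨_, rfl⟩
    obtain ⟨T, hT⟩ : ∃ T : ℝ, T = ∑ x : X, l x ^ 2 := ⟨_, rfl⟩
    have hS0 : 0 ≤ S := by rw [hS]; exact Finset.sum_nonneg fun _ _ => sq_nonneg _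
    have hT0 : 0 ≤ T := by rw [hT]; exact Finset.sum_nonneg fun _ _ => sq_nonneg _
    rw [h2, ← hS, ← hT, abs_of_nonneg hS0] at h1
    rw [← hS, ← hT]
    obtain ⟨Λ, hΛ⟩ : ∃ Λ : ℝ, Λ = L / volume.real F := ⟨_, rfl⟩
    have hΛ0 : 0 ≤ Λ := by rw [hΛ]; positivity
    rw [← hΛ] at h1 ⊢
    have h4 : √S ≤ Λ * √T := by
      rcases hS0.eq_or_lt with h5 | h5
      · rw [← h5, Real.sqrt_zero]
        positivity
      · have e1 : √S * √S = S := Real.mul_self_sqrt hS0
        have e2 : 0 < √S := Real.sqrt_pos.2 h5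
        have e3 : √S * √S ≤ Λ * √T * √S := by
          rw [e1]
          linarith
        exact le_of_mul_le_mul_right e3 e2
    calc S = √S ^ 2 := (Real.sq_sqrt hS0).symm
      _ ≤ (Λ * √T) ^ 2 := pow_le_pow_left₀ (Real.sqrt_nonneg _) h4 2
      _ = _ := by rw [mul_pow, Real.sq_sqrt hT0]

end Pool.Agent.Y509.LS
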