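import Mathlib
import Pool.Agent.Y570.LS.Cond

/-!
Y509/LS (helper509, MP_dbfdb2_gt): a sharper form of the recursion of Y570/LS (helper570), with
factorials instead of powers of two.
-/

set_option autoImplicit false
set_option linter.unusedSectionVars false

namespace Pool.Agent.Y509.LS

open Finset Pool.Agent.Y570.LS

section

variable {X : Type} [Fintype X] [DecidableEq X] {g : X → X → ℝ} {K Λ σ : ℝ}

lemma esym_fact (x : X → ℝ) (hx : ∀ c, 0 ≤ x c) (r : ℕ) :
    (r.factorial : ℝ) * ∑ R ∈ powersetCard r univ, ∏ c ∈ R, x c ≤ (∑ c, x c) ^ r := by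
  have hS : 0 ≤ ∑ c, x c := Finset.sum_nonneg fun c _ => hx c
  induction r with
  | zero => simp
  | succ r ih =>
    have h1 := peel' r (fun R : Finset X => ∏ c ∈ R, x c)
    have h2 : ∑ a, ∑ J ∈ powersetCard r univ, (if a ∈ J then 0 else ∏ c ∈ insert a J, x c) ≤
        ∑ a, ∑ J ∈ powersetCard r univ, x a * ∏ c ∈ J, x c := by
      refine Finset.sum_le_sum fun a _ => Finset.sum_le_sum fun J _ => ?_
      by_cases h : a ∈ J
      · rw [if_pos h]
        exact mul_nonneg (hx a) (Finset.prod_nonneg fun c _ => hx c)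
      · rw [if_neg h, Finset.prod_insert h]
    have h3 : ∑ a, ∑ J ∈ powersetCard r univ, x a * ∏ c ∈ J, x c =
        (∑ c, x c) * ∑ R ∈ powersetCard r univ, ∏ c ∈ R, x c := by
      rw [Finset.sum_mul_sum]
    rw [Nat.factorial_succ]
    push_cast
    calc ((r : ℝ) + 1) * r.factorial * ∑ R ∈ powersetCard (r + 1) univ, ∏ c ∈ R, x c
        = r.factorial * (((r : ℝ) + 1) * ∑ R ∈ powersetCard (r + 1) univ, ∏ c ∈ R, x c) := by
          ring
      _ ≤ r.factorial * ((∑ c, x c) * ∑ R ∈ powersetCard r univ, ∏ c ∈ R, x c) := by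
          rw [h1]
          exact mul_le_mul_of_nonneg_left (h2.trans h3.le) (Nat.cast_nonneg _)
      _ = (∑ c, x c) * (r.factorial * ∑ R ∈ powersetCard r univ, ∏ c ∈ R, x c) := by ring
      _ ≤ (∑ c, x c) * (∑ c, x c) ^ r := mul_le_mul_of_nonneg_left ih hS
      _ = _ := (pow_succ' _ _).symm

lemma pe_row2 (hk : KK g K Λ σ) (a : X) (r : ℕ) :
    ∑ R ∈ powersetCard r univ, pe g a R ^ 2 ≤ (σ ^ r / √(r.factorial : ℝ)) ^ 2 := by
  have h1 := esym_fact (fun c => (g a c - 1) ^ 2) (fun c => sq_nonneg _) r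
  have h2 : ∀ R : Finset X, pe g a R ^ 2 = ∏ c ∈ R, (g a c - 1) ^ 2 := by
    intro R
    unfold pe
    rw [Finset.prod_pow]
  simp_rw [h2]
  have hf : (0 : ℝ) < r.factorial := by exact_mod_cast Nat.factorial_pos r
  rw [div_pow, Real.sq_sqrt hf.le, le_div_iff₀ hf, mul_comm]
  refine h1.trans ?_
  rw [← pow_mul, mul_comm r 2, pow_mul]
  exact pow_le_pow_left₀ (Finset.sum_nonneg fun c _ => sq_nonneg _) (hk.row a) r

lemma hR_sum2 (h : Finset X → ℝ) (w r : ℕ) (hr : r ≤ w) :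
    ∑ R ∈ powersetCard r univ, n2 (w - r) (hR h R) ≤ (w.choose r : ℝ) * n2 w h := by
  have h1 := split w r hr (fun R M => h (R ∪ M) ^ 2)
  have h2 : ∑ R ∈ powersetCard r univ, n2 (w - r) (hR h R) =
      ∑ R ∈ powersetCard r univ, ∑ M ∈ powersetCard (w - r) univ,
        if Disjoint R M then h (R ∪ M) ^ 2 else 0 := by
    refine Finset.sum_congr rfl fun R _ => Finset.sum_congr rfl fun M _ => ?_
    unfold hR
    by_cases hd : Disjoint R M
    · rw [if_pos hd, if_pos hd]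
    · rw [if_neg hd, if_neg hd]
      ring
  rw [h2, ← h1]
  unfold n2
  rw [Finset.mul_sum]
  refine Finset.sum_le_sum fun L hL => ?_
  have hc := (Finset.mem_powersetCard.1 hL).2
  refine le_of_eq ?_
  calc ∑ R ∈ powersetCard r L, h (R ∪ L \ R) ^ 2 = ∑ _R ∈ powersetCard r L, h L ^ 2 := by
        refine Finset.sum_congr rfl fun R hR => ?_
        rw [Finset.union_sdiff_of_subset (Finset.mem_powersetCard.1 hR).1]
    _ = (w.choose r : ℝ) * h L ^ 2 := by
        rw [Finset.sum_const, Finset.card_powersetCard, hc, nsmul_eq_mul]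

/-- the combinatorial factor -/
noncomputable def cf (w r : ℕ) : ℝ := √(w.choose r : ℝ) / √(r.factorial : ℝ)

lemma cf_nonneg (w r : ℕ) : 0 ≤ cf w r := div_nonneg (Real.sqrt_nonneg _) (Real.sqrt_nonneg _)

/-- the first part of the recursion -/
lemma partB2 (hk : KK g K Λ σ) (u w r : ℕ) (hr : r ≤ w) (N : ℝ) (hN0 : 0 ≤ N)
    (hN : BB g u (w - r) N) (f h : Finset X → ℝ) :
    |∑ a, ∑ R ∈ powersetCard r univ, pe g a R * ∑ J ∈ powersetCard u univ,
      ∑ M ∈ powersetCard (w - r) univ, fa f a J * (hR h R M * (pg g a M - 1)) * CC g J M| ≤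
    N * (K ^ w * (w - r : ℕ) * σ ^ (r + 1)) * (√((u : ℝ) + 1) * √(n2 (u + 1) f)) *
      (cf w r * √(n2 w h)) := by
  have hK0 : 0 ≤ K := by linarith [hk.K1]
  have hσ := hk.hσ
  have hf0 : (0 : ℝ) < √(r.factorial : ℝ) :=
    Real.sqrt_pos.2 (by exact_mod_cast Nat.factorial_pos r)
  obtain ⟨A, hA⟩ : ∃ A : X → ℝ, A = fun a => n2 u (fa f a) := ⟨_, rfl⟩
  obtain ⟨B, hB⟩ : ∃ B : X → Finset X → ℝ,
      B = fun a R => n2 (w - r) (fun M => hR h R M * (pg g a M - 1)) := ⟨_, rfl⟩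
  have hA0 : ∀ a, 0 ≤ A a := fun a => by rw [hA]; exact n2_nonneg _ _
  have hB0 : ∀ a R, 0 ≤ B a R := fun a R => by rw [hB]; exact n2_nonneg _ _
  have h1 : |∑ a, ∑ R ∈ powersetCard r univ, pe g a R * ∑ J ∈ powersetCard u univ,
      ∑ M ∈ powersetCard (w - r) univ, fa f a J * (hR h R M * (pg g a M - 1)) * CC g J M| ≤
      N * ∑ a, ∑ R ∈ powersetCard r univ, √(pe g a R ^ 2 * A a) * √(B a R) := by
    refine (Finset.abs_sum_le_sum_abs _ _).trans ?_
    rw [Finset.mul_sum]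
    refine Finset.sum_le_sum fun a _ => ?_
    refine (Finset.abs_sum_le_sum_abs _ _).trans ?_
    rw [Finset.mul_sum]
    refine Finset.sum_le_sum fun R _ => ?_
    rw [abs_mul]
    have e1 := hN (fa f a) (fun M => hR h R M * (pg g a M - 1))
    have e2 : √(pe g a R ^ 2 * A a) = |pe g a R| * √(A a) := by
      rw [Real.sqrt_mul (sq_nonneg _), Real.sqrt_sq_eq_abs]
    rw [e2, hA, hB]
    calc |pe g a R| * |∑ J ∈ powersetCard u univ,
          ∑ M ∈ powersetCard (w - r) univ, fa f a J * (hR h R M * (pg g a M - 1)) * CC g J M|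
        ≤ |pe g a R| * (N * (√(n2 u (fa f a)) *
          √(n2 (w - r) fun M => hR h R M * (pg g a M - 1)))) :=
          mul_le_mul_of_nonneg_left e1 (abs_nonneg _)
      _ = _ := by ring
  have h2 : ∑ a, ∑ R ∈ powersetCard r univ, √(pe g a R ^ 2 * A a) * √(B a R) ≤
      √(∑ a, ∑ R ∈ powersetCard r univ, pe g a R ^ 2 * A a) *
        √(∑ a, ∑ R ∈ powersetCard r univ, B a R) := by
    rw [← Finset.sum_product', ← Finset.sum_product', ← Finset.sum_product']
    exact Real.sum_sqrt_mul_sqrt_le _ (fun p => mul_nonneg (sq_nonneg _) (hA0 _))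
      (fun p => hB0 _ _)
  have h3 : ∑ a, ∑ R ∈ powersetCard r univ, pe g a R ^ 2 * A a ≤
      (σ ^ r / √(r.factorial : ℝ)) ^ 2 * (((u : ℝ) + 1) * n2 (u + 1) f) := by
    rw [← fa_sum, Finset.mul_sum]
    refine Finset.sum_le_sum fun a _ => ?_
    rw [← Finset.sum_mul, hA]
    exact mul_le_mul_of_nonneg_right (pe_row2 hk a r) (n2_nonneg _ _)
  have h4 : ∑ a, ∑ R ∈ powersetCard r univ, B a R ≤
      (K ^ w * (w - r : ℕ) * σ) ^ 2 * ((w.choose r : ℝ) * n2 w h) := by
    rw [Finset.sum_comm]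
    have e1 : ∀ R ∈ powersetCard r (univ : Finset X), ∑ a, B a R ≤
        (K ^ w * (w - r : ℕ) * σ) ^ 2 * n2 (w - r) (hR h R) := by
      intro R _
      rw [hB]
      unfold n2
      rw [Finset.sum_comm, Finset.mul_sum]
      refine Finset.sum_le_sum fun M hM => ?_
      have hc := (Finset.mem_powersetCard.1 hM).2
      simp_rw [mul_pow]
      rw [← Finset.mul_sum, mul_comm (hR h R M ^ 2)]
      refine mul_le_mul_of_nonneg_right ?_ (sq_nonneg _)
      refine (pg_col hk M).trans ?_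
      rw [hc, ← mul_pow, ← mul_pow]
      refine pow_le_pow_left₀ (by positivity) ?_ 2
      refine mul_le_mul_of_nonneg_right (mul_le_mul_of_nonneg_right ?_ (Nat.cast_nonneg _)) hσ
      exact pow_le_pow_right₀ hk.K1 (Nat.sub_le w r)
    refine (Finset.sum_le_sum e1).trans ?_
    rw [← Finset.mul_sum]
    exact mul_le_mul_of_nonneg_left (hR_sum2 h w r hr) (sq_nonneg _)
  have h5 : √(∑ a, ∑ R ∈ powersetCard r univ, pe g a R ^ 2 * A a) ≤
      σ ^ r / √(r.factorial : ℝ) * (√((u : ℝ) + 1) * √(n2 (u + 1) f)) := by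
    refine (Real.sqrt_le_sqrt h3).trans ?_
    rw [Real.sqrt_mul (sq_nonneg _), Real.sqrt_sq (by positivity),
      Real.sqrt_mul (by positivity)]
  have h6 : √(∑ a, ∑ R ∈ powersetCard r univ, B a R) ≤
      (K ^ w * (w - r : ℕ) * σ) * (√(w.choose r : ℝ) * √(n2 w h)) := by
    refine (Real.sqrt_le_sqrt h4).trans ?_
    rw [Real.sqrt_mul (sq_nonneg _), Real.sqrt_sq (by positivity),
      Real.sqrt_mul (Nat.cast_nonneg _)]
  have h7 := mul_le_mul h5 h6 (Real.sqrt_nonneg _) (by positivity)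
  calc _ ≤ N * ∑ a, ∑ R ∈ powersetCard r univ, √(pe g a R ^ 2 * A a) * √(B a R) := h1
    _ ≤ N * (σ ^ r / √(r.factorial : ℝ) * (√((u : ℝ) + 1) * √(n2 (u + 1) f)) *
        ((K ^ w * (w - r : ℕ) * σ) * (√(w.choose r : ℝ) * √(n2 w h)))) :=
        mul_le_mul_of_nonneg_left (h2.trans h7) hN0
    _ = _ := by
        unfold cf
        ring

/-- the second part of the recursion -/
lemma partA2 (hk : KK g K Λ σ) (u w r : ℕ) (hr : r + 1 ≤ w) (N : ℝ) (hN0 : 0 ≤ N)
    (hN : BB g u (w - (r + 1)) N) (f h : Finset X → ℝ) :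
    |∑ a, ∑ R ∈ powersetCard (r + 1) univ, pe g a R * ∑ J ∈ powersetCard u univ,
      ∑ M ∈ powersetCard (w - (r + 1)) univ, fa f a J * hR h R M * CC g J M| ≤
    N * (Λ * σ ^ r) * (√((u : ℝ) + 1) * √(n2 (u + 1) f)) * (cf w (r + 1) * √(n2 w h)) := by
  have hσ := hk.hσ
  have hΛ := hk.hΛ
  have hf0 : (0 : ℝ) < √(r.factorial : ℝ) :=
    Real.sqrt_pos.2 (by exact_mod_cast Nat.factorial_pos r)
  obtain ⟨F, hF⟩ : ∃ F : Finset X → X → Finset X → ℝ, F = fun R a J => pe g a R * fa f a J :=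
    ⟨_, rfl⟩
  obtain ⟨H, hH⟩ : ∃ H : Finset X → X → Finset X → ℝ,
      H = fun R c M => if c ∈ R then 0 else hR h (insert c R) M := ⟨_, rfl⟩
  obtain ⟨Φ, hΦ⟩ : ∃ Φ : Finset X → ℝ, Φ = fun R => ∑ a, pe g a R * ∑ J ∈ powersetCard u univ,
      ∑ M ∈ powersetCard (w - (r + 1)) univ, fa f a J * hR h R M * CC g J M := ⟨_, rfl⟩
  have h0 : ∑ a, ∑ R ∈ powersetCard (r + 1) univ, pe g a R * ∑ J ∈ powersetCard u univ,
      ∑ M ∈ powersetCard (w - (r + 1)) univ, fa f a J * hR h R M * CC g J M =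
      ∑ R ∈ powersetCard (r + 1) univ, Φ R := by
    rw [Finset.sum_comm, hΦ]
  have h1 : ((r : ℝ) + 1) * ∑ R ∈ powersetCard (r + 1) univ, Φ R =
      ∑ R ∈ powersetCard r univ, ∑ a, ∑ c, (g a c - 1) * ∑ J ∈ powersetCard u univ,
      ∑ M ∈ powersetCard (w - (r + 1)) univ, F R a J * H R c M * CC g J M := by
    rw [peel' r Φ, Finset.sum_comm]
    refine Finset.sum_congr rfl fun R _ => ?_
    rw [Finset.sum_comm (s := (univ : Finset X))]
    refine Finset.sum_congr rfl fun c _ => ?_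
    by_cases hc : c ∈ R
    · rw [if_pos hc]
      symm
      refine Finset.sum_eq_zero fun a _ => ?_
      have : ∀ J M : Finset X, F R a J * H R c M * CC g J M = 0 := by
        intro J M
        rw [hH]
        simp only
        rw [if_pos hc]
        ring
      simp [this]
    · rw [if_neg hc, hΦ]
      refine Finset.sum_congr rfl fun a _ => ?_
      have e1 : pe g a (insert c R) = (g a c - 1) * pe g a R := by
        unfold pe
        rw [Finset.prod_insert hc]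
      rw [e1, mul_assoc]
      congr 1
      rw [Finset.mul_sum]
      refine Finset.sum_congr rfl fun J _ => ?_
      rw [Finset.mul_sum]
      refine Finset.sum_congr rfl fun M _ => ?_
      rw [hF, hH]
      simp only
      rw [if_neg hc]
      ring
  have h2 : ∀ R ∈ powersetCard r (univ : Finset X),
      |∑ a, ∑ c, (g a c - 1) * ∑ J ∈ powersetCard u univ,
      ∑ M ∈ powersetCard (w - (r + 1)) univ, F R a J * H R c M * CC g J M| ≤
      Λ * N * (√(∑ a, ∑ J ∈ powersetCard u univ, F R a J ^ 2) *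
        √(∑ c, ∑ M ∈ powersetCard (w - (r + 1)) univ, H R c M ^ 2)) := by
    intro R _
    exact spec_vec hΛ hk.spec (powersetCard u univ) (powersetCard (w - (r + 1)) univ)
      (fun J M => CC g J M) N hN0 hN (F R) (H R)
  have h3 : ∑ R ∈ powersetCard r univ, ∑ a, ∑ J ∈ powersetCard u univ, F R a J ^ 2 ≤
      (σ ^ r / √(r.factorial : ℝ)) ^ 2 * (((u : ℝ) + 1) * n2 (u + 1) f) := by
    rw [← fa_sum, Finset.mul_sum, Finset.sum_comm]
    refine Finset.sum_le_sum fun a _ => ?_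
    have e1 : ∑ R ∈ powersetCard r univ, ∑ J ∈ powersetCard u univ, F R a J ^ 2 =
        (∑ R ∈ powersetCard r univ, pe g a R ^ 2) * n2 u (fa f a) := by
      unfold n2
      rw [Finset.sum_mul_sum]
      refine Finset.sum_congr rfl fun R _ => Finset.sum_congr rfl fun J _ => ?_
      rw [hF]
      ring
    rw [e1]
    exact mul_le_mul_of_nonneg_right (pe_row2 hk a r) (n2_nonneg _ _)
  have h4 : ∑ R ∈ powersetCard r univ, ∑ c, ∑ M ∈ powersetCard (w - (r + 1)) univ, H R c M ^ 2 ≤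
      ((r : ℝ) + 1) * ((w.choose (r + 1) : ℝ) * n2 w h) := by
    have e1 := peel' r (fun R : Finset X => n2 (w - (r + 1)) (hR h R))
    have e2 : ∑ R ∈ powersetCard r univ, ∑ c, ∑ M ∈ powersetCard (w - (r + 1)) univ,
        H R c M ^ 2 = ∑ a, ∑ J ∈ powersetCard r univ,
          if a ∈ J then 0 else n2 (w - (r + 1)) (hR h (insert a J)) := by
      rw [Finset.sum_comm]
      refine Finset.sum_congr rfl fun c _ => Finset.sum_congr rfl fun R _ => ?_
      rw [hH]
      by_cases hc : c ∈ R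
      · simp [hc]
      · simp only [hc, if_false]
        rfl
    rw [e2, ← e1]
    exact mul_le_mul_of_nonneg_left (hR_sum2 h w (r + 1) hr) (by positivity)
  have h5 : ((r : ℝ) + 1) * |∑ R ∈ powersetCard (r + 1) univ, Φ R| ≤
      Λ * N * (σ ^ r / √(r.factorial : ℝ) * (√((u : ℝ) + 1) * √(n2 (u + 1) f)) *
        (√((r : ℝ) + 1) * (√(w.choose (r + 1) : ℝ) * √(n2 w h)))) := by
    have e1 : ((r : ℝ) + 1) * |∑ R ∈ powersetCard (r + 1) univ, Φ R| =
        |((r : ℝ) + 1) * ∑ R ∈ powersetCard (r + 1) univ, Φ R| := by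
      rw [abs_mul, abs_of_nonneg (by positivity : (0 : ℝ) ≤ (r : ℝ) + 1)]
    rw [e1, h1]
    refine (Finset.abs_sum_le_sum_abs _ _).trans ((Finset.sum_le_sum h2).trans ?_)
    rw [← Finset.mul_sum]
    refine mul_le_mul_of_nonneg_left ?_ (mul_nonneg hΛ hN0)
    refine (Real.sum_sqrt_mul_sqrt_le _
      (fun R => Finset.sum_nonneg fun a _ => Finset.sum_nonneg fun J _ => sq_nonneg _)
      (fun R => Finset.sum_nonneg fun a _ => Finset.sum_nonneg fun J _ => sq_nonneg _)).trans ?_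
    refine mul_le_mul ?_ ?_ (Real.sqrt_nonneg _) (by positivity)
    · refine (Real.sqrt_le_sqrt h3).trans ?_
      rw [Real.sqrt_mul (sq_nonneg _), Real.sqrt_sq (by positivity),
        Real.sqrt_mul (by positivity)]
    · refine (Real.sqrt_le_sqrt h4).trans ?_
      rw [Real.sqrt_mul (by positivity), Real.sqrt_mul (Nat.cast_nonneg _)]
  have h9 : (0 : ℝ) < (r : ℝ) + 1 := by positivity
  have h6 : √((r : ℝ) + 1) * √((r : ℝ) + 1) = (r : ℝ) + 1 := Real.mul_self_sqrt h9.le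
  have h10 : 0 < √((r : ℝ) + 1) := Real.sqrt_pos.2 h9
  have h7 : √((r + 1).factorial : ℝ) = √((r : ℝ) + 1) * √(r.factorial : ℝ) := by
    rw [← Real.sqrt_mul h9.le, Nat.factorial_succ]
    push_cast
    rfl
  rw [h0]
  have h8 : Λ * N * (σ ^ r / √(r.factorial : ℝ) * (√((u : ℝ) + 1) * √(n2 (u + 1) f)) *
        (√((r : ℝ) + 1) * (√(w.choose (r + 1) : ℝ) * √(n2 w h)))) =
      ((r : ℝ) + 1) * (N * (Λ * σ ^ r) * (√((u : ℝ) + 1) * √(n2 (u + 1) f)) *
        (cf w (r + 1) * √(n2 w h))) := by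
    unfold cf
    rw [h7]
    nth_rewrite 2 [← h6]
    field_simp
  rw [h8] at h5
  exact le_of_mul_le_mul_left h5 h9

/-- the bound of the induction -/
noncomputable def NB2 (K Λ σ : ℝ) (w : ℕ) (N : ℕ → ℝ) : ℝ :=
  ∑ r ∈ range (w + 1), cf w r * (N (w - r) * (K ^ w * (w - r : ℕ) * σ ^ (r + 1)) +
    if r = 0 then 0 else N (w - r) * (Λ * σ ^ (r - 1)))

/-- the step of the induction -/
theorem step2 (hk : KK g K Λ σ) (u w : ℕ) (N : ℕ → ℝ) (hN0 : ∀ r, 0 ≤ N r)
    (hN : ∀ w' ≤ w, BB g u w' (N w')) : BB g (u + 1) w (NB2 K Λ σ w N) := by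
  have hK0 : 0 ≤ K := by linarith [hk.K1]
  have hσ := hk.hσ
  have hΛ := hk.hΛ
  intro f h
  have hu : (0 : ℝ) < (u : ℝ) + 1 := by positivity
  have h1 := form_rec (g := g) u w f h
  obtain ⟨S, hS⟩ : ∃ S : ℝ, S = ∑ J ∈ powersetCard (u + 1) univ, ∑ L ∈ powersetCard w univ,
      f J * h L * CC g J L := ⟨_, rfl⟩
  rw [← hS] at h1 ⊢
  have h2 : ((u : ℝ) + 1) * |S| ≤ NB2 K Λ σ w N *
      ((√((u : ℝ) + 1) * √(n2 (u + 1) f)) * √(n2 w h)) := by
    have e1 : ((u : ℝ) + 1) * |S| = |((u : ℝ) + 1) * S| := by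
      rw [abs_mul, abs_of_pos hu]
    rw [e1, h1]
    refine (Finset.abs_sum_le_sum_abs _ _).trans ?_
    unfold NB2
    rw [Finset.sum_mul]
    refine Finset.sum_le_sum fun r hr => ?_
    have hr' : r ≤ w := by
      have := Finset.mem_range.1 hr
      omega
    have e2 := partB2 hk u w r hr' (N (w - r)) (hN0 _) (hN _ (Nat.sub_le w r)) f h
    by_cases hr0 : r = 0
    · rw [if_pos hr0, if_pos hr0, add_zero, add_zero]
      refine e2.trans (le_of_eq ?_)
      ring
    · rw [if_neg hr0, if_neg hr0]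
      obtain ⟨q, rfl⟩ : ∃ q, r = q + 1 := ⟨r - 1, by omega⟩
      have e3 := partA2 hk u w q hr' (N (w - (q + 1))) (hN0 _) (hN _ (Nat.sub_le w _)) f h
      refine (abs_add_le _ _).trans ((add_le_add e2 e3).trans (le_of_eq ?_))
      rw [Nat.add_sub_cancel]
      ring
  have h3 : √((u : ℝ) + 1) ≤ (u : ℝ) + 1 := by
    rw [Real.sqrt_le_left hu.le]
    have : (0 : ℝ) ≤ u := Nat.cast_nonneg u
    nlinarith
  have hNB : 0 ≤ NB2 K Λ σ w N := by
    unfold NB2
    refine Finset.sum_nonneg fun r _ => mul_nonneg (cf_nonneg _ _) ?_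
    refine add_nonneg (mul_nonneg (hN0 _) (by positivity)) ?_
    by_cases hr0 : r = 0
    · rw [if_pos hr0]
    · rw [if_neg hr0]
      exact mul_nonneg (hN0 _) (by positivity)
  have h4 : NB2 K Λ σ w N * ((√((u : ℝ) + 1) * √(n2 (u + 1) f)) * √(n2 w h)) ≤
      ((u : ℝ) + 1) * (NB2 K Λ σ w N * (√(n2 (u + 1) f) * √(n2 w h))) := by
    calc NB2 K Λ σ w N * ((√((u : ℝ) + 1) * √(n2 (u + 1) f)) * √(n2 w h))
        ≤ NB2 K Λ σ w N * ((((u : ℝ) + 1) * √(n2 (u + 1) f)) * √(n2 w h)) := by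
          refine mul_le_mul_of_nonneg_left ?_ hNB
          exact mul_le_mul_of_nonneg_right (mul_le_mul_of_nonneg_right h3 (Real.sqrt_nonneg _))
            (Real.sqrt_nonneg _)
      _ = _ := by ring
  exact le_of_mul_le_mul_left (h2.trans h4) hu

end

end Pool.Agent.Y509.LS
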