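import Mathlib
import Pool.Agent.Y509.LS.R1

/-!
Y509/LS (helper509, MP_dbfdb2_gt): the norms of the alternating sums, with factorials.
-/

set_option autoImplicit false
set_option linter.unusedSectionVars false

namespace Pool.Agent.Y509.LS

open Finset Pool.Agent.Y570.LS

section

variable {X : Type} [Fintype X] [DecidableEq X] {g : X → X → ℝ} {K Λ σ ρ : ℝ}

/-- the constant of a step -/
noncomputable def ca (K : ℝ) (t : ℕ) : ℝ := 3 * (K ^ t * t + 1)

lemma ca_one (hK : 1 ≤ K) (t : ℕ) : 1 ≤ ca K t := by
  unfold ca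
  have h2 : (0 : ℝ) ≤ t := Nat.cast_nonneg t
  have h3 : (0 : ℝ) ≤ K ^ t * t := by positivity
  linarith

/-- the bounds -/
noncomputable def Nv (K Λ σ : ℝ) (t u w : ℕ) : ℝ :=
  if w = 0 then 0 else √(w.factorial : ℝ) * ca K t ^ u * Λ * σ ^ ((u - 1) + (w - 1))

lemma cf_fact {w r : ℕ} (hr : r ≤ w) :
    cf w r * √((w - r).factorial : ℝ) = √(w.factorial : ℝ) * (1 / (r.factorial : ℝ)) := by
  have h1 : (0 : ℝ) < r.factorial := by exact_mod_cast Nat.factorial_pos r
  have h2 : 0 < √(r.factorial : ℝ) := Real.sqrt_pos.2 h1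
  have h3 : √(r.factorial : ℝ) * √(r.factorial : ℝ) = r.factorial := Real.mul_self_sqrt h1.le
  have h4 : √(w.choose r : ℝ) * √(r.factorial : ℝ) * √((w - r).factorial : ℝ) =
      √(w.factorial : ℝ) := by
    rw [← Real.sqrt_mul (Nat.cast_nonneg _), ← Real.sqrt_mul (by positivity)]
    congr 1
    exact_mod_cast Nat.choose_mul_factorial_mul_factorial hr
  unfold cf
  have h5 : (1 : ℝ) / (r.factorial : ℝ) = 1 / (√(r.factorial : ℝ) * √(r.factorial : ℝ)) := by
    rw [h3]
  rw [← h4, h5]
  field_simp

lemma sum_fact (w : ℕ) : ∑ r ∈ range w, 1 / (r.factorial : ℝ) ≤ 3 := by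
  have h1 := Real.sum_le_exp_of_nonneg (x := 1) (by norm_num) w
  have h2 := Real.exp_one_lt_d9
  simp only [one_pow] at h1
  linarith

theorem BB_all2 (hk : KK g K Λ σ) (hs : Λ ≤ σ ^ 2) (t u : ℕ) :
    ∀ w ≤ t, BB g (u + 1) w (Nv K Λ σ t (u + 1) w) := by
  have hK := hk.K1
  have hK0 : 0 ≤ K := by linarith
  have hσ := hk.hσ
  have hΛ := hk.hΛ
  have hc := ca_one hK t
  have hc0 : 0 < ca K t := by linarith
  induction u with
  | zero =>
    intro w hw
    rcases Nat.eq_zero_or_pos w with h0 | h0
    · subst h0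
      unfold Nv
      rw [if_pos rfl]
      exact BB_right g le_rfl
    · have h1 := step2 hk 0 w (fun r => if r = 0 then 1 else 0)
        (fun r => by split_ifs <;> norm_num) (fun w' _ => by
          by_cases h2 : w' = 0
          · rw [if_pos h2, h2]
            exact BB_zero g
          · rw [if_neg h2]
            exact BB_left g (Nat.pos_of_ne_zero h2))
      refine h1.mono ?_
      unfold NB2 Nv
      rw [if_neg h0.ne', Finset.sum_eq_single_of_mem w (Finset.mem_range.2 (Nat.lt_succ_self w))]
      · beta_reduce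
        rw [Nat.sub_self, if_pos rfl, if_neg h0.ne']
        have hf : (1 : ℝ) ≤ √(w.factorial : ℝ) := by
          rw [Real.one_le_sqrt]
          exact_mod_cast Nat.factorial_pos w
        have e1 : cf w w ≤ 1 := by
          unfold cf
          rw [Nat.choose_self, Nat.cast_one, Real.sqrt_one]
          exact (div_le_one (by linarith)).2 hf
        have e2 : 1 ≤ √(w.factorial : ℝ) * ca K t := one_le_mul_of_one_le_of_one_le hf hc
        have e3 : 0 ≤ Λ * σ ^ (w - 1) := by positivity
        calc cf w w * (1 * (K ^ w * ((0 : ℕ) : ℝ) * σ ^ (w + 1)) + 1 * (Λ * σ ^ (w - 1)))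
            = cf w w * (Λ * σ ^ (w - 1)) := by
              push_cast
              ring
          _ ≤ (√(w.factorial : ℝ) * ca K t) * (Λ * σ ^ (w - 1)) :=
              mul_le_mul_of_nonneg_right (e1.trans e2) e3
          _ = _ := by
              rw [zero_add, pow_one, Nat.sub_self, zero_add]
              ring
      · intro r hr hrw
        have := Finset.mem_range.1 hr
        have h3 : w - r ≠ 0 := by omega
        beta_reduce
        rw [if_neg h3]
        simp
  | succ u ih =>
    intro w hw
    rcases Nat.eq_zero_or_pos w with h0 | h0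
    · subst h0
      unfold Nv
      rw [if_pos rfl]
      exact BB_right g (by omega)
    · have h1 := step2 hk (u + 1) w (fun r => Nv K Λ σ t (u + 1) r)
        (fun r => by
          unfold Nv
          split_ifs
          · exact le_rfl
          · positivity) (fun w' hw' => ih w' (hw'.trans hw))
      refine h1.mono ?_
      unfold NB2
      rw [Finset.sum_range_succ]
      have hlast : Nv K Λ σ t (u + 1) (w - w) = 0 := by
        unfold Nv
        rw [if_pos (Nat.sub_self w)]
      have hKt : 0 ≤ K ^ t * t := by positivity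
      obtain ⟨Q, hQ⟩ : ∃ Q : ℝ, Q = √(w.factorial : ℝ) * (ca K t ^ (u + 1) * Λ *
        σ ^ (u + w) * (K ^ t * t + 1)) := ⟨_, rfl⟩
      have hQ0 : 0 ≤ Q := by rw [hQ]; positivity
      have e1 : ∀ r ∈ range w, cf w r * (Nv K Λ σ t (u + 1) (w - r) *
          (K ^ w * (w - r : ℕ) * σ ^ (r + 1)) +
          if r = 0 then 0 else Nv K Λ σ t (u + 1) (w - r) * (Λ * σ ^ (r - 1))) ≤
          Q * (1 / (r.factorial : ℝ)) := by
        intro r hr
        have hrw := Finset.mem_range.1 hr
        have h3 : w - r ≠ 0 := by omega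
        have h4 : 0 ≤ √((w - r).factorial : ℝ) := Real.sqrt_nonneg _
        have e2 : K ^ w * (w - r : ℕ) ≤ K ^ t * t := by
          refine mul_le_mul (pow_le_pow_right₀ hK hw) ?_ (Nat.cast_nonneg _) (by positivity)
          exact_mod_cast (Nat.sub_le w r).trans hw
        have e3 : Nv K Λ σ t (u + 1) (w - r) * (K ^ w * (w - r : ℕ) * σ ^ (r + 1)) ≤
            √((w - r).factorial : ℝ) * (ca K t ^ (u + 1) * Λ * σ ^ (u + w) * (K ^ t * t)) := by
          unfold Nv
          rw [if_neg h3]
          have e4 : σ ^ (u + 1 - 1 + (w - r - 1)) * σ ^ (r + 1) = σ ^ (u + w) := by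
            rw [← pow_add]
            congr 1
            omega
          calc √((w - r).factorial : ℝ) * ca K t ^ (u + 1) * Λ * σ ^ (u + 1 - 1 + (w - r - 1)) *
              (K ^ w * (w - r : ℕ) * σ ^ (r + 1))
              = √((w - r).factorial : ℝ) * (ca K t ^ (u + 1) * Λ *
                (σ ^ (u + 1 - 1 + (w - r - 1)) * σ ^ (r + 1)) * (K ^ w * (w - r : ℕ))) := by ring
            _ = √((w - r).factorial : ℝ) * (ca K t ^ (u + 1) * Λ * σ ^ (u + w) *
                (K ^ w * (w - r : ℕ))) := by rw [e4]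
            _ ≤ _ := by gcongr
        have e5 : (if r = 0 then 0 else Nv K Λ σ t (u + 1) (w - r) * (Λ * σ ^ (r - 1))) ≤
            √((w - r).factorial : ℝ) * (ca K t ^ (u + 1) * Λ * σ ^ (u + w)) := by
          by_cases hr0 : r = 0
          · rw [if_pos hr0]
            positivity
          · rw [if_neg hr0]
            unfold Nv
            rw [if_neg h3]
            have e4 : σ ^ (u + 1 - 1 + (w - r - 1)) * σ ^ (r - 1) * σ ^ 2 = σ ^ (u + w) := by
              rw [← pow_add, ← pow_add]
              congr 1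
              omega
            calc √((w - r).factorial : ℝ) * ca K t ^ (u + 1) * Λ * σ ^ (u + 1 - 1 + (w - r - 1)) *
                (Λ * σ ^ (r - 1))
                = √((w - r).factorial : ℝ) * (ca K t ^ (u + 1) * Λ *
                  (σ ^ (u + 1 - 1 + (w - r - 1)) * σ ^ (r - 1) * Λ)) := by ring
              _ ≤ √((w - r).factorial : ℝ) * (ca K t ^ (u + 1) * Λ *
                  (σ ^ (u + 1 - 1 + (w - r - 1)) * σ ^ (r - 1) * σ ^ 2)) := by gcongr
              _ = _ := by rw [e4]
        calc _ ≤ cf w r * (√((w - r).factorial : ℝ) * (ca K t ^ (u + 1) * Λ * σ ^ (u + w) *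
              (K ^ t * t)) + √((w - r).factorial : ℝ) * (ca K t ^ (u + 1) * Λ * σ ^ (u + w))) :=
              mul_le_mul_of_nonneg_left (add_le_add e3 e5) (cf_nonneg _ _)
          _ = (cf w r * √((w - r).factorial : ℝ)) * (ca K t ^ (u + 1) * Λ *
                σ ^ (u + w) * (K ^ t * t + 1)) := by ring
          _ = Q * (1 / (r.factorial : ℝ)) := by
              rw [cf_fact hrw.le, hQ]
              ring
      have e6 : cf w w * (Nv K Λ σ t (u + 1) (w - w) * (K ^ w * (w - w : ℕ) * σ ^ (w + 1)) +
          if w = 0 then 0 else Nv K Λ σ t (u + 1) (w - w) * (Λ * σ ^ (w - 1))) = 0 := by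
        rw [hlast]
        simp
      rw [e6, add_zero]
      refine (Finset.sum_le_sum e1).trans ?_
      rw [← Finset.mul_sum]
      refine (mul_le_mul_of_nonneg_left (sum_fact w) hQ0).trans (le_of_eq ?_)
      unfold Nv
      rw [if_neg h0.ne', hQ]
      have e7 : u + 1 + 1 - 1 + (w - 1) = u + w := by omega
      rw [e7, pow_succ (ca K t) (u + 1)]
      conv_rhs => rw [show ca K t ^ (u + 1) * ca K t = ca K t ^ (u + 1) *
        (3 * (K ^ t * t + 1)) from rfl]
      ring

end

end Pool.Agent.Y509.LS
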