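import Mathlib
import Pool.Agent.Y509.LS.R2

/-!
Y509/LS (helper509, MP_dbfdb2_gt): the conditioned moment matrices of the product ansatz. The
proofs are those of Y570/LS (helper570), for general bounds of the norms of the alternating sums.
-/

set_option autoImplicit false
set_option linter.unusedSectionVars false

namespace Pool.Agent.Y509.LS

open Finset Pool.Agent.Y570 Pool.Agent.Y570.LS

section

variable {X : Type} [Fintype X] [DecidableEq X] {g : X → X → ℝ} {K Λ σ ρ : ℝ}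
variable {Y : Finset X → ℝ} {t : ℕ} {B : ℝ}

/-- the form of a link -/
lemma form_link2 {N : ℕ → ℕ → ℝ} (hρ : 0 < ρ) (t : ℕ) (η : ℝ)
    (hBB : ∀ u w : ℕ, 1 ≤ u → u ≤ t → 1 ≤ w → w ≤ t → BB g u w (N u w))
    (hη : ∀ u w : ℕ, 1 ≤ u → u ≤ t → 1 ≤ w → w ≤ t → N u w * √ρ ^ (u + w) ≤ η) (hη0 : 0 ≤ η)
    (A : Finset X → ℝ) (hA : ∀ J, t < J.card → A J = 0) :
    |∑ J, ∑ L, A J * A L * CC g J L - A ∅ ^ 2| ≤
      η * (t * ∑ u ∈ range t, n2 (u + 1) A / ρ ^ (u + 1)) := by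
  have hs : 0 < √ρ := Real.sqrt_pos.2 hρ
  obtain ⟨S, hS⟩ : ∃ S : ℕ → ℕ → ℝ, S = fun u w => ∑ J ∈ powersetCard u univ,
      ∑ L ∈ powersetCard w univ, A J * A L * CC g J L := ⟨_, rfl⟩
  obtain ⟨x, hx⟩ : ∃ x : ℕ → ℝ, x = fun u => √(n2 u A) / √ρ ^ u := ⟨_, rfl⟩
  have hx0 : ∀ u, 0 ≤ x u := fun u => by
    rw [hx]
    exact div_nonneg (Real.sqrt_nonneg _) (pow_nonneg hs.le _)
  have h1 : ∑ J, ∑ L, A J * A L * CC g J L =
      ∑ u ∈ range (t + 1), ∑ w ∈ range (t + 1), S u w := by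
    rw [sum_card t (fun J => ∑ L, A J * A L * CC g J L)]
    · refine Finset.sum_congr rfl fun u _ => ?_
      rw [hS, Finset.sum_comm (s := range (t + 1))]
      refine Finset.sum_congr rfl fun J _ => ?_
      rw [sum_card t (fun L => A J * A L * CC g J L)]
      intro L hL
      rw [hA L hL]
      ring
    · intro J hJ
      refine Finset.sum_eq_zero fun L _ => ?_
      rw [hA J hJ]
      ring
  have h2 : S 0 0 = A ∅ ^ 2 := by
    rw [hS]
    simp only
    rw [Finset.powersetCard_zero, Finset.sum_singleton, Finset.sum_singleton, CC_empty_left,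
      if_pos rfl]
    ring
  have h3 : ∀ w, 1 ≤ w → S 0 w = 0 := by
    intro w hw
    have := BB_left g hw A A
    rw [zero_mul] at this
    rw [hS]
    exact abs_eq_zero.1 (le_antisymm this (abs_nonneg _))
  have h4 : ∀ u, 1 ≤ u → S u 0 = 0 := by
    intro w hw
    have := BB_right g hw A A
    rw [zero_mul] at this
    rw [hS]
    exact abs_eq_zero.1 (le_antisymm this (abs_nonneg _))
  have h5 : ∀ u w, u < t → w < t → |S (u + 1) (w + 1)| ≤ η * (x (u + 1) * x (w + 1)) := by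
    intro u w hu hw
    have e1 := hBB (u + 1) (w + 1) (by omega) (by omega) (by omega) (by omega) A A
    have e2 := hη (u + 1) (w + 1) (by omega) (by omega) (by omega) (by omega)
    have e3 : √(n2 (u + 1) A) * √(n2 (w + 1) A) =
        √ρ ^ (u + 1 + (w + 1)) * (x (u + 1) * x (w + 1)) := by
      rw [hx, pow_add]
      have : √ρ ^ (u + 1) ≠ 0 := (pow_pos hs _).ne'
      have : √ρ ^ (w + 1) ≠ 0 := (pow_pos hs _).ne'
      field_simp
    rw [hS]
    calc _ ≤ _ := e1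
      _ = (N (u + 1) (w + 1) * √ρ ^ (u + 1 + (w + 1))) *
          (x (u + 1) * x (w + 1)) := by
          rw [e3]
          ring
      _ ≤ η * (x (u + 1) * x (w + 1)) :=
          mul_le_mul_of_nonneg_right e2 (mul_nonneg (hx0 _) (hx0 _))
  have h6 : ∑ u ∈ range (t + 1), ∑ w ∈ range (t + 1), S u w =
      A ∅ ^ 2 + ∑ u ∈ range t, ∑ w ∈ range t, S (u + 1) (w + 1) := by
    rw [Finset.sum_range_succ', Finset.sum_range_succ', h2,
      Finset.sum_eq_zero (fun w _ => h3 (w + 1) (by omega)), zero_add, add_comm]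
    congr 1
    refine Finset.sum_congr rfl fun u _ => ?_
    rw [Finset.sum_range_succ', h4 (u + 1) (by omega), add_zero]
  rcases Nat.eq_zero_or_pos t with h0 | h0
  · subst h0
    rw [h1, h6]
    simp
  have h7 : |∑ u ∈ range t, ∑ w ∈ range t, S (u + 1) (w + 1)| ≤
      η * (t * ∑ u ∈ range t, n2 (u + 1) A / ρ ^ (u + 1)) := by
    have e1 : |∑ u ∈ range t, ∑ w ∈ range t, S (u + 1) (w + 1)| ≤
        η * (∑ u ∈ range t, x (u + 1)) ^ 2 := by
      refine (Finset.abs_sum_le_sum_abs _ _).trans ?_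
      rw [sq, Finset.sum_mul_sum, Finset.mul_sum]
      refine Finset.sum_le_sum fun u hu => ?_
      refine (Finset.abs_sum_le_sum_abs _ _).trans ?_
      rw [Finset.mul_sum]
      exact Finset.sum_le_sum fun w hw => h5 u w (Finset.mem_range.1 hu) (Finset.mem_range.1 hw)
    refine e1.trans (mul_le_mul_of_nonneg_left ?_ hη0)
    have e2 := sq_sum_le_card_mul_sum_sq (s := range t) (f := fun u => x (u + 1))
    rw [Finset.card_range] at e2
    refine e2.trans (le_of_eq ?_)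
    congr 1
    refine Finset.sum_congr rfl fun u _ => ?_
    rw [hx]
    simp only
    rw [div_pow, Real.sq_sqrt (n2_nonneg _ _), ← pow_mul, mul_comm (u + 1) 2, pow_mul,
      Real.sq_sqrt hρ.le]
  rw [h1, h6, add_sub_cancel_left]
  exact h7

/-- **The moment matrices of the product ansatz.** -/
theorem psd_main2 {N : ℕ → ℕ → ℝ} (hY : PM g Y ρ t B) (hg0 : ∀ x, g x x = 0)
    (hρ : 0 < ρ) (hB : 0 ≤ B) (η : ℝ)
    (hBB : ∀ u w : ℕ, 1 ≤ u → u ≤ t → 1 ≤ w → w ≤ t → BB g u w (N u w))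
    (hη : ∀ u w : ℕ, 1 ≤ u → u ≤ t → 1 ≤ w → w ≤ t → N u w * √ρ ^ (u + w) ≤ η)
    (hη0 : 0 ≤ η) (f : Finset X → ℝ) (hf : ∀ S, t < S.card → f S = 0) :
    |∑ S, ∑ T, f S * f T * Y (S ∪ T) - MM Y f| ≤ η * t * (2 ^ t * B) * MM Y f := by
  obtain ⟨F, hF⟩ : ∃ F : Finset X → ℝ, F = fun S => f S * Y S := ⟨_, rfl⟩
  obtain ⟨a, ha⟩ : ∃ a : Finset X → ℝ, a = up F := ⟨_, rfl⟩
  obtain ⟨w, hw⟩ : ∃ w : Finset X → ℝ, w = fun Z => (Y Z)⁻¹ := ⟨_, rfl⟩
  have hw0 : ∀ Z, 0 ≤ w Z := fun Z => by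
    rw [hw]
    exact inv_nonneg.2 (hY.nonneg Z)
  have hac : ∀ J, t < J.card → a J = 0 := by
    intro J hJ
    rw [ha, hF]
    exact up_card f hf Y J hJ
  have hap : ∀ J, a J ≠ 0 → 0 < Y J := by
    intro J hJ
    rw [ha, hF] at hJ
    exact up_pos hY f J hJ
  rw [form_parts hY hg0 f F hF]
  have hMM : MM Y f = ∑ Z, w Z * a Z ^ 2 := by
    unfold MM
    rw [hw, ha, hF]
  rw [hMM]
  obtain ⟨M, hM⟩ : ∃ M : ℝ, M = ∑ Z, w Z * a Z ^ 2 := ⟨_, rfl⟩
  rw [← hM]
  have h1 : |∑ Z, (Y Z)⁻¹ * ∑ S, ∑ T, hR F Z S * hR F Z T * gg g S T - M| ≤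
      η * t * ∑ Z, w Z * ∑ u ∈ range t, n2 (u + 1) (hR a Z) / ρ ^ (u + 1) := by
    rw [hM, ← Finset.sum_sub_distrib, Finset.mul_sum]
    refine (Finset.abs_sum_le_sum_abs _ _).trans (Finset.sum_le_sum fun Z _ => ?_)
    rw [form_up, up_hR, ← ha]
    have e1 : w Z = (Y Z)⁻¹ := by rw [hw]
    rw [← e1, ← mul_sub, abs_mul, abs_of_nonneg (hw0 Z)]
    have e2 := form_link2 hρ t η hBB hη hη0 (hR a Z) (fun J hJ => by
      unfold hR
      split_ifs with h
      · exact hac _ (lt_of_lt_of_le hJ (Finset.card_le_card Finset.subset_union_right))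
      · rfl)
    have e3 : hR a Z ∅ = a Z := by
      unfold hR
      rw [if_pos (Finset.disjoint_empty_right Z), Finset.union_empty]
    rw [e3] at e2
    refine (mul_le_mul_of_nonneg_left e2 (hw0 Z)).trans (le_of_eq ?_)
    ring
  refine h1.trans ?_
  have h2 : ∑ Z, w Z * ∑ u ∈ range t, n2 (u + 1) (hR a Z) / ρ ^ (u + 1) ≤
      2 ^ t * B * M := by
    have e1 : ∀ Z : Finset X, w Z * ∑ u ∈ range t, n2 (u + 1) (hR a Z) / ρ ^ (u + 1) ≤
        ∑ J : Finset X, if Disjoint Z J then B * (w (Z ∪ J) * a (Z ∪ J) ^ 2) else 0 := by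
      intro Z
      have e2 : ∑ u ∈ range t, n2 (u + 1) (hR a Z) / ρ ^ (u + 1) ≤
          ∑ J, hR a Z J ^ 2 / ρ ^ J.card := by
        rw [sum_card t (fun J => hR a Z J ^ 2 / ρ ^ J.card)]
        · rw [Finset.sum_range_succ']
          have e3 : ∑ u ∈ range t, n2 (u + 1) (hR a Z) / ρ ^ (u + 1) =
              ∑ u ∈ range t, ∑ J ∈ powersetCard (u + 1) univ, hR a Z J ^ 2 / ρ ^ J.card := by
            refine Finset.sum_congr rfl fun u _ => ?_
            unfold n2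
            rw [Finset.sum_div]
            refine Finset.sum_congr rfl fun J hJ => ?_
            rw [(Finset.mem_powersetCard.1 hJ).2]
          rw [e3]
          have e4 : 0 ≤ ∑ J ∈ powersetCard 0 (univ : Finset X), hR a Z J ^ 2 / ρ ^ J.card :=
            Finset.sum_nonneg fun J _ => div_nonneg (sq_nonneg _) (pow_nonneg hρ.le _)
          linarith
        · intro J hJ
          have : hR a Z J = 0 := by
            unfold hR
            split_ifs with h
            · exact hac _ (lt_of_lt_of_le hJ (Finset.card_le_card Finset.subset_union_right))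
            · rfl
          rw [this]
          simp
      refine (mul_le_mul_of_nonneg_left e2 (hw0 Z)).trans ?_
      rw [Finset.mul_sum]
      refine Finset.sum_le_sum fun J _ => ?_
      unfold hR
      by_cases hd : Disjoint Z J
      · rw [if_pos hd, if_pos hd]
        by_cases h0 : a (Z ∪ J) = 0
        · rw [h0]
          simp
        · have h3 := hap _ h0
          have h4 : (Z ∪ J).card ≤ t := by
            by_contra h5
            exact h0 (hac _ (by omega))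
          have h7 : w Z / ρ ^ J.card ≤ B * w (Z ∪ J) := by
            rw [hw]
            exact hY.inv_le hρ hd h4 h3
          calc w Z * (a (Z ∪ J) ^ 2 / ρ ^ J.card) = w Z / ρ ^ J.card * a (Z ∪ J) ^ 2 := by ring
            _ ≤ B * w (Z ∪ J) * a (Z ∪ J) ^ 2 :=
                mul_le_mul_of_nonneg_right h7 (sq_nonneg _)
            _ = _ := by ring
      · rw [if_neg hd, if_neg hd]
        simp
    refine (Finset.sum_le_sum fun Z _ => e1 Z).trans ?_
    have e2 := sum_disj t (fun S => B * (w S * a S ^ 2))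
      (fun S => mul_nonneg hB (mul_nonneg (hw0 S) (sq_nonneg _)))
      (fun S hS => by
        rw [hac S hS]
        simp)
    refine e2.trans (le_of_eq ?_)
    rw [← Finset.mul_sum, ← hM]
    ring
  calc η * t * ∑ Z, w Z * ∑ u ∈ range t, n2 (u + 1) (hR a Z) / ρ ^ (u + 1)
      ≤ η * t * (2 ^ t * B * M) :=
        mul_le_mul_of_nonneg_left h2 (mul_nonneg hη0 (Nat.cast_nonneg _))
    _ = η * t * (2 ^ t * B) * M := by ring

/-- the conditions on the parameters -/
structure Sm2 (N : ℕ → ℕ → ℝ) (K σ ρ η m : ℝ) (s t : ℕ) : Prop where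
  hρ : 0 < ρ
  hρ1 : ρ ≤ 1
  hm : 1 ≤ m
  hη : ∀ u w : ℕ, 1 ≤ u → u ≤ t → 1 ≤ w → w ≤ t → N u w * √ρ ^ (u + w) ≤ η
  hη0 : 0 ≤ η
  hη1 : η * t * (2 ^ t * (K ^ (t ^ 2) * (K ^ s) ^ t)) ≤ 1 / 2
  hτ : (K ^ s * s * σ) ^ 2 * ρ ≤ m
  hF : 2 ^ s * (ρ * K ^ (s ^ 2)) * (3 * ((K ^ s) ^ t * (t + 1) * (m ^ t * (2 ^ t *
    (K ^ (t ^ 2) * (K ^ s) ^ t))))) ≤ 1

/-- the form of a link -/
lemma link_main2 {N : ℕ → ℕ → ℝ} {η m : ℝ} {s : ℕ} (hk : KK g K Λ σ) (hsym : ∀ x y, g x y = g y x)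
    (hg0 : ∀ x, g x x = 0)
    (hBB : ∀ u w : ℕ, 1 ≤ u → u ≤ t → 1 ≤ w → w ≤ t → BB g u w (N u w))
    (hS : Sm2 N K σ ρ η m s t) {A : Finset X} (hA : A.card ≤ s)
    (f : Finset X → ℝ) (hf : ∀ S, t < S.card → f S = 0) :
    |∑ S, ∑ T, f S * f T * yp ρ g (gs g A) (S ∪ T) - MM (yp ρ g (gs g A)) f| ≤
      1 / 2 * MM (yp ρ g (gs g A)) f := by
  have hK := hk.K1
  have hK0 : 0 ≤ K := by linarith
  have hY := yp_pm hk hsym hS.hρ.le t (gs g A) (K ^ s) (one_le_pow₀ hK) (gs_nonneg hk A)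
    (gs_le hk hA)
  refine (psd_main2 hY hg0 hS.hρ (by positivity) η hBB hS.hη hS.hη0 f hf).trans ?_
  exact mul_le_mul_of_nonneg_right hS.hη1 (MM_nonneg hY f)

/-- **The conditioned moment matrices of the product ansatz are positive semidefinite.** -/
theorem psd_cond2 {N : ℕ → ℕ → ℝ} {η m : ℝ} {s : ℕ} (hk : KK g K Λ σ) (hsym : ∀ x y, g x y = g y x)
    (hg0 : ∀ x, g x x = 0)
    (hBB : ∀ u w : ℕ, 1 ≤ u → u ≤ t → 1 ≤ w → w ≤ t → BB g u w (N u w))
    (hS : Sm2 N K σ ρ η m s t) (D E : Finset X)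
    (hDE : D.card + E.card ≤ s) (f : Finset X → ℝ) (hf : ∀ S, t < S.card → f S = 0) :
    0 ≤ ∑ S, ∑ T, f S * f T * KP.cond (yy ρ g) D E (S ∪ T) := by
  have hK := hk.K1
  have hK0 : 0 ≤ K := by linarith
  have hn := hk.nonneg
  have hm0 : 0 ≤ m := by linarith [hS.hm]
  by_cases hDEd : Disjoint D E
  swap
  · obtain ⟨x, hx1, hx2⟩ := Finset.not_disjoint_iff.1 hDEd
    refine le_of_eq ?_
    symm
    refine Finset.sum_eq_zero fun S _ => Finset.sum_eq_zero fun T _ => ?_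
    rw [KP.cond_zero (yy ρ g) hx2 (Finset.mem_union_left _ hx1), mul_zero]
  rw [cond_reduce]
  obtain ⟨φ, hφ⟩ : ∃ φ : Finset X → ℝ, φ = rd f D E := ⟨_, rfl⟩
  rw [← hφ]
  have hφc : ∀ S, t < S.card → φ S = 0 := by
    rw [hφ]
    exact rd_card hf D E
  have hφd : ∀ S, ¬ (Disjoint D S ∧ Disjoint E S) → φ S = 0 := by
    rw [hφ]
    exact rd_disj f D E
  obtain ⟨Q, hQ⟩ : ∃ Q : Finset X → ℝ, Q = fun F => ∑ S, ∑ T, φ S * φ T *
      yp ρ g (gs g (D ∪ F)) (S ∪ T) := ⟨_, rfl⟩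
  have h1 : ∑ S, ∑ T, φ S * φ T * KP.cond (yy ρ g) D E (S ∪ T) =
      ∑ F ∈ E.powerset, (-1) ^ F.card * (yy ρ g (D ∪ F) * Q F) := by
    have e1 : ∀ S T : Finset X, φ S * φ T * KP.cond (yy ρ g) D E (S ∪ T) =
        ∑ F ∈ E.powerset, (-1) ^ F.card * (yy ρ g (D ∪ F) * (φ S * φ T *
          yp ρ g (gs g (D ∪ F)) (S ∪ T))) := by
      intro S T
      by_cases h2 : Disjoint D S ∧ Disjoint E S
      · by_cases h3 : Disjoint D T ∧ Disjoint E T
        · unfold KP.cond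
          rw [Finset.mul_sum]
          refine Finset.sum_congr rfl fun F hF => ?_
          have hF' := Finset.mem_powerset.1 hF
          have hd : Disjoint (D ∪ F) (S ∪ T) := by
            rw [Finset.disjoint_union_left, Finset.disjoint_union_right,
              Finset.disjoint_union_right]
            exact ⟨⟨h2.1, h3.1⟩, Finset.disjoint_of_subset_left hF' h2.2,
              Finset.disjoint_of_subset_left hF' h3.2⟩
          rw [yy_link hsym hn hd]
          ring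
        · rw [hφd T h3]
          simp
      · rw [hφd S h2]
        simp
    rw [Finset.sum_congr rfl fun S _ => Finset.sum_congr rfl fun T _ => e1 S T]
    rw [Finset.sum_congr rfl fun S _ => Finset.sum_comm, Finset.sum_comm]
    refine Finset.sum_congr rfl fun F _ => ?_
    rw [hQ, Finset.mul_sum, Finset.mul_sum]
    refine Finset.sum_congr rfl fun S _ => ?_
    rw [Finset.mul_sum, Finset.mul_sum]
  rw [h1]
  have hDc : D.card ≤ s := by omega
  have hcard : ∀ F ∈ E.powerset, (D ∪ F).card ≤ s := by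
    intro F hF
    have h2 := Finset.card_le_card (Finset.mem_powerset.1 hF)
    have h3 := Finset.card_union_le D F
    omega
  obtain ⟨M, hM⟩ : ∃ M : ℝ, M = MM (yp ρ g (gs g D)) φ := ⟨_, rfl⟩
  have hYD := yp_pm hk hsym hS.hρ.le t (gs g D) (K ^ s) (one_le_pow₀ hK) (gs_nonneg hk D)
    (gs_le hk hDc)
  have hM0 : 0 ≤ M := by
    rw [hM]
    exact MM_nonneg hYD φ
  obtain ⟨C, hC⟩ : ∃ C : ℝ, C = (K ^ s) ^ t * (t + 1) * (m ^ t * (2 ^ t *
      (K ^ (t ^ 2) * (K ^ s) ^ t))) := ⟨_, rfl⟩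
  have hC0 : 0 ≤ C := by
    rw [hC]
    positivity
  have h2 : ∀ F ∈ E.powerset, |Q F| ≤ 3 / 2 * (C * M) := by
    intro F hF
    have hFs : F.card ≤ s := by
      have := Finset.card_le_card (Finset.mem_powerset.1 hF)
      omega
    have e1 := link_main2 hk hsym hg0 hBB hS (hcard F hF) φ hφc
    have e2 : MM (yp ρ g (gs g (D ∪ F))) φ ≤ C * M := by
      have hd : Disjoint D F := Finset.disjoint_of_subset_right (Finset.mem_powerset.1 hF) hDEd
      have e3 : yp ρ g (gs g (D ∪ F)) = fun S => yp ρ g (gs g D) S * pq (gs g F) S := by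
        funext S
        unfold yp pq
        have : ∀ x, gs g (D ∪ F) x = gs g D x * gs g F x := by
          intro x
          unfold gs
          rw [Finset.prod_union hd]
        simp_rw [this]
        rw [Finset.prod_mul_distrib]
        ring
      rw [e3, hM, hC]
      exact MM_weight hYD hS.hρ (by positivity) (gs g F) (gs_nonneg hk F) (K ^ s)
        (K ^ s * s * σ) m (one_le_pow₀ hK) (gs_le hk hFs) hS.hm hS.hτ (gs_row hk hsym hFs) φ hφc
    have e4 := MM_nonneg (yp_pm hk hsym hS.hρ.le t (gs g (D ∪ F)) (K ^ s) (one_le_pow₀ hK)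
      (gs_nonneg hk (D ∪ F)) (gs_le hk (hcard F hF))) φ
    have e5 : ∑ S, ∑ T, φ S * φ T * yp ρ g (gs g (D ∪ F)) (S ∪ T) = Q F := by rw [hQ]
    rw [e5, abs_le] at e1
    rw [abs_le]
    constructor <;> linarith [e1.1, e1.2]
  have h3 : 1 / 2 * M ≤ Q ∅ := by
    have e1 := link_main2 hk hsym hg0 hBB hS hDc φ hφc
    have e2 : Q ∅ = ∑ S, ∑ T, φ S * φ T * yp ρ g (gs g D) (S ∪ T) := by
      rw [hQ]
      simp only [Finset.union_empty]
    rw [e2]
    rw [← hM] at e1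
    linarith [(abs_le.1 e1).1]
  have hyD := yy_nonneg hS.hρ.le g D
  have h4 : ∀ F ∈ E.powerset.erase ∅, |(-1) ^ F.card * (yy ρ g (D ∪ F) * Q F)| ≤
      yy ρ g D * (ρ * K ^ (s ^ 2) * (3 / 2 * (C * M))) := by
    intro F hF
    have hF1 := Finset.mem_of_mem_erase hF
    have hF2 : F ≠ ∅ := Finset.ne_of_mem_erase hF
    have hd : Disjoint D F := Finset.disjoint_of_subset_right (Finset.mem_powerset.1 hF1) hDEd
    have e1 : yy ρ g (D ∪ F) ≤ yy ρ g D * (ρ * K ^ (s ^ 2)) := by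
      unfold yy
      have e2 := pr_sub hk hsym hd (hcard F hF1)
      rw [Finset.card_union_of_disjoint hd, pow_add]
      have e3 : ρ ^ F.card ≤ ρ := by
        have : 1 ≤ F.card := Finset.card_pos.2 (Finset.nonempty_iff_ne_empty.2 hF2)
        calc ρ ^ F.card ≤ ρ ^ 1 := pow_le_pow_of_le_one hS.hρ.le hS.hρ1 this
          _ = ρ := pow_one ρ
      have e4 : 0 ≤ ρ ^ D.card := pow_nonneg hS.hρ.le _
      have e5 := pr_nonneg g D
      calc ρ ^ D.card * ρ ^ F.card * pr g (D ∪ F)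
          ≤ ρ ^ D.card * ρ * (K ^ (s ^ 2) * pr g D) :=
            mul_le_mul (mul_le_mul_of_nonneg_left e3 e4) e2 (pr_nonneg g _)
              (mul_nonneg e4 hS.hρ.le)
        _ = _ := by ring
    rw [abs_mul, abs_pow, abs_neg, abs_one, one_pow, one_mul, abs_mul,
      abs_of_nonneg (yy_nonneg hS.hρ.le g _)]
    have e6 := hS.hρ.le
    calc yy ρ g (D ∪ F) * |Q F| ≤ yy ρ g D * (ρ * K ^ (s ^ 2)) * (3 / 2 * (C * M)) :=
          mul_le_mul e1 (h2 F hF1) (abs_nonneg _) (by positivity)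
      _ = _ := by ring
  have h5 : ∑ F ∈ E.powerset, (-1) ^ F.card * (yy ρ g (D ∪ F) * Q F) =
      yy ρ g D * Q ∅ + ∑ F ∈ E.powerset.erase ∅, (-1) ^ F.card * (yy ρ g (D ∪ F) * Q F) := by
    rw [← Finset.add_sum_erase _ _ (Finset.empty_mem_powerset E)]
    simp
  have h6 : |∑ F ∈ E.powerset.erase ∅, (-1) ^ F.card * (yy ρ g (D ∪ F) * Q F)| ≤
      yy ρ g D * (1 / 2 * M) := by
    refine (Finset.abs_sum_le_sum_abs _ _).trans ((Finset.sum_le_sum h4).trans ?_)
    rw [Finset.sum_const, nsmul_eq_mul]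
    have e1 : ((E.powerset.erase ∅).card : ℝ) ≤ 2 ^ s := by
      have e2 : (E.powerset.erase ∅).card ≤ 2 ^ s := by
        refine (Finset.card_erase_le).trans ?_
        rw [Finset.card_powerset]
        exact Nat.pow_le_pow_right (by norm_num) (by omega)
      exact_mod_cast e2
    have e3 := hS.hF
    rw [← hC] at e3
    have e6 := hS.hρ.le
    calc ((E.powerset.erase ∅).card : ℝ) * (yy ρ g D * (ρ * K ^ (s ^ 2) * (3 / 2 * (C * M))))
        ≤ 2 ^ s * (yy ρ g D * (ρ * K ^ (s ^ 2) * (3 / 2 * (C * M)))) :=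
          mul_le_mul_of_nonneg_right e1 (by positivity)
      _ = 1 / 2 * (yy ρ g D * M) * (2 ^ s * (ρ * K ^ (s ^ 2)) * (3 * C)) := by ring
      _ ≤ 1 / 2 * (yy ρ g D * M) * 1 := mul_le_mul_of_nonneg_left e3 (by positivity)
      _ = yy ρ g D * (1 / 2 * M) := by ring
  rw [h5]
  have h7 := mul_le_mul_of_nonneg_left h3 hyD
  linarith [(abs_le.1 h6).1]

end

end Pool.Agent.Y509.LS
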