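import Mathlib
import Pool.Agent.Y509.LS.R3

/-!
Y509/LS (helper509, MP_dbfdb2_gt): the pseudo-probabilities of the product ansatz are nonnegative,
and the choice of the parameters.
-/

set_option autoImplicit false
set_option linter.unusedSectionVars false

namespace Pool.Agent.Y509.LS

open Finset Pool.Agent.Y570 Pool.Agent.Y570.LS

section

variable {X : Type} [Fintype X] [DecidableEq X] {g : X → X → ℝ} {K Λ σ ρ : ℝ}

/-- **The pseudo-probabilities of the product ansatz are nonnegative.** -/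
theorem nonneg_cond {k : ℕ} (hk : KK g K Λ σ) (hsym : ∀ x y, g x y = g y x) (hρ : 0 ≤ ρ)
    (hρ1 : ρ ≤ 1) (h2 : 2 ^ k * (ρ * K ^ (k ^ 2)) ≤ 1) (D E : Finset X)
    (hDE : D.card + E.card ≤ k) : 0 ≤ KP.cond (yy ρ g) D E ∅ := by
  have hK := hk.K1
  have hK0 : 0 ≤ K := by linarith
  by_cases hDEd : Disjoint D E
  swap
  · obtain ⟨x, hx1, hx2⟩ := Finset.not_disjoint_iff.1 hDEd
    rw [KP.cond_zero (yy ρ g) hx2 (Finset.mem_union_left _ hx1)]
  have hcard : ∀ F ∈ E.powerset, (D ∪ F).card ≤ k := by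
    intro F hF
    have h2 := Finset.card_le_card (Finset.mem_powerset.1 hF)
    have h3 := Finset.card_union_le D F
    omega
  have hyD := yy_nonneg hρ g D
  have h4 : ∀ F ∈ E.powerset.erase ∅, |(-1) ^ F.card * yy ρ g (D ∪ F)| ≤
      yy ρ g D * (ρ * K ^ (k ^ 2)) := by
    intro F hF
    have hF1 := Finset.mem_of_mem_erase hF
    have hF2 : F ≠ ∅ := Finset.ne_of_mem_erase hF
    have hd : Disjoint D F := Finset.disjoint_of_subset_right (Finset.mem_powerset.1 hF1) hDEd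
    have e1 : yy ρ g (D ∪ F) ≤ yy ρ g D * (ρ * K ^ (k ^ 2)) := by
      unfold yy
      have e2 := pr_sub hk hsym hd (hcard F hF1)
      rw [Finset.card_union_of_disjoint hd, pow_add]
      have e3 : ρ ^ F.card ≤ ρ := by
        have : 1 ≤ F.card := Finset.card_pos.2 (Finset.nonempty_iff_ne_empty.2 hF2)
        calc ρ ^ F.card ≤ ρ ^ 1 := pow_le_pow_of_le_one hρ hρ1 this
          _ = ρ := pow_one ρ
      have e4 : 0 ≤ ρ ^ D.card := pow_nonneg hρ _
      have e5 := pr_nonneg g D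
      calc ρ ^ D.card * ρ ^ F.card * pr g (D ∪ F)
          ≤ ρ ^ D.card * ρ * (K ^ (k ^ 2) * pr g D) :=
            mul_le_mul (mul_le_mul_of_nonneg_left e3 e4) e2 (pr_nonneg g _)
              (mul_nonneg e4 hρ)
        _ = _ := by ring
    rw [abs_mul, abs_pow, abs_neg, abs_one, one_pow, one_mul,
      abs_of_nonneg (yy_nonneg hρ g _)]
    exact e1
  have h5 : KP.cond (yy ρ g) D E ∅ =
      yy ρ g D + ∑ F ∈ E.powerset.erase ∅, (-1) ^ F.card * yy ρ g (D ∪ F) := by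
    unfold KP.cond
    simp only [Finset.union_empty]
    rw [← Finset.add_sum_erase _ _ (Finset.empty_mem_powerset E)]
    simp
  have h6 : |∑ F ∈ E.powerset.erase ∅, (-1) ^ F.card * yy ρ g (D ∪ F)| ≤ yy ρ g D := by
    refine (Finset.abs_sum_le_sum_abs _ _).trans ((Finset.sum_le_sum h4).trans ?_)
    rw [Finset.sum_const, nsmul_eq_mul]
    have e1 : ((E.powerset.erase ∅).card : ℝ) ≤ 2 ^ k := by
      have e2 : (E.powerset.erase ∅).card ≤ 2 ^ k := by
        refine (Finset.card_erase_le).trans ?_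
        rw [Finset.card_powerset]
        exact Nat.pow_le_pow_right (by norm_num) (by omega)
      exact_mod_cast e2
    calc ((E.powerset.erase ∅).card : ℝ) * (yy ρ g D * (ρ * K ^ (k ^ 2)))
        ≤ 2 ^ k * (yy ρ g D * (ρ * K ^ (k ^ 2))) :=
          mul_le_mul_of_nonneg_right e1 (by positivity)
      _ = yy ρ g D * (2 ^ k * (ρ * K ^ (k ^ 2))) := by ring
      _ ≤ yy ρ g D * 1 := mul_le_mul_of_nonneg_left h2 (by positivity)
      _ = yy ρ g D := by ring
  rw [h5]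
  linarith [(abs_le.1 h6).1]

end

/-- the conditions on the parameters -/
structure Par (K V W G : ℝ) (s t : ℕ) : Prop where
  ht : 1 ≤ t
  K1 : 1 ≤ K
  Kt : K ^ (t ^ 2) ≤ 2
  Ks : (K ^ s) ^ t ≤ 2
  hG : 1 ≤ G
  hV : 0 < V
  hW : ((t : ℝ) + 1) ^ (2 * t) * (6528 * G) ^ t ≤ W
  big1 : G * (2 ^ (s + 2 * t) * K ^ ((s + 2 * t) ^ 2)) ≤ V
  big2 : G * (2 ^ s * K ^ (s ^ 2) * (3 * (2 * (t + 1) * ((136 * (s + 1) ^ 2 * G) ^ t *
    (2 ^ t * 4))))) ≤ V

section

variable {K V W G : ℝ} {s t : ℕ}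

lemma Par.W1 (h : Par K V W G s t) : 1 ≤ W := by
  have hG := h.hG
  have h1 : (1 : ℝ) ≤ ((t : ℝ) + 1) ^ (2 * t) :=
    one_le_pow₀ (by linarith [(Nat.cast_nonneg t : (0 : ℝ) ≤ t)])
  have h2 : (1 : ℝ) ≤ (6528 * G) ^ t := one_le_pow₀ (by linarith)
  have h3 : (1 : ℝ) ≤ ((t : ℝ) + 1) ^ (2 * t) * (6528 * G) ^ t := by nlinarith
  exact h3.trans h.hW

lemma Par.KsT (h : Par K V W G s t) : K ^ s ≤ 2 := by
  have h1 : K ^ s ≤ (K ^ s) ^ t := by
    calc K ^ s = (K ^ s) ^ 1 := (pow_one _).symm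
      _ ≤ (K ^ s) ^ t := pow_le_pow_right₀ (one_le_pow₀ h.K1) h.ht
  exact h1.trans h.Ks

lemma Par.Kt' (h : Par K V W G s t) : K ^ t ≤ 2 := by
  refine le_trans (pow_le_pow_right₀ h.K1 ?_) h.Kt
  have := h.ht
  nlinarith

/-- the norms of the alternating sums -/
noncomputable def et (W G : ℝ) (t : ℕ) : ℝ :=
  ((t : ℝ) + 1) ^ t * (6 * ((t : ℝ) + 1)) ^ t * (34 * G) ^ t / W

lemma Par.eta0 (h : Par K V W G s t) : 0 ≤ et W G t := by
  have := h.W1
  have := h.hG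
  unfold et
  positivity

lemma Par.rho1 (h : Par K V W G s t) : G / V ≤ 1 := by
  rw [div_le_one h.hV]
  refine le_trans ?_ h.big1
  have h1 : (1 : ℝ) ≤ 2 ^ (s + 2 * t) := one_le_pow₀ (by norm_num)
  have h2 : (1 : ℝ) ≤ K ^ ((s + 2 * t) ^ 2) := one_le_pow₀ h.K1
  have h3 : (1 : ℝ) ≤ 2 ^ (s + 2 * t) * K ^ ((s + 2 * t) ^ 2) := by nlinarith
  nlinarith [h.hG]

lemma Par.eta (h : Par K V W G s t) (u w : ℕ) (hu : 1 ≤ u) (hut : u ≤ t) (hw : 1 ≤ w)
    (hwt : w ≤ t) :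
    Nv K (14 * V / W) √(34 * V) t u w * √(G / V) ^ (u + w) ≤ et W G t := by
  have hW1 := h.W1
  have hG := h.hG
  have hV := h.hV
  have hK := h.K1
  obtain ⟨a, ha⟩ : ∃ a : ℝ, a = √(34 * G) := ⟨_, rfl⟩
  have ha0 : 0 ≤ a := by rw [ha]; positivity
  have ha2 : a ^ 2 = 34 * G := by rw [ha, Real.sq_sqrt (by positivity)]
  have ha1 : 1 ≤ a := by
    rw [ha, Real.one_le_sqrt]
    linarith
  have h1 : √(34 * V) * √(G / V) = a := by
    rw [ha, ← Real.sqrt_mul (by positivity)]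
    congr 1
    field_simp
  have h2 : √(34 * V) ^ ((u - 1) + (w - 1)) * √(G / V) ^ (u + w) =
      a ^ ((u - 1) + (w - 1)) * (G / V) := by
    have e : u + w = ((u - 1) + (w - 1)) + 2 := by omega
    rw [e, pow_add √(G / V), Real.sq_sqrt (by positivity), ← mul_assoc, ← mul_pow, h1]
  unfold Nv
  rw [if_neg (by omega)]
  have h3 : √(w.factorial : ℝ) ≤ ((t : ℝ) + 1) ^ t := by
    have e1 : (w.factorial : ℝ) ≤ ((t : ℝ) + 1) ^ t := by
      have e2 : w.factorial ≤ (t + 1) ^ t := by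
        calc w.factorial ≤ t.factorial := Nat.factorial_le hwt
          _ ≤ t ^ t := Nat.factorial_le_pow t
          _ ≤ (t + 1) ^ t := Nat.pow_le_pow_left (Nat.le_succ t) t
      exact_mod_cast e2
    have e3 : (1 : ℝ) ≤ ((t : ℝ) + 1) ^ t :=
      one_le_pow₀ (by linarith [(Nat.cast_nonneg t : (0 : ℝ) ≤ t)])
    rw [Real.sqrt_le_left (by positivity)]
    nlinarith
  have h4 : ca K t ^ u ≤ (6 * ((t : ℝ) + 1)) ^ t := by
    have e1 : ca K t ≤ 6 * ((t : ℝ) + 1) := by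
      unfold ca
      have e2 := h.Kt'
      have e3 : (0 : ℝ) ≤ t := Nat.cast_nonneg t
      nlinarith
    calc ca K t ^ u ≤ ca K t ^ t := pow_le_pow_right₀ (ca_one hK t) hut
      _ ≤ _ := pow_le_pow_left₀ (by linarith [ca_one hK t]) e1 t
  have h5 : a ^ ((u - 1) + (w - 1)) ≤ (34 * G) ^ (t - 1) := by
    rw [← ha2, ← pow_mul]
    exact pow_le_pow_right₀ ha1 (by omega)
  have h6 : (34 * G) ^ t = (34 * G) ^ (t - 1) * (34 * G) := by
    rw [← pow_succ]
    congr 1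
    have := h.ht
    omega
  have hca0 : 0 ≤ ca K t := by linarith [ca_one hK t]
  calc √(w.factorial : ℝ) * ca K t ^ u * (14 * V / W) * √(34 * V) ^ ((u - 1) + (w - 1)) *
        √(G / V) ^ (u + w)
      = √(w.factorial : ℝ) * ca K t ^ u * (14 * V / W) * (√(34 * V) ^ ((u - 1) + (w - 1)) *
        √(G / V) ^ (u + w)) := by ring
    _ = √(w.factorial : ℝ) * ca K t ^ u * (14 * V / W) * (a ^ ((u - 1) + (w - 1)) * (G / V)) := by
        rw [h2]
    _ = √(w.factorial : ℝ) * ca K t ^ u * a ^ ((u - 1) + (w - 1)) * (14 * G / W) := by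
        field_simp
    _ ≤ ((t : ℝ) + 1) ^ t * (6 * ((t : ℝ) + 1)) ^ t * (34 * G) ^ (t - 1) * (34 * G / W) := by
        gcongr
        norm_num
    _ = et W G t := by
        unfold et
        rw [h6]
        ring

lemma Par.sm2 (h : Par K V W G s t) :
    Sm2 (Nv K (14 * V / W) √(34 * V) t) K √(34 * V) (G / V) (et W G t)
      (136 * (s + 1) ^ 2 * G) s t := by
  have hW1 := h.W1
  have hG := h.hG
  have hV := h.hV
  have hK := h.K1
  have ht := h.ht
  have hs0 : (0 : ℝ) ≤ s := Nat.cast_nonneg s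
  have ht0 : (1 : ℝ) ≤ t := by exact_mod_cast ht
  refine ⟨by positivity, h.rho1, ?_, h.eta, h.eta0, ?_, ?_, ?_⟩
  · nlinarith
  · have h1 : et W G t * t * (2 ^ t * (K ^ (t ^ 2) * (K ^ s) ^ t)) ≤
        et W G t * t * (2 ^ t * (2 * 2)) := by
      have := h.eta0
      have := h.Kt
      have := h.Ks
      gcongr
    refine h1.trans ?_
    have h2 : (t : ℝ) * (2 ^ t * (2 * 2)) * 2 ≤ 32 ^ t := by
      have e1 : (t : ℝ) ≤ 2 ^ t := by
        exact_mod_cast (Nat.lt_two_pow_self (n := t)).le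
      have e2 : (8 : ℝ) ≤ 8 ^ t := by
        calc (8 : ℝ) = 8 ^ 1 := (pow_one _).symm
          _ ≤ 8 ^ t := pow_le_pow_right₀ (by norm_num) ht
      have e3 : (32 : ℝ) ^ t = 2 ^ t * 2 ^ t * 8 ^ t := by
        rw [← mul_pow, ← mul_pow]
        norm_num
      rw [e3]
      calc (t : ℝ) * (2 ^ t * (2 * 2)) * 2 = t * 2 ^ t * 8 := by ring
        _ ≤ 2 ^ t * 2 ^ t * 8 ^ t := by gcongr
    have h3 : et W G t * W = ((t : ℝ) + 1) ^ (2 * t) * (204 * G) ^ t := by
      unfold et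
      rw [div_mul_cancel₀ _ (by positivity)]
      rw [show (6 * ((t : ℝ) + 1)) ^ t = 6 ^ t * ((t : ℝ) + 1) ^ t from mul_pow _ _ _,
        show (34 * G) ^ t = 34 ^ t * G ^ t from mul_pow _ _ _,
        show (204 * G) ^ t = 204 ^ t * G ^ t from mul_pow _ _ _, pow_mul', sq]
      rw [show (204 : ℝ) ^ t = 6 ^ t * 34 ^ t by rw [← mul_pow]; norm_num]
      ring
    have h4 : et W G t * W * 32 ^ t ≤ W := by
      rw [h3]
      refine le_trans (le_of_eq ?_) h.hW
      rw [mul_assoc, ← mul_pow]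
      congr 2
      ring
    have h5 : et W G t * 32 ^ t ≤ 1 := by
      have h6 : (et W G t * 32 ^ t) * W ≤ 1 * W := by
        calc (et W G t * 32 ^ t) * W = et W G t * W * 32 ^ t := by ring
          _ ≤ W := h4
          _ = 1 * W := by ring
      exact le_of_mul_le_mul_right h6 (by linarith)
    have h7 : et W G t * ((t : ℝ) * (2 ^ t * (2 * 2)) * 2) ≤ 1 :=
      (mul_le_mul_of_nonneg_left h2 h.eta0).trans h5
    linarith
  · have h1 : (K ^ s * s * √(34 * V)) ^ 2 * (G / V) = (K ^ s * s) ^ 2 * (34 * G) := by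
      rw [mul_pow, Real.sq_sqrt (by positivity)]
      field_simp
    rw [h1]
    have h2 : (K ^ s * s) ^ 2 ≤ (2 * (s + 1)) ^ 2 := by
      have e1 := h.KsT
      have e2 : 0 ≤ K ^ s := by positivity
      refine pow_le_pow_left₀ (by positivity) ?_ 2
      nlinarith
    nlinarith
  · have h1 : 2 ^ s * (G / V * K ^ (s ^ 2)) * (3 * ((K ^ s) ^ t * (t + 1) *
        ((136 * (s + 1) ^ 2 * G) ^ t * (2 ^ t * (K ^ (t ^ 2) * (K ^ s) ^ t))))) ≤
        2 ^ s * (G / V * K ^ (s ^ 2)) * (3 * (2 * (t + 1) *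
        ((136 * (s + 1) ^ 2 * G) ^ t * (2 ^ t * (2 * 2))))) := by
      have := h.Kt
      have := h.Ks
      gcongr
    refine h1.trans ?_
    have h2 := h.big2
    rw [← div_le_one hV] at h2
    refine le_trans (le_of_eq ?_) h2
    ring

end

end Pool.Agent.Y509.LS
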