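import Mathlib
import Pool.Agent.Y509.LS.K12
import Pool.Agent.Y509.LS.R4
import Pool.Agent.Y509.KP.Grid

/-!
Y509/LS (helper509, MP_dbfdb2_gt): pseudo-packings of the Lasserre hierarchy with a large density.
-/

set_option autoImplicit false

open MeasureTheory Metric Filter Topology

namespace Pool.Agent.Y509.LS

open Pool.Agent.Y570 Pool.Agent.Y570.LS

variable {d : ℕ}

open Classical in
/-- pseudo-packings of level `(s, t)` on the finite set `X` -/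
structure LPack (n s t : ℕ) (X : Finset (E n)) (y : Finset X → ℝ) : Prop where
  one : y ∅ = 1
  sep : ∀ S : Finset X, ∀ u ∈ S, ∀ v ∈ S, u ≠ v → dist (u : E n) v < 1 → y S = 0
  nonneg : ∀ D F : Finset X, D.card + F.card ≤ s + 2 * t → 0 ≤ KP.cond y D F ∅
  psd : ∀ D F : Finset X, D.card + F.card ≤ s → ∀ a : Finset X → ℝ,
    (∀ S, t < S.card → a S = 0) → 0 ≤ ∑ S, ∑ T, a S * a T * KP.cond y D F (S ∪ T)

/-- `B` bounds the size of all pseudo-packings of level `(s, t)` on finite subsets of `Λ` -/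
def LBd (n s t : ℕ) (Λ : Set (E n)) (B : ℝ) : Prop :=
  ∀ X : Finset (E n), (X : Set (E n)) ⊆ Λ → ∀ y : Finset X → ℝ, LPack n s t X y → ∑ x, y {x} ≤ B

lemma kk_mono {X : Type} [Fintype X] {g : X → X → ℝ} {K Λ σ Λ' σ' : ℝ} (h : KK g K Λ σ)
    (h1 : Λ ≤ Λ') (h2 : σ ≤ σ') : KK g K Λ' σ' := by
  have hs : σ ^ 2 ≤ σ' ^ 2 := pow_le_pow_left₀ h.hσ h2 2
  have hl : Λ ^ 2 ≤ Λ' ^ 2 := pow_le_pow_left₀ h.hΛ h1 2
  refine ⟨h.K1, h.hΛ.trans h1, h.hσ.trans h2, h.nonneg, h.le, fun a => (h.row a).trans hs,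
    fun c => (h.col c).trans hs, fun f => (h.spec f).trans ?_⟩
  exact mul_le_mul_of_nonneg_right hl (Finset.sum_nonneg fun _ _ => sq_nonneg _)

/-- the product ansatz on a fine grid -/
lemma lpack_of {r K W G f : ℝ} {s t : ℕ} {g : E d → ℝ} (hg : GK d r K g) (hr : 0 < r)
    (hWdef : W = r ^ d * V1 d) {X : Finset (E d)} {F : Set (E d)} {δ : ℝ} (hF : MeasurableSet F)
    (hFt : volume F ≠ ⊤) (hf : f = volume.real F) (hF0 : 0 < f)
    (hFδ : F ⊆ closedBall 0 δ) (hD : Dis F X) (hδ : 0 < δ) (hδ2 : (1 + 2 * δ) ^ d ≤ 2)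
    (hP : Par K (V1 d / f) W G s t) :
    ∃ y : Finset X → ℝ, LPack d s t X y ∧ ∀ x, y {x} = G * f / V1 d := by
  classical
  have hV1 := V1_pos d
  obtain ⟨V, hV⟩ : ∃ V : ℝ, V = V1 d / f := ⟨_, rfl⟩
  rw [← hV] at hP
  have hV0 := hP.hV
  have hW1 := hP.W1
  have hG := hP.hG
  have hrd : 0 < r ^ d := by positivity
  obtain ⟨c, hc⟩ : ∃ c : ℝ, c = r / (1 + 2 * δ) := ⟨_, rfl⟩
  have hc0 : 0 < c := by rw [hc]; positivity
  have hrc : r / c = 1 + 2 * δ := by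
    rw [hc]
    field_simp
  have hcd : (c ^ d)⁻¹ ≤ 2 / r ^ d := by
    rw [hc, div_pow, inv_div]
    gcongr
  have hS := hg.scale hc0
  rw [hrc] at hS
  obtain ⟨g', hg'⟩ : ∃ g' : E d → ℝ, g' = fun x => g (c • x) := ⟨_, rfl⟩
  rw [← hg'] at hS
  have hcd0 : 0 < c ^ d := by positivity
  have hF0' : 0 < volume.real F := by rw [← hf]; exact hF0
  have hk1 := kk_of hS hF hFt hF0' hFδ hD hP.K1 (by positivity) (by positivity)
  rw [← hf] at hk1
  have hk : KK (fun x y : X => 1 + gX F g' (x : E d) (y : E d)) K (14 * V / W) √(34 * V) := by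
    refine kk_mono hk1 ?_ ?_
    · calc 7 * (c ^ d)⁻¹ / f ≤ 7 * (2 / r ^ d) / f := by gcongr
        _ = 14 * V / W := by
            rw [hV, hWdef]
            field_simp
            norm_num
    · refine Real.sqrt_le_sqrt ?_
      calc 17 * (r ^ d * V1 d) * (c ^ d)⁻¹ / f ≤ 17 * (r ^ d * V1 d) * (2 / r ^ d) / f := by gcongr
        _ = 34 * V := by
            rw [hV]
            field_simp
            norm_num
  have hΛσ : 14 * V / W ≤ √(34 * V) ^ 2 := by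
    rw [Real.sq_sqrt (by positivity), div_le_iff₀ (by linarith)]
    nlinarith
  have hsym : ∀ x y : X, 1 + gX F g' (x : E d) (y : E d) = 1 + gX F g' (y : E d) (x : E d) := by
    intro x y
    rw [gX_symm hS]
  have hg0 : ∀ x : X, 1 + gX F g' (x : E d) (x : E d) = 0 := by
    intro x
    rw [gX_core hS hF hF0' hFδ (by rw [dist_self]; linarith)]
    norm_num
  refine ⟨yy (G / V) fun x y : X => 1 + gX F g' (x : E d) (y : E d), ⟨?_, ?_, ?_, ?_⟩, ?_⟩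
  · unfold yy pr
    simp
  · intro S u hu v hv huv hlt
    have h1 : gX F g' (u : E d) (v : E d) = -1 :=
      gX_core hS hF hF0' hFδ (by linarith)
    unfold yy pr
    rw [Finset.prod_eq_zero (i := (u, v)), mul_zero]
    · exact Finset.mem_offDiag.2 ⟨hu, hv, huv⟩
    · dsimp only
      rw [h1]
      norm_num
  · intro D E hDE
    refine nonneg_cond hk hsym (by positivity) hP.rho1 ?_ D E hDE
    have h2 := hP.big1
    rw [← div_le_one hV0] at h2
    refine le_trans (le_of_eq ?_) h2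
    ring
  · intro D E hDE a ha
    refine psd_cond2 hk hsym hg0 (N := Nv K (14 * V / W) √(34 * V) t) (fun u w hu hut hw hwt => ?_)
      hP.sm2 D E hDE a ha
    obtain ⟨u', rfl⟩ : ∃ u', u = u' + 1 := ⟨u - 1, by omega⟩
    exact BB_all2 hk hΛσ t u' w hwt
  · intro x
    unfold yy pr
    rw [Finset.card_singleton, pow_one, Finset.offDiag_singleton, Finset.prod_empty, mul_one, hV]
    field_simp

theorem barrier1 (hd : 0 < d) {r K W G : ℝ} {s t : ℕ} {g : E d → ℝ} (hg : GK d r K g) (hr : 0 < r)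
    (hWdef : W = r ^ d * V1 d) (ht : 1 ≤ t) (K1 : 1 ≤ K) (Kt : K ^ (t ^ 2) ≤ 2)
    (Ks : (K ^ s) ^ t ≤ 2) (hG : 1 ≤ G)
    (hW : ((t : ℝ) + 1) ^ (2 * t) * (6528 * G) ^ t ≤ W)
    {Λ : Set (E d)} (hΛ : MeasurableSet Λ) (hb : Bornology.IsBounded Λ) {B : ℝ}
    (hB : LBd d s t Λ B) : G * volume.real Λ ≤ B * V1 d := by
  have hV1 := V1_pos d
  obtain ⟨A₁, hA₁⟩ : ∃ A : ℝ, A = G * (2 ^ (s + 2 * t) * K ^ ((s + 2 * t) ^ 2)) := ⟨_, rfl⟩
  obtain ⟨A₂, hA₂⟩ : ∃ A : ℝ, A = G * (2 ^ s * K ^ (s ^ 2) * (3 * (2 * (t + 1) *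
    ((136 * (s + 1) ^ 2 * G) ^ t * (2 ^ t * 4))))) := ⟨_, rfl⟩
  have e1 : ∀ᶠ δ : ℝ in 𝓝[>] 0, (1 + 2 * δ) ^ d < 2 := by
    have h1 : Tendsto (fun δ : ℝ => (1 + 2 * δ) ^ d) (𝓝[>] 0) (𝓝 ((1 + 2 * 0) ^ d)) :=
      (Continuous.tendsto (by fun_prop) _).mono_left nhdsWithin_le_nhds
    rw [mul_zero, add_zero, one_pow] at h1
    exact h1.eventually (gt_mem_nhds (by norm_num))
  have e2 : ∀ A : ℝ, ∀ᶠ δ : ℝ in 𝓝[>] 0, A * δ ^ d < 1 := by
    intro A
    have h1 : Tendsto (fun δ : ℝ => A * δ ^ d) (𝓝[>] 0) (𝓝 (A * 0 ^ d)) :=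
      (Continuous.tendsto (by fun_prop) _).mono_left nhdsWithin_le_nhds
    rw [zero_pow hd.ne', mul_zero] at h1
    exact h1.eventually (gt_mem_nhds (by norm_num))
  obtain ⟨δ, h1, h2, h3, hδ⟩ := (e1.and ((e2 A₁).and ((e2 A₂).and self_mem_nhdsWithin))).exists
  have hδ0 : 0 < δ := hδ
  obtain ⟨X, F, hXΛ, hF, hF0, hFt, hFδ, hdis, hcard⟩ :=
    Pool.Agent.Y509.KP.exists_grid hΛ hb hδ0
  obtain ⟨f, hf⟩ : ∃ f : ℝ, f = volume.real F := ⟨_, rfl⟩
  rw [← hf] at hF0 hcard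
  have hfδ : f ≤ δ ^ d * V1 d := by
    rw [hf, ← vol_cb hδ0.le]
    exact measureReal_mono hFδ (isCompact_closedBall _ _).measure_lt_top.ne
  have hbig : ∀ A : ℝ, A * δ ^ d < 1 → A ≤ V1 d / f := by
    intro A hA
    rw [le_div_iff₀ hF0]
    rcases le_or_gt A 0 with h | h
    · nlinarith
    · calc A * f ≤ A * (δ ^ d * V1 d) := mul_le_mul_of_nonneg_left hfδ h.le
        _ = A * δ ^ d * V1 d := by ring
        _ ≤ 1 * V1 d := mul_le_mul_of_nonneg_right hA.le hV1.le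
        _ = V1 d := one_mul _
  have hP : Par K (V1 d / f) W G s t := by
    refine ⟨ht, K1, Kt, Ks, hG, by positivity, hW, ?_, ?_⟩
    · rw [← hA₁]
      exact hbig _ h2
    · rw [← hA₂]
      exact hbig _ h3
  obtain ⟨y, hy, hy1⟩ := lpack_of hg hr hWdef hF hFt hf hF0 hFδ hdis hδ0 h1.le hP
  have h4 := hB X hXΛ y hy
  simp_rw [hy1] at h4
  rw [Finset.sum_const, nsmul_eq_mul, Finset.card_univ, Fintype.card_coe] at h4
  have h5 : (X.card : ℝ) * (G * f / V1 d) * V1 d = G * (X.card * f) := by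
    field_simp
  calc G * volume.real Λ ≤ G * (X.card * f) := mul_le_mul_of_nonneg_left hcard (by linarith)
    _ = (X.card : ℝ) * (G * f / V1 d) * V1 d := h5.symm
    _ ≤ B * V1 d := mul_le_mul_of_nonneg_right h4 hV1.le

end Pool.Agent.Y509.LS
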