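import Mathlib
import Pool.Agent.Y509.LS.B1
import Pool.Agent.Y509.KP.Val

/-!
Y509/LS (helper509, MP_dbfdb2_gt): the hierarchy, its validity and its monotonicity.
-/

set_option autoImplicit false

open MeasureTheory Metric Filter Topology

namespace Pool.Agent.Y509.LS

open Pool.Agent.Y570 Pool.Agent.Y570.LS Pool.Agent.H818R2

section

variable {ι X : Type} [Fintype ι] [Fintype X] [DecidableEq X]

lemma push1 (m : ι → Finset X) (b : ι → ℝ) (ψ : Finset X → ℝ) :
    ∑ S, (∑ i, if m i = S then b i else 0) * ψ S = ∑ i, b i * ψ (m i) := by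
  simp_rw [Finset.sum_mul]
  rw [Finset.sum_comm]
  refine Finset.sum_congr rfl fun i _ => ?_
  simp

/-- the form of a pushforward -/
lemma push (m : ι → Finset X) (b : ι → ℝ) (φ : Finset X → ℝ) :
    ∑ S, ∑ T, (∑ i, if m i = S then b i else 0) * (∑ j, if m j = T then b j else 0) * φ (S ∪ T) =
      ∑ i, ∑ j, b i * b j * φ (m i ∪ m j) := by
  have h1 : ∀ S : Finset X, ∑ T, (∑ i, if m i = S then b i else 0) *
      (∑ j, if m j = T then b j else 0) * φ (S ∪ T) =
      (∑ i, if m i = S then b i else 0) * ∑ j, b j * φ (S ∪ m j) := by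
    intro S
    rw [← push1 m b fun T => φ (S ∪ T), Finset.mul_sum]
    refine Finset.sum_congr rfl fun T _ => ?_
    ring
  rw [Finset.sum_congr rfl fun S _ => h1 S, push1 m b fun S => ∑ j, b j * φ (S ∪ m j)]
  refine Finset.sum_congr rfl fun i _ => ?_
  rw [Finset.mul_sum]
  refine Finset.sum_congr rfl fun j _ => ?_
  ring

lemma push_card (m : ι → Finset X) (b : ι → ℝ) {t : ℕ} (h : ∀ i, t < (m i).card → b i = 0)
    (S : Finset X) (hS : t < S.card) : (∑ i, if m i = S then b i else 0) = 0 := by
  refine Finset.sum_eq_zero fun i _ => ?_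
  split_ifs with h1
  · exact h i (by rw [h1]; exact hS)
  · rfl

lemma cond_insert_left (y : Finset X → ℝ) (D F : Finset X) (x : X) (S : Finset X) :
    KP.cond y (insert x D) F S = KP.cond y D F (insert x S) := by
  unfold KP.cond
  refine Finset.sum_congr rfl fun G _ => ?_
  rw [Finset.insert_union, Finset.insert_union, Finset.union_insert]

lemma cond_insert_right (y : Finset X → ℝ) (D : Finset X) {F : Finset X} {x : X} (hx : x ∉ F)
    (S : Finset X) :
    KP.cond y D (insert x F) S = KP.cond y D F S - KP.cond y D F (insert x S) := by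
  unfold KP.cond
  rw [Finset.sum_powerset_insert hx, sub_eq_add_neg, ← Finset.sum_neg_distrib]
  congr 1
  refine Finset.sum_congr rfl fun G hG => ?_
  have hxG : x ∉ G := fun h => hx (Finset.mem_powerset.1 hG h)
  rw [Finset.card_insert_of_notMem hxG, Finset.union_insert, Finset.insert_union,
    Finset.union_insert]
  ring

end

variable {n s t : ℕ}

lemma lpack_s {X : Finset (E n)} {y : Finset X → ℝ} (h : LPack n (s + 1) t X y) :
    LPack n s t X y :=
  ⟨h.one, h.sep, fun D F hDF => h.nonneg D F (by omega), fun D F hDF => h.psd D F (by omega)⟩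

lemma lpack_st {X : Finset (E n)} {y : Finset X → ℝ} (h : LPack n s (t + 1) X y) :
    LPack n (s + 1) t X y := by
  classical
  refine ⟨h.one, h.sep, fun D F hDF => h.nonneg D F (by omega), fun D F hDF a ha => ?_⟩
  rcases Nat.lt_or_ge s (D.card + F.card) with h1 | h1
  swap
  · exact h.psd D F h1 a fun S hS => ha S (by omega)
  rcases Finset.eq_empty_or_nonempty D with h2 | ⟨x, hx⟩
  · rcases Finset.eq_empty_or_nonempty F with h3 | ⟨x, hx⟩
    · rw [h2, h3] at h1
      simp at h1
    · obtain ⟨F', hF', rfl⟩ : ∃ F', x ∉ F' ∧ insert x F' = F :=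
        ⟨F.erase x, Finset.notMem_erase x F, Finset.insert_erase hx⟩
      rw [Finset.card_insert_of_notMem hF'] at hDF
      have h4 := h.psd D F' (by omega) (fun S => ∑ i : Bool × Finset X,
        if (if i.1 then insert x i.2 else i.2) = S then (if i.1 then -a i.2 else a i.2) else 0)
        (push_card _ _ fun i hi => by
          have h5 : t < i.2.card := by
            by_cases h6 : i.1
            · rw [if_pos h6] at hi
              have := Finset.card_insert_le x i.2
              omega
            · rw [if_neg h6] at hi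
              omega
          rw [ha _ h5]
          simp)
      rw [push (fun i : Bool × Finset X => if i.1 then insert x i.2 else i.2)
        (fun i => if i.1 then -a i.2 else a i.2)] at h4
      refine h4.trans (le_of_eq ?_)
      rw [Fintype.sum_prod_type, Fintype.sum_bool]
      simp only [Fintype.sum_prod_type, Fintype.sum_bool, if_true, Bool.false_eq_true, if_false]
      rw [← Finset.sum_add_distrib]
      refine Finset.sum_congr rfl fun S _ => ?_
      rw [← Finset.sum_add_distrib, ← Finset.sum_add_distrib, ← Finset.sum_add_distrib]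
      refine Finset.sum_congr rfl fun T _ => ?_
      rw [cond_insert_right y D hF']
      have e1 : insert x S ∪ insert x T = insert x (S ∪ T) := by
        rw [Finset.insert_union, Finset.union_insert, Finset.insert_idem]
      rw [e1, Finset.insert_union, Finset.union_insert]
      ring
  · obtain ⟨D', hD', rfl⟩ : ∃ D', x ∉ D' ∧ insert x D' = D :=
      ⟨D.erase x, Finset.notMem_erase x D, Finset.insert_erase hx⟩
    rw [Finset.card_insert_of_notMem hD'] at hDF
    have h4 := h.psd D' F (by omega) (fun S => ∑ i : Finset X, if insert x i = S then a i else 0)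
      (push_card _ _ fun i hi => by
        have := Finset.card_insert_le x i
        exact ha _ (by omega))
    rw [push (fun i : Finset X => insert x i) a] at h4
    refine h4.trans (le_of_eq ?_)
    refine Finset.sum_congr rfl fun S _ => Finset.sum_congr rfl fun T _ => ?_
    rw [cond_insert_left, Finset.insert_union, Finset.union_insert, Finset.insert_idem]

lemma lbd_s {Λ : Set (E n)} {B : ℝ} (h : LBd n s t Λ B) : LBd n (s + 1) t Λ B :=
  fun X hX y hy => h X hX y (lpack_s hy)

lemma lbd_st {Λ : Set (E n)} {B : ℝ} (h : LBd n (s + 1) t Λ B) : LBd n s (t + 1) Λ B :=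
  fun X hX y hy => h X hX y (lpack_st hy)

lemma lpack_one {X : Finset (E n)} (hX : ∀ x ∈ X, ∀ z ∈ X, x ≠ z → 1 ≤ dist x z) :
    LPack n s t X (fun _ => 1) := by
  classical
  have h1 : ∀ D F S : Finset X, KP.cond (fun _ => (1 : ℝ)) D F S = if F = ∅ then 1 else 0 := by
    intro D F S
    unfold KP.cond
    simp only [mul_one]
    have h2 := Finset.sum_powerset_neg_one_pow_card (x := F)
    have h3 : ∑ m ∈ F.powerset, (-1 : ℝ) ^ m.card =
        ((∑ m ∈ F.powerset, (-1 : ℤ) ^ m.card : ℤ) : ℝ) := by
      push_cast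
      rfl
    rw [h3, h2]
    split_ifs <;> simp
  refine ⟨rfl, fun S u _ v _ huv h => ?_, fun D F _ => ?_, fun D F _ a _ => ?_⟩
  · have := hX u u.2 v v.2 (fun h' => huv (Subtype.ext h'))
    linarith
  · rw [h1]
    split_ifs <;> norm_num
  · simp only [h1]
    have h4 : ∑ s, ∑ t, a s * a t * (if F = ∅ then (1 : ℝ) else 0) =
        (∑ s, a s) ^ 2 * (if F = ∅ then (1 : ℝ) else 0) := by
      rw [sq, Finset.sum_mul_sum, Finset.sum_mul]
      refine Finset.sum_congr rfl fun s _ => ?_
      rw [Finset.sum_mul]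
    rw [h4]
    split_ifs <;> positivity

lemma lbd_card {Λ : Set (E n)} {B : ℝ} (h : LBd n s t Λ B) {C : Finset (E n)}
    (hC : (C : Set (E n)) ⊆ Λ) (hs : ∀ x ∈ C, ∀ z ∈ C, x ≠ z → 1 ≤ dist x z) : (C.card : ℝ) ≤ B := by
  have h1 := h C hC (fun _ => 1) (lpack_one hs)
  simpa using h1

lemma lbd_nonneg {Λ : Set (E n)} {B : ℝ} (h : LBd n s t Λ B) : 0 ≤ B := by
  have := lbd_card h (C := ∅) (by simp) (by simp)
  simpa using this

/-- a small ball -/
lemma small (ht : 1 ≤ t) : LBd n s t (Metric.ball (0 : E n) (1 / 2)) 1 := by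
  classical
  intro X hX y hy
  have h1 := hy.psd ∅ ∅ (by simp) (fun S => ∑ o : Option X, if o.toFinset = S then
    (o.elim (-1) fun _ => 1) else 0) (push_card _ _ fun o ho => by
      exfalso
      rcases o with _ | x
      · simp at ho
      · simp only [Option.toFinset_some, Finset.card_singleton] at ho
        omega)
  rw [push (fun o : Option X => o.toFinset) (fun o => o.elim (-1) fun _ => 1)] at h1
  have h0 : ∀ S : Finset X, KP.cond y ∅ ∅ S = y S := by
    intro S
    unfold KP.cond
    simp
  simp only [Fintype.sum_option, Option.elim_none, Option.elim_some, h0,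
    Option.toFinset_some, Option.toFinset_none, Finset.empty_union, Finset.union_empty,
    hy.one] at h1
  have h2 : ∀ x z : X, y ({x} ∪ {z}) = if z = x then y {x} else 0 := by
    intro x z
    split_ifs with h
    · rw [h, Finset.union_self]
    · refine hy.sep _ x (by simp) z (by simp) (Ne.symm h) ?_
      have hx := Metric.mem_ball.1 (hX x.2)
      have hz := Metric.mem_ball.1 (hX z.2)
      calc dist (x : E n) z ≤ dist (x : E n) 0 + dist (z : E n) 0 := dist_triangle_right _ _ _
        _ < 1 := by linarith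
  simp only [h2, mul_ite, mul_zero, Finset.sum_ite_eq', Finset.mem_univ, if_true] at h1
  have h3 : ∑ x : X, -1 * 1 * y {x} = -∑ x : X, y {x} := by
    rw [← Finset.mul_sum]
    ring
  have h4 : ∑ x : X, (1 * -1 * y {x} + 1 * 1 * y {x}) = 0 := by
    refine Finset.sum_eq_zero fun x _ => ?_
    ring
  rw [h3, h4] at h1
  linarith

/-- the densities of the hierarchy -/
def lset (n s t : ℕ) : Set ℝ := {δ : ℝ | ∃ (Λ : Set (E n)) (B : ℝ), MeasurableSet Λ ∧
  Bornology.IsBounded Λ ∧ 0 < volume.real Λ ∧ LBd n s t Λ B ∧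
  δ = B * volume.real (Metric.ball (0 : E n) (1 / 2)) / volume.real Λ}

lemma lset_nonempty (ht : 1 ≤ t) : (lset n s t).Nonempty := by
  refine ⟨_, Metric.ball 0 (1 / 2), 1, Metric.isOpen_ball.measurableSet, Metric.isBounded_ball,
    ?_, small ht, rfl⟩
  rw [measureReal_def]
  exact ENNReal.toReal_pos (Metric.measure_ball_pos volume _ (by norm_num)).ne'
    measure_ball_lt_top.ne

lemma lset_bdd : BddBelow (lset n s t) := by
  refine ⟨0, ?_⟩
  rintro δ ⟨Λ', B', -, -, -, h', rfl⟩
  have := lbd_nonneg h'
  positivity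

/-- **Validity.** -/
theorem rho_le (ht : 1 ≤ t) : rho n ≤ sInf (lset n s t) := by
  refine le_csInf (lset_nonempty ht) ?_
  rintro δ ⟨Λ, B, h1, h2, h3, h, rfl⟩
  exact Pool.Agent.Y509.KP.valid h1 h2 h3 fun C hC hs => lbd_card h hC hs

/-- **Monotonicity in the number of conditioned points.** -/
theorem anti_s (ht : 1 ≤ t) : sInf (lset n (s + 1) t) ≤ sInf (lset n s t) := by
  refine le_csInf (lset_nonempty ht) ?_
  rintro δ ⟨Λ, B, h1, h2, h3, h, rfl⟩
  exact csInf_le lset_bdd ⟨Λ, B, h1, h2, h3, lbd_s h, rfl⟩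

/-- **Conditioning costs one level.** -/
theorem anti_st (ht : 1 ≤ t) : sInf (lset n s (t + 1)) ≤ sInf (lset n (s + 1) t) := by
  refine le_csInf (lset_nonempty ht) ?_
  rintro δ ⟨Λ, B, h1, h2, h3, h, rfl⟩
  exact csInf_le lset_bdd ⟨Λ, B, h1, h2, h3, lbd_st h, rfl⟩

end Pool.Agent.Y509.LS
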