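import Mathlib
import Pool.Agent.Y509.LS.B1
import Pool.Agent.TH41.LP.VOL

/-!
Y509/LS (helper509, MP_dbfdb2_gt): the barrier for the levels `t` with `t log t ≤ c n`.
-/

set_option autoImplicit false

open MeasureTheory Metric Filter Topology

namespace Pool.Agent.Y509.LS

lemma W_low {η : ℝ} (hη : 0 < η) : ∀ᶠ n : ℕ in atTop,
    Real.exp ((1 / 2 * (1 - Real.log 2) - η) * n) ≤ √(n / (4 * Real.pi)) ^ n * V1 n := by
  have hpi := Real.pi_pos
  have ha1 : Real.exp (-η) < 1 := by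
    rw [Real.exp_lt_one_iff]
    linarith
  have hlim : Tendsto (fun n : ℕ => Real.exp (-(η / 2) * (n : ℝ))) atTop (𝓝 0) := by
    apply Real.tendsto_exp_atBot.comp
    exact Tendsto.const_mul_atTop_of_neg (by linarith) tendsto_natCast_atTop_atTop
  filter_upwards [hlim.eventually (gt_mem_nhds (show (0 : ℝ) < 1 - Real.exp (-η) by linarith)),
    eventually_gt_atTop 0] with n hn hn0
  have hn0R : (0 : ℝ) < n := by exact_mod_cast hn0
  obtain ⟨x, hx⟩ : ∃ x : ℝ, x = (n : ℝ) / 2 := ⟨_, rfl⟩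
  have hnx : (n : ℝ) = 2 * x := by linarith
  have hx0 : 0 < x := by linarith
  have hG : 0 < Real.Gamma (x + 1) := Real.Gamma_pos_of_pos (by positivity)
  have hV : V1 n = √Real.pi ^ n / Real.Gamma (x + 1) := by
    unfold V1
    rw [measureReal_def, Pool.Agent.TH41.LP.VOLf.vol_toReal n hn0 1 zero_le_one, one_pow, one_mul,
      hx]
  have h1 : √(n / (4 * Real.pi)) ^ n * √Real.pi ^ n = Real.exp (x * Real.log x - x * Real.log 2) := by
    rw [← mul_pow, ← Real.sqrt_mul (by positivity), Pool.Agent.TH41.LP.VOLf.pow_exp _ (by positivity),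
      Real.log_sqrt (by positivity)]
    have e1 : (n : ℝ) / (4 * Real.pi) * Real.pi = x / 2 := by
      rw [hnx]
      field_simp
      norm_num
    rw [e1, Real.log_div hx0.ne' (by norm_num), hnx]
    congr 1
    ring
  have h2 := Pool.Agent.TH41.LP.VOLf.gamma_upper hx0 hη
  rw [hV, ← mul_div_assoc, h1, le_div_iff₀ hG]
  have h3 : Real.Gamma (x + 1) * Real.exp (-(η * x)) ≤
      Real.exp (x * Real.log x - x + η * x) := by
    refine le_trans (mul_le_mul_of_nonneg_left ?_ hG.le) h2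
    refine le_of_eq_of_le ?_ hn.le
    congr 1
    rw [hnx]
    ring
  calc Real.exp ((1 / 2 * (1 - Real.log 2) - η) * n) * Real.Gamma (x + 1)
      = Real.exp ((1 - Real.log 2) * x - η * x) * (Real.Gamma (x + 1) * Real.exp (-(η * x))) := by
        rw [mul_comm (Real.Gamma (x + 1)), ← mul_assoc, ← Real.exp_add]
        congr 2
        rw [hnx]
        ring
    _ ≤ Real.exp ((1 - Real.log 2) * x - η * x) * Real.exp (x * Real.log x - x + η * x) :=
        mul_le_mul_of_nonneg_left h3 (Real.exp_pos _).le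
    _ = Real.exp (x * Real.log x - x * Real.log 2) := by
        rw [← Real.exp_add]
        congr 1
        ring

lemma pow_le_two {a : ℝ} (ha : 0 ≤ a) {m : ℕ} (h : 2 * (m * a) ≤ Real.log 2) :
    (1 + 2 * a) ^ m ≤ 2 := by
  calc (1 + 2 * a) ^ m ≤ Real.exp (2 * a) ^ m := by
        refine pow_le_pow_left₀ (by positivity) ?_ m
        have := Real.add_one_le_exp (2 * a)
        linarith
    _ = Real.exp (2 * (m * a)) := by
        rw [← Real.exp_nat_mul]
        congr 1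
        ring
    _ ≤ Real.exp (Real.log 2) := Real.exp_le_exp.2 h
    _ = 2 := Real.exp_log (by norm_num)

lemma poly_exp (a b : ℝ) (hb : 0 < b) (m : ℕ) {τ : ℝ} (hτ : 0 < τ) :
    ∀ᶠ n : ℕ in atTop, a * (n : ℝ) ^ m * Real.exp (-(b * n)) ≤ τ := by
  have h1 : Tendsto (fun n : ℕ => a * ((n : ℝ) ^ m * Real.exp (-(b * n)))) atTop (𝓝 (a * 0)) := by
    refine Tendsto.const_mul a ?_
    have h2 := (Real.tendsto_pow_mul_exp_neg_atTop_nhds_zero m).comp
      (tendsto_natCast_atTop_atTop.const_mul_atTop hb : Tendsto (fun n : ℕ => b * (n : ℝ)) atTop atTop)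
    have h3 : ∀ n : ℕ, (n : ℝ) ^ m * Real.exp (-(b * n)) =
        (b ^ m)⁻¹ * (((b * n) ^ m) * Real.exp (-(b * n))) := by
      intro n
      rw [mul_pow]
      field_simp
    simp_rw [h3]
    have h4 := h2.const_mul ((b ^ m)⁻¹)
    rw [mul_zero] at h4
    exact h4
  rw [mul_zero] at h1
  filter_upwards [h1.eventually (gt_mem_nhds hτ)] with n hn
  linarith

/-- **The barrier.** -/
theorem barrier2 {γ : ℝ} (hγ0 : 0 ≤ γ) (hγ : γ < 1 / 2) : ∃ c : ℝ, 0 < c ∧ ∀ᶠ n : ℕ in atTop,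
    ∀ s t : ℕ, 1 ≤ t → (t : ℝ) * Real.log (t + 1) ≤ c * n → (s : ℝ) ≤ Real.exp (c * n) →
    ∀ Λ : Set (E n), MeasurableSet Λ → Bornology.IsBounded Λ → ∀ B : ℝ, LBd n s t Λ B →
    Real.exp ((1 - Real.log 2) * γ * n / t) * volume.real Λ ≤ B * V1 n := by
  have hpi := Real.pi_pos
  have hl2 : 0 < Real.log 2 := Real.log_pos (by norm_num)
  have hl2' : Real.log 2 < 1 := by
    have := Real.log_two_lt_d9
    linarith
  obtain ⟨κ, hκ⟩ : ∃ κ : ℝ, κ = 1 - Real.log 2 := ⟨_, rfl⟩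
  have hκ0 : 0 < κ := by linarith
  have hκ1 : κ < 1 := by linarith
  obtain ⟨Δ, hΔ⟩ : ∃ Δ : ℝ, Δ = κ * (1 / 2 - γ) := ⟨_, rfl⟩
  have hΔ0 : 0 < Δ := by
    rw [hΔ]
    exact mul_pos hκ0 (by linarith)
  have hΔ1 : Δ ≤ 1 := by
    rw [hΔ]
    nlinarith
  obtain ⟨ε, hε⟩ : ∃ ε : ℝ, ε = Δ / 4 := ⟨_, rfl⟩
  have hε0 : 0 < ε := by rw [hε]; positivity
  have hε1 : ε ≤ 1 / 2 := by rw [hε]; linarith
  obtain ⟨c, hc⟩ : ∃ c : ℝ, c = min (Δ / 60) (ε ^ 2 / 16) := ⟨_, rfl⟩
  have hc0 : 0 < c := by rw [hc]; positivity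
  have hc1 : c ≤ Δ / 60 := by rw [hc]; exact min_le_left _ _
  have hc2 : c ≤ ε ^ 2 / 16 := by rw [hc]; exact min_le_right _ _
  refine ⟨c, hc0, ?_⟩
  have f1 := poly_exp 1 (ε ^ 2 / 4) (by positivity) 0 (τ := 1 / 4) (by norm_num)
  have f2 := poly_exp (2 * (c / Real.log 2) ^ 2) (ε ^ 2 / 8) (by positivity) 2 hl2
  have f3 := poly_exp (2 * (c / Real.log 2)) (ε ^ 2 / 16) (by positivity) 1 hl2
  have f4 : ∀ᶠ n : ℕ in atTop, 1 ≤ Δ / 4 * (n : ℝ) :=
    (tendsto_natCast_atTop_atTop.const_mul_atTop (show 0 < Δ / 4 by positivity)).eventually_ge_atTop 1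
  filter_upwards [f1, f2, f3, f4, W_low (η := Δ / 4) (by positivity), eventually_gt_atTop 0] with n
    g1 g2 g3 g4 g5 hn0 s t ht hts hs Λ hΛ hb B hB
  have hn0R : (0 : ℝ) < n := by exact_mod_cast hn0
  have ht0 : (1 : ℝ) ≤ t := by exact_mod_cast ht
  obtain ⟨g, hg⟩ := kern hn0 hε0 hε1 (by
    simp only [pow_zero, mul_one, one_mul] at g1
    exact g1)
  have ht1 : (t : ℝ) ≤ c / Real.log 2 * n := by
    rw [div_mul_eq_mul_div, le_div_iff₀ hl2]
    refine le_trans (mul_le_mul_of_nonneg_left ?_ (by positivity)) hts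
    exact Real.log_le_log (by norm_num) (by linarith)
  obtain ⟨a, ha⟩ : ∃ a : ℝ, a = Real.exp (-(ε ^ 2 / 8 * n)) := ⟨_, rfl⟩
  have ha0 : 0 < a := by rw [ha]; exact Real.exp_pos _
  rw [← ha] at hg g2
  have hcl : 0 ≤ c / Real.log 2 := by positivity
  refine (le_of_eq ?_).trans (barrier1 hn0 hg (by positivity) rfl ht (by linarith)
    (pow_le_two ha0.le ?_) ?_ (G := Real.exp (κ * γ * n / t)) (Real.one_le_exp (by positivity)) ?_
    hΛ hb hB)
  · rw [hκ]
  · push_cast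
    have e1 : (t : ℝ) ^ 2 ≤ (c / Real.log 2 * n) ^ 2 := pow_le_pow_left₀ (by positivity) ht1 2
    calc 2 * ((t : ℝ) ^ 2 * a) ≤ 2 * ((c / Real.log 2 * n) ^ 2 * a) := by gcongr
      _ = 2 * (c / Real.log 2) ^ 2 * (n : ℝ) ^ 2 * a := by ring
      _ ≤ Real.log 2 := g2
  · rw [← pow_mul]
    refine pow_le_two ha0.le ?_
    push_cast
    have e1 : (s : ℝ) * t ≤ Real.exp (c * n) * (c / Real.log 2 * n) := by
      gcongr
    have e2 : Real.exp (c * n) * a ≤ Real.exp (-(ε ^ 2 / 16 * n)) := by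
      rw [ha, ← Real.exp_add, Real.exp_le_exp]
      nlinarith
    calc 2 * ((s : ℝ) * t * a) ≤ 2 * (Real.exp (c * n) * (c / Real.log 2 * n) * a) := by gcongr
      _ = 2 * (c / Real.log 2) * n * (Real.exp (c * n) * a) := by ring
      _ ≤ 2 * (c / Real.log 2) * n * Real.exp (-(ε ^ 2 / 16 * n)) := by gcongr
      _ = 2 * (c / Real.log 2) * (n : ℝ) ^ 1 * Real.exp (-(ε ^ 2 / 16 * n)) := by rw [pow_one]
      _ ≤ Real.log 2 := g3
  · have e0 : (6528 : ℝ) ≤ Real.exp (13 * Real.log 2) := by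
      have : Real.exp (13 * Real.log 2) = 8192 := by
        rw [mul_comm, Real.exp_mul, Real.exp_log (by norm_num)]
        norm_num
      rw [this]
      norm_num
    have e1 : ((t : ℝ) + 1) ^ (2 * t) = Real.exp (2 * (t * Real.log (t + 1))) := by
      rw [Pool.Agent.TH41.LP.VOLf.pow_exp _ (by positivity)]
      congr 1
      push_cast
      ring
    have e2 : (6528 * Real.exp (κ * γ * n / t)) ^ t ≤
        Real.exp (13 * (t * Real.log 2) + κ * γ * n) := by
      calc (6528 * Real.exp (κ * γ * n / t)) ^ t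
          ≤ (Real.exp (13 * Real.log 2) * Real.exp (κ * γ * n / t)) ^ t := by gcongr
        _ = Real.exp (13 * (t * Real.log 2) + κ * γ * n) := by
            rw [← Real.exp_add, ← Real.exp_nat_mul]
            congr 1
            field_simp
    have e3 : (t : ℝ) * Real.log 2 ≤ t * Real.log (t + 1) :=
      mul_le_mul_of_nonneg_left (Real.log_le_log (by norm_num) (by linarith)) (by positivity)
    have e4 : (√(n / (4 * Real.pi)) * Real.exp (-ε) * Real.exp (-(1 / (n : ℝ)))) ^ n * V1 n =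
        √(n / (4 * Real.pi)) ^ n * V1 n * Real.exp (-(ε * n) - 1) := by
      rw [mul_pow, mul_pow, ← Real.exp_nat_mul, ← Real.exp_nat_mul, sub_eq_add_neg, Real.exp_add]
      have e5 : (n : ℝ) * -(1 / n) = -1 := by field_simp
      rw [e5, show (n : ℝ) * -ε = -(ε * n) by ring]
      ring
    rw [e1, e4]
    calc Real.exp (2 * (t * Real.log (t + 1))) * (6528 * Real.exp (κ * γ * n / t)) ^ t
        ≤ Real.exp (2 * (t * Real.log (t + 1))) * Real.exp (13 * (t * Real.log 2) + κ * γ * n) :=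
          mul_le_mul_of_nonneg_left e2 (Real.exp_pos _).le
      _ = Real.exp (2 * (t * Real.log (t + 1)) + (13 * (t * Real.log 2) + κ * γ * n)) := by
          rw [← Real.exp_add]
      _ ≤ Real.exp ((1 / 2 * (1 - Real.log 2) - Δ / 4) * n + (-(ε * n) - 1)) := by
          rw [Real.exp_le_exp, ← hκ]
          have e6 : 15 * (c * n) ≤ Δ / 4 * n := by
            have := mul_le_mul_of_nonneg_right hc1 hn0R.le
            linarith
          have e7 : Δ * n = κ * (1 / 2 - γ) * n := by rw [hΔ]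
          have e8 : ε * n = Δ / 4 * n := by rw [hε]
          nlinarith
      _ = Real.exp ((1 / 2 * (1 - Real.log 2) - Δ / 4) * n) * Real.exp (-(ε * n) - 1) := by
          rw [← Real.exp_add]
      _ ≤ √(n / (4 * Real.pi)) ^ n * V1 n * Real.exp (-(ε * n) - 1) :=
          mul_le_mul_of_nonneg_right g5 (Real.exp_pos _).le

end Pool.Agent.Y509.LS
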